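import Pool.Agent.K1H99.BC.Poinc

/-!
# From optimal couplings to the barycenter functional
-/

set_option autoImplicit false

namespace Pool.Agent.K1H99.BC

open MeasureTheory Filter Topology Set ProbabilityTheory Module
open scoped ENNReal NNReal RealInnerProductSpace

variable {E : Type*} [NormedAddCommGroup E] [MeasurableSpace E]

/-- the squared Wasserstein distance -/
noncomputable def Wsq (ν μ : Measure E) : ℝ≥0∞ :=
  ⨅ (π : Measure (E × E)) (_ : IsCpl π ν μ), cost π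

/-- `ν` is a barycenter of the measures `μ i` with the weights `w i` -/
def IsBary {I : Type} [Fintype I] (w : I → ℝ) (μ : I → Measure E) (ν : Measure E) : Prop :=
  IsProbabilityMeasure ν ∧ ∀ ν' : Measure E, IsProbabilityMeasure ν' →
    ∑ i, ENNReal.ofReal (w i) * Wsq ν (μ i) ≤ ∑ i, ENNReal.ofReal (w i) * Wsq ν' (μ i)

lemma bary_of_sol {I : Type} [Fintype I] {w : I → ℝ} (hw : ∀ i, 0 < w i) (hw1 : ∑ i, w i = 1)
    {μ : I → Measure E} {ν : Measure E} (hν : IsProbabilityMeasure ν) (h : IsSol w μ ν) :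
    IsBary w μ ν := by
  classical
  obtain ⟨π, hπ, hmin⟩ := h
  refine ⟨hν, fun ν' hν' => ?_⟩
  have h1 : ∑ i, ENNReal.ofReal (w i) * Wsq ν (μ i) ≤ ∑ i, ENNReal.ofReal (w i) * cost (π i) :=
    Finset.sum_le_sum fun i _ => mul_le_mul_right (iInf₂_le (π i) (hπ i)) _
  refine h1.trans ?_
  apply ENNReal.le_of_forall_pos_le_add
  intro δ hδ hfin
  have h2 : ∀ i, ∃ π' : Measure (E × E), IsCpl π' ν' (μ i) ∧ cost π' ≤ Wsq ν' (μ i) + δ := by
    intro i
    have h3 : Wsq ν' (μ i) ≠ ∞ := by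
      intro h4
      have h5 := (ENNReal.sum_lt_top.1 hfin) i (Finset.mem_univ i)
      rw [h4, ENNReal.mul_top (ENNReal.ofReal_pos.2 (hw i)).ne'] at h5
      exact lt_irrefl _ h5
    have h6 : Wsq ν' (μ i) < Wsq ν' (μ i) + δ :=
      ENNReal.lt_add_right h3 (by simpa using hδ.ne')
    have h7 := h6
    conv_lhs at h7 => unfold Wsq
    obtain ⟨π', h8⟩ := iInf_lt_iff.1 h7
    obtain ⟨hπ', hlt⟩ := iInf_lt_iff.1 h8
    exact ⟨π', hπ', hlt.le⟩
  choose π' hπ' hc' using h2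
  refine (hmin ν' π' hν' hπ').trans ?_
  calc ∑ i, ENNReal.ofReal (w i) * cost (π' i)
      ≤ ∑ i, ENNReal.ofReal (w i) * (Wsq ν' (μ i) + δ) :=
        Finset.sum_le_sum fun i _ => mul_le_mul_right (hc' i) _
    _ = ∑ i, ENNReal.ofReal (w i) * Wsq ν' (μ i) + (∑ i, ENNReal.ofReal (w i)) * δ := by
        rw [Finset.sum_mul, ← Finset.sum_add_distrib]
        exact Finset.sum_congr rfl fun i _ => mul_add _ _ _
    _ = ∑ i, ENNReal.ofReal (w i) * Wsq ν' (μ i) + δ := by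
        rw [← ENNReal.ofReal_sum_of_nonneg fun i _ => (hw i).le, hw1, ENNReal.ofReal_one, one_mul]

lemma bary_reindex {I J : Type} [Fintype I] [Fintype J] (e : J ≃ I) {w : I → ℝ}
    {μ : I → Measure E} {ν : Measure E} (h : IsBary w μ ν) : IsBary (w ∘ e) (μ ∘ e) ν := by
  refine ⟨h.1, fun ν' hν' => ?_⟩
  have h1 := h.2 ν' hν'
  have h2 : ∀ ρ : Measure E, ∑ j, ENNReal.ofReal ((w ∘ e) j) * Wsq ρ ((μ ∘ e) j) =
      ∑ i, ENNReal.ofReal (w i) * Wsq ρ (μ i) := fun ρ =>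
    e.sum_comp fun i => ENNReal.ofReal (w i) * Wsq ρ (μ i)
  rw [h2, h2]
  exact h1

end Pool.Agent.K1H99.BC
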