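import Mathlib

/-!
# Existence of Wasserstein barycenters

For finitely many probability measures with finite second moments on a finite dimensional inner
product space there is a barycenter together with optimal couplings.
-/

set_option autoImplicit false

namespace Pool.Agent.K1H99.BC

open MeasureTheory Filter Topology Set
open scoped ENNReal NNReal

section lsc

variable {Ω : Type*} [TopologicalSpace Ω] [MeasurableSpace Ω] [OpensMeasurableSpace Ω]

lemma lsc_lintegral (f : Ω → ℝ≥0) (hf : Continuous f) :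
    LowerSemicontinuous (fun π : ProbabilityMeasure Ω => ∫⁻ x, (f x : ℝ≥0∞) ∂(π : Measure Ω)) := by
  have h1 : (fun π : ProbabilityMeasure Ω => ∫⁻ x, (f x : ℝ≥0∞) ∂(π : Measure Ω)) =
      fun π : ProbabilityMeasure Ω => ⨆ M : ℕ, ∫⁻ x, ((min (f x) M : ℝ≥0) : ℝ≥0∞) ∂(π : Measure Ω) := by
    funext π
    rw [← lintegral_iSup]
    · refine lintegral_congr fun x => ?_
      apply le_antisymm
      · obtain ⟨M, hM⟩ := exists_nat_ge (f x)
        refine le_iSup_of_le M ?_
        rw [min_eq_left hM]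
      · exact iSup_le fun M => ENNReal.coe_le_coe.2 (min_le_left _ _)
    · intro M
      exact (measurable_coe_nnreal_ennreal.comp (hf.min continuous_const).measurable)
    · intro M N hMN x
      apply ENNReal.coe_le_coe.2
      exact min_le_min_left _ (by exact_mod_cast hMN)
  rw [h1]
  apply lowerSemicontinuous_iSup
  intro M
  apply Continuous.lowerSemicontinuous
  rw [continuous_iff_continuousAt]
  intro π
  let g : BoundedContinuousFunction Ω ℝ≥0 :=
    BoundedContinuousFunction.mkOfBound ⟨fun x => min (f x) M, hf.min continuous_const⟩ M (by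
      intro x y
      simp only [ContinuousMap.coe_mk]
      rw [NNReal.dist_eq]
      have h2 : ((min (f x) M : ℝ≥0) : ℝ) ≤ M := by exact_mod_cast min_le_right _ _
      have h3 : ((min (f y) M : ℝ≥0) : ℝ) ≤ M := by exact_mod_cast min_le_right _ _
      have h4 : (0 : ℝ) ≤ ((min (f x) M : ℝ≥0) : ℝ) := NNReal.coe_nonneg _
      have h5 : (0 : ℝ) ≤ ((min (f y) M : ℝ≥0) : ℝ) := NNReal.coe_nonneg _
      rw [abs_le]
      constructor <;> linarith)
  exact (ProbabilityMeasure.tendsto_iff_forall_lintegral_tendsto.1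
    (tendsto_id : Tendsto (fun π : ProbabilityMeasure Ω => π) (𝓝 π) (𝓝 π))) g

end lsc

variable {E : Type*} [NormedAddCommGroup E] [InnerProductSpace ℝ E] [FiniteDimensional ℝ E]
  [MeasurableSpace E] [BorelSpace E]

/-- the transport cost of a coupling -/
noncomputable def cost (π : Measure (E × E)) : ℝ≥0∞ := ∫⁻ z, ‖z.1 - z.2‖ₑ ^ 2 ∂π

/-- `π` is a coupling of `ν` and `μ` -/
def IsCpl (π : Measure (E × E)) (ν μ : Measure E) : Prop :=
  π.map Prod.fst = ν ∧ π.map Prod.snd = μ

lemma cost_lsc : LowerSemicontinuous (fun π : ProbabilityMeasure (E × E) =>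
    cost (π : Measure (E × E))) := by
  have h := lsc_lintegral (Ω := E × E) (fun z => ‖z.1 - z.2‖₊ ^ 2) (by fun_prop)
  have h2 : (fun π : ProbabilityMeasure (E × E) => cost (π : Measure (E × E))) =
      fun π : ProbabilityMeasure (E × E) => ∫⁻ z, ((‖z.1 - z.2‖₊ ^ 2 : ℝ≥0) : ℝ≥0∞)
        ∂(π : Measure (E × E)) := by
    funext π
    unfold cost
    refine lintegral_congr fun z => ?_
    rw [ENNReal.coe_pow]
    rfl
  rw [h2]
  exact h

/-- a bound for the second moment of a coupling -/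
lemma moment_le (π : Measure (E × E)) :
    ∫⁻ z, ‖z‖ₑ ^ 2 ∂π ≤ 2 * cost π + 2 * ∫⁻ y, ‖y‖ₑ ^ 2 ∂(π.map Prod.snd) := by
  rw [lintegral_map (by fun_prop) measurable_snd, cost, ← lintegral_const_mul _ (by fun_prop),
    ← lintegral_const_mul _ (by fun_prop), ← lintegral_add_left (by fun_prop)]
  refine lintegral_mono fun z => ?_
  have h : ‖z‖ ^ 2 ≤ 2 * ‖z.1 - z.2‖ ^ 2 + 2 * ‖z.2‖ ^ 2 := by
    have h1 : ‖z.1‖ ≤ ‖z.1 - z.2‖ + ‖z.2‖ := by
      have := norm_add_le (z.1 - z.2) z.2
      rwa [sub_add_cancel] at this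
    rw [Prod.norm_def]
    rcases max_cases ‖z.1‖ ‖z.2‖ with ⟨h2, _⟩ | ⟨h2, _⟩
    · rw [h2]
      nlinarith [sq_nonneg (‖z.1 - z.2‖ - ‖z.2‖), norm_nonneg z.1, norm_nonneg z.2,
        norm_nonneg (z.1 - z.2)]
    · rw [h2]
      nlinarith [sq_nonneg (‖z.1 - z.2‖), norm_nonneg z.1, norm_nonneg z.2,
        norm_nonneg (z.1 - z.2)]
  have h0 : ∀ x : E, ‖x‖ₑ = ENNReal.ofReal ‖x‖ := fun x => (ofReal_norm x).symm
  have h0' : ∀ x : E × E, ‖x‖ₑ = ENNReal.ofReal ‖x‖ := fun x => (ofReal_norm x).symm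
  rw [h0, h0, h0', ← ENNReal.ofReal_pow (norm_nonneg _), ← ENNReal.ofReal_pow (norm_nonneg _),
    ← ENNReal.ofReal_pow (norm_nonneg _)]
  have h2 : (2 : ℝ≥0∞) = ENNReal.ofReal 2 := by simp
  rw [h2, ← ENNReal.ofReal_mul (by norm_num), ← ENNReal.ofReal_mul (by norm_num),
    ← ENNReal.ofReal_add (by positivity) (by positivity)]
  exact ENNReal.ofReal_le_ofReal h

/-- measures with bounded second moment form a set with compact closure; concretely they are
contained in a compact set -/
lemma compact_of_moment (C : ℝ≥0) : ∃ K : Set (ProbabilityMeasure (E × E)), IsCompact K ∧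
    ∀ π : ProbabilityMeasure (E × E), ∫⁻ z, ‖z‖ₑ ^ 2 ∂(π : Measure (E × E)) ≤ C → π ∈ K := by
  let u : ℕ → ℝ≥0 := fun n => C / ((n : ℝ≥0) + 1) ^ 2
  have hu : Tendsto u atTop (𝓝 0) := by
    have h1 : Tendsto (fun n : ℕ => ((n : ℝ≥0) + 1)) atTop atTop :=
      tendsto_atTop_mono (fun n => le_self_add) tendsto_natCast_atTop_atTop
    have h2 : Tendsto (fun n : ℕ => ((n : ℝ≥0) + 1) ^ 2) atTop atTop :=
      (tendsto_pow_atTop (by norm_num)).comp h1
    have h3 := (tendsto_inv_atTop_zero.comp h2).const_mul C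
    rw [mul_zero] at h3
    exact h3
  let B : ℕ → Set (E × E) := fun n => Metric.closedBall (0 : E × E) ((n : ℝ) + 1)
  have hB : ∀ n, IsCompact (B n) := fun n => isCompact_closedBall _ _
  have hc := isCompact_setOfPred_probabilityMeasure_mass_eq_compl_isCompact_le hu hB
    (Or.inl inferInstance)
  refine ⟨_, hc, ?_⟩
  intro π hπ n
  change π (Metric.closedBall (0 : E × E) ((n : ℝ) + 1))ᶜ ≤ u n
  have h1 : (π : Measure (E × E)) (Metric.closedBall (0 : E × E) ((n : ℝ) + 1))ᶜ ≤ (u n : ℝ≥0∞) := by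
    have h2 : (Metric.closedBall (0 : E × E) ((n : ℝ) + 1))ᶜ ⊆
        {z | (((n : ℝ≥0) + 1) ^ 2 : ℝ≥0∞) ≤ ‖z‖ₑ ^ 2} := by
      intro z hz
      rw [mem_compl_iff, mem_closedBall_zero_iff, not_le] at hz
      rw [mem_ofPred_eq]
      apply pow_le_pow_left' _ 2
      rw [← ofReal_norm]
      have : ((n : ℝ≥0) + 1 : ℝ≥0∞) = ENNReal.ofReal ((n : ℝ) + 1) := by
        rw [ENNReal.ofReal_add (by positivity) (by norm_num)]
        simp
      rw [this]
      exact ENNReal.ofReal_le_ofReal hz.le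
    refine (measure_mono h2).trans ?_
    have h3 := meas_ge_le_lintegral_div (μ := (π : Measure (E × E))) (f := fun z => ‖z‖ₑ ^ 2)
      (by fun_prop) (ε := (((n : ℝ≥0) + 1) ^ 2 : ℝ≥0∞)) (by positivity) (by
        have : (((n : ℝ≥0) + 1) ^ 2 : ℝ≥0∞) = (((n : ℝ≥0) + 1) ^ 2 : ℝ≥0) := by push_cast; rfl
        rw [this]
        exact ENNReal.coe_ne_top)
    refine h3.trans ?_
    have h4 : (u n : ℝ≥0∞) = (C : ℝ≥0∞) / (((n : ℝ≥0) + 1) ^ 2 : ℝ≥0∞) := by
      rw [ENNReal.coe_div (by positivity)]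
      push_cast
      rfl
    rw [h4]
    exact ENNReal.div_le_div_right hπ _
  rw [← ENNReal.coe_le_coe]
  simpa using h1

variable {ι : Type*} [Fintype ι]

lemma obj_lsc (w : ι → ℝ) : LowerSemicontinuous (fun p : ι → ProbabilityMeasure (E × E) =>
    ∑ i, ENNReal.ofReal (w i) * cost (p i : Measure (E × E))) := by
  apply lowerSemicontinuous_sum
  intro i _
  have h1 : LowerSemicontinuous (fun π : ProbabilityMeasure (E × E) =>
      ENNReal.ofReal (w i) * cost (π : Measure (E × E))) :=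
    (ENNReal.continuous_const_mul ENNReal.ofReal_ne_top).comp_lowerSemicontinuous cost_lsc
      (fun a b hab => mul_le_mul_right hab _)
  intro p a ha
  exact (continuous_apply i).continuousAt.eventually (h1 (p i) a ha)

omit [NormedAddCommGroup E] [InnerProductSpace ℝ E] [FiniteDimensional ℝ E] [BorelSpace E] in
lemma isCpl_prob {π : Measure (E × E)} {ν μ : Measure E} [hν : IsProbabilityMeasure ν]
    (h : IsCpl π ν μ) : IsProbabilityMeasure π := by
  constructor
  have h1 : π.map Prod.fst univ = 1 := by rw [h.1]; exact measure_univ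
  rwa [Measure.map_apply measurable_fst MeasurableSet.univ, preimage_univ] at h1

/-- **Existence of a barycenter** of finitely many probability measures with finite second moments,
with optimal couplings. -/
theorem exists_bary [Nonempty ι] (w : ι → ℝ) (hw : ∀ i, 0 < w i) (μ : ι → Measure E)
    [∀ i, IsProbabilityMeasure (μ i)] (hμ : ∀ i, ∫⁻ y, ‖y‖ₑ ^ 2 ∂(μ i) ≠ ∞) :
    ∃ (ν : Measure E) (π : ι → Measure (E × E)), IsProbabilityMeasure ν ∧
      (∀ i, IsCpl (π i) ν (μ i)) ∧
      (∀ (ν' : Measure E) (π' : ι → Measure (E × E)), IsProbabilityMeasure ν' →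
        (∀ i, IsCpl (π' i) ν' (μ i)) →
        ∑ i, ENNReal.ofReal (w i) * cost (π i) ≤ ∑ i, ENNReal.ofReal (w i) * cost (π' i)) ∧
      ∑ i, ENNReal.ofReal (w i) * cost (π i) ≠ ∞ := by
  classical
  let m : ι → ProbabilityMeasure E := fun i => ⟨μ i, inferInstance⟩
  let F : (ι → ProbabilityMeasure (E × E)) → ℝ≥0∞ := fun p =>
    ∑ i, ENNReal.ofReal (w i) * cost (p i : Measure (E × E))
  let fs : ProbabilityMeasure (E × E) → ProbabilityMeasure E := fun π =>
    π.map (continuous_fst : Continuous (Prod.fst : E × E → E)).measurable.aemeasurable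
  let sn : ProbabilityMeasure (E × E) → ProbabilityMeasure E := fun π =>
    π.map (continuous_snd : Continuous (Prod.snd : E × E → E)).measurable.aemeasurable
  have hfs : Continuous fs := ProbabilityMeasure.continuous_map continuous_fst
  have hsn : Continuous sn := ProbabilityMeasure.continuous_map continuous_snd
  let S : Set (ι → ProbabilityMeasure (E × E)) :=
    {p | (∀ i, sn (p i) = m i) ∧ ∀ i j, fs (p i) = fs (p j)}
  have hS : IsClosed S := by
    have h1 : S = (⋂ i, {p : ι → ProbabilityMeasure (E × E) | sn (p i) = m i}) ∩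
        ⋂ i, ⋂ j, {p : ι → ProbabilityMeasure (E × E) | fs (p i) = fs (p j)} := by
      ext p
      simp [S]
    rw [h1]
    refine IsClosed.inter (isClosed_iInter fun i => ?_) (isClosed_iInter fun i =>
      isClosed_iInter fun j => ?_)
    · exact isClosed_eq (hsn.comp (continuous_apply i)) continuous_const
    · exact isClosed_eq (hfs.comp (continuous_apply i)) (hfs.comp (continuous_apply j))
  -- the initial point
  let p₀ : ι → ProbabilityMeasure (E × E) := fun i =>
    ⟨(Measure.dirac (0 : E)).prod (μ i), inferInstance⟩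
  have hp₀ : p₀ ∈ S := by
    constructor
    · intro i
      apply Subtype.ext
      change ((Measure.dirac (0 : E)).prod (μ i)).map Prod.snd = μ i
      exact Measure.snd_prod
    · intro i j
      apply Subtype.ext
      change ((Measure.dirac (0 : E)).prod (μ i)).map Prod.fst =
        ((Measure.dirac (0 : E)).prod (μ j)).map Prod.fst
      have h1 : ∀ i, ((Measure.dirac (0 : E)).prod (μ i)).map Prod.fst = Measure.dirac (0 : E) :=
        fun i => Measure.fst_prod
      rw [h1, h1]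
  have hcost₀ : ∀ i, cost ((Measure.dirac (0 : E)).prod (μ i)) = ∫⁻ y, ‖y‖ₑ ^ 2 ∂(μ i) := by
    intro i
    unfold cost
    rw [lintegral_prod _ (by fun_prop), lintegral_dirac' _ (by fun_prop)]
    simp
  have hF₀ : F p₀ ≠ ∞ := by
    apply ENNReal.sum_ne_top.2
    intro i _
    apply ENNReal.mul_ne_top ENNReal.ofReal_ne_top
    change cost ((Measure.dirac (0 : E)).prod (μ i)) ≠ ∞
    rw [hcost₀]
    exact hμ i
  have hcost_le : ∀ p : ι → ProbabilityMeasure (E × E), F p ≤ F p₀ → ∀ i,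
      cost (p i : Measure (E × E)) ≤ F p₀ / ENNReal.ofReal (w i) := by
    intro p hp i
    rw [ENNReal.le_div_iff_mul_le (Or.inl (by simpa using hw i)) (Or.inl ENNReal.ofReal_ne_top),
      mul_comm]
    refine le_trans ?_ hp
    exact Finset.single_le_sum (f := fun i => ENNReal.ofReal (w i) * cost (p i : Measure (E × E)))
      (fun _ _ => zero_le) (Finset.mem_univ i)
  let C : ι → ℝ≥0 := fun i => (2 * (F p₀ / ENNReal.ofReal (w i)) + 2 * ∫⁻ y, ‖y‖ₑ ^ 2 ∂(μ i)).toNNReal
  have hC : ∀ i, (C i : ℝ≥0∞) = 2 * (F p₀ / ENNReal.ofReal (w i)) + 2 * ∫⁻ y, ‖y‖ₑ ^ 2 ∂(μ i) := by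
    intro i
    apply ENNReal.coe_toNNReal
    refine ENNReal.add_ne_top.2 ⟨ENNReal.mul_ne_top (by norm_num) ?_,
      ENNReal.mul_ne_top (by norm_num) (hμ i)⟩
    exact ENNReal.div_ne_top hF₀ (by simpa using hw i)
  choose K hKc hK using fun i => compact_of_moment (E := E) (C i)
  have hcomp : IsCompact (S ∩ Set.pi univ K) := (isCompact_univ_pi hKc).inter_left hS
  have hmem : ∀ p ∈ S, F p ≤ F p₀ → p ∈ S ∩ Set.pi univ K := by
    intro p hp hFp
    refine ⟨hp, fun i _ => hK i (p i) ?_⟩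
    rw [hC]
    refine (moment_le _).trans ?_
    have h1 : ((p i : Measure (E × E)).map Prod.snd) = μ i := congrArg Subtype.val (hp.1 i)
    rw [h1]
    gcongr
    exact hcost_le p hFp i
  obtain ⟨p, hp, hmin⟩ := LowerSemicontinuousOn.exists_isMinOn ⟨p₀, hmem p₀ hp₀ le_rfl⟩ hcomp
    ((obj_lsc w).lowerSemicontinuousOn _)
  have hp_min : ∀ p' ∈ S, F p ≤ F p' := by
    intro p' hp'
    rcases le_or_gt (F p') (F p₀) with h | h
    · exact hmin (hmem p' hp' h)
    · exact (hmin (hmem p₀ hp₀ le_rfl)).trans h.le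
  obtain ⟨i₀⟩ := (inferInstance : Nonempty ι)
  refine ⟨(p i₀ : Measure (E × E)).map Prod.fst, fun i => (p i : Measure (E × E)), ?_, ?_, ?_, ?_⟩
  · exact Measure.isProbabilityMeasure_map measurable_fst.aemeasurable
  · intro i
    exact ⟨congrArg Subtype.val (hp.1.2 i i₀), congrArg Subtype.val (hp.1.1 i)⟩
  · intro ν' π' hν' hπ'
    have hpr : ∀ i, IsProbabilityMeasure (π' i) := fun i => isCpl_prob (hπ' i)
    refine hp_min (fun i => ⟨π' i, hpr i⟩) ⟨fun i => ?_, fun i j => ?_⟩
    · apply Subtype.ext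
      exact (hπ' i).2
    · apply Subtype.ext
      exact (hπ' i).1.trans (hπ' j).1.symm
  · exact ne_top_of_le_ne_top hF₀ (hp_min p₀ hp₀)

end Pool.Agent.K1H99.BC
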