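import Pool.Agent.K1H99.BC.Model
import Pool.Agent.K1H99.BC.Exist

/-!
# The given measures, their couplings with the limit measure, second moments
-/

set_option autoImplicit false

namespace Pool.Agent.K1H99.BC

open MeasureTheory Filter Topology Set ProbabilityTheory
open scoped ENNReal NNReal RealInnerProductSpace

variable {E : Type*} [NormedAddCommGroup E] [InnerProductSpace ℝ E]

/-- multiplication by `a` along `θ` and by `c` on the orthogonal complement -/
def Lm (a c : ℝ) (θ x : E) : E := (a * ⟪θ, x⟫) • θ + c • perp θ x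

lemma continuous_Lm (a c : ℝ) (θ : E) : Continuous (Lm a c θ) := by unfold Lm perp; fun_prop

lemma inner_Lm (a c : ℝ) {θ : E} (hθ : ‖θ‖ = 1) (x : E) : ⟪θ, Lm a c θ x⟫ = a * ⟪θ, x⟫ := by
  unfold Lm
  rw [inner_add_right, inner_smul_right, inner_smul_right, inner_perp_self hθ,
    real_inner_self_eq_norm_sq, hθ]
  ring

lemma perp_Lm (a c : ℝ) {θ : E} (hθ : ‖θ‖ = 1) (x : E) : perp θ (Lm a c θ x) = c • perp θ x := by
  conv_lhs => unfold perp
  rw [inner_Lm a c hθ]
  unfold Lm
  abel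

variable [FiniteDimensional ℝ E] [MeasurableSpace E] [BorelSpace E]

/-- the given measures -/
noncomputable def mu (n ε : ℝ) (θ : E) : Measure E := (mT n θ).map (Lm n ε θ)

/-- the coupling of the limit measure and `mu n ε θ` -/
noncomputable def pis (n ε : ℝ) (θ : E) : Measure (E × E) :=
  ((nuS n : Measure E).prod (stdGaussian E)).map fun z => (z.1, Lm n ε θ (Phi θ z))

omit [FiniteDimensional ℝ E] in
lemma meas_Lm (a c : ℝ) (θ : E) : Measurable (Lm a c θ) := (continuous_Lm a c θ).measurable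

lemma meas_LP (a c : ℝ) (θ : E) : Measurable fun z : E × E => Lm a c θ (Phi θ z) :=
  (meas_Lm a c θ).comp (measurable_Phi θ)

variable {ι : Type*} [Fintype ι] [DecidableEq ι]

lemma mu_eq (b : OrthonormalBasis ι ℝ E) (i : ι) (hc : 2 ≤ Fintype.card ι) (ε : ℝ) :
    mu (Fintype.card ι) ε (b i) = ((nuS (Fintype.card ι) : Measure E).prod (stdGaussian E)).map
      fun z => Lm (Fintype.card ι) ε (b i) (Phi (b i) z) := by
  unfold mu
  rw [← map_Phi_nuS b i hc, Measure.map_map (meas_Lm _ _ _) (measurable_Phi _)]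
  rfl

omit [DecidableEq ι] in
lemma prob_mu (b : OrthonormalBasis ι ℝ E) (i : ι) (hc : 2 ≤ Fintype.card ι) (ε : ℝ) :
    IsProbabilityMeasure (mu (Fintype.card ι) ε (b i)) := by
  have := prob_mT b i hc
  exact Measure.isProbabilityMeasure_map (meas_Lm _ _ _).aemeasurable

lemma cpl_pis (b : OrthonormalBasis ι ℝ E) (i : ι) (hc : 2 ≤ Fintype.card ι) (ε : ℝ) :
    IsCpl (pis (Fintype.card ι) ε (b i)) (nuS (Fintype.card ι)) (mu (Fintype.card ι) ε (b i)) := by
  have hm : Measurable fun z : E × E => (z.1, Lm (Fintype.card ι) ε (b i) (Phi (b i) z)) :=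
    measurable_fst.prodMk (meas_LP _ _ _)
  constructor
  · unfold pis
    rw [Measure.map_map measurable_fst hm]
    change Measure.map Prod.fst _ = _
    exact Measure.fst_prod
  · rw [mu_eq b i hc]
    unfold pis
    rw [Measure.map_map measurable_snd hm]
    rfl

/-- the law of the component along `θ` -/
lemma mu_inner (b : OrthonormalBasis ι ℝ E) (i : ι) (hc : 2 ≤ Fintype.card ι) (ε : ℝ) :
    (mu (Fintype.card ι) ε (b i)).map (fun y => ⟪b i, y⟫) =
      (nuS (Fintype.card ι) : Measure E).map (fun x => (Fintype.card ι : ℝ) * ⟪b i, x⟫) := by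
  have hb : ‖b i‖ = 1 := b.orthonormal.1 i
  rw [mu_eq b i hc, Measure.map_map (by fun_prop) (meas_LP _ _ _)]
  have h1 : (fun y : E => ⟪b i, y⟫) ∘ (fun z : E × E => Lm (Fintype.card ι) ε (b i) (Phi (b i) z)) =
      (fun x : E => (Fintype.card ι : ℝ) * ⟪b i, x⟫) ∘ Prod.fst := by
    funext z
    simp only [Function.comp_apply]
    rw [inner_Lm _ _ hb, inner_Phi hb]
  rw [h1, ← Measure.map_map (by fun_prop) measurable_fst]
  congr 1
  exact Measure.fst_prod

/-- the law of the orthogonal component -/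
lemma mu_perp (b : OrthonormalBasis ι ℝ E) (i : ι) (hc : 2 ≤ Fintype.card ι) (ε : ℝ) :
    (mu (Fintype.card ι) ε (b i)).map (perp (b i)) =
      (stdGaussian E).map (fun x => ε • perp (b i) x) := by
  have hb : ‖b i‖ = 1 := b.orthonormal.1 i
  have hp : Measurable (perp (b i)) := (continuous_perp _).measurable
  have := prob_nuS b i hc
  rw [mu_eq b i hc, Measure.map_map hp (meas_LP _ _ _)]
  have h1 : perp (b i) ∘ (fun z : E × E => Lm (Fintype.card ι) ε (b i) (Phi (b i) z)) =
      (fun x : E => ε • perp (b i) x) ∘ Prod.snd := by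
    funext z
    simp only [Function.comp_apply]
    rw [perp_Lm _ _ hb, perp_Phi hb]
  have hp2 : Measurable fun x : E => ε • perp (b i) x := hp.const_smul ε
  rw [h1, ← Measure.map_map hp2 measurable_snd]
  congr 1
  exact Measure.snd_prod

/-! ### Second moments -/

lemma memLp_nuS (n : ℝ) : MemLp (fun x : E => x) 2 (nuS n : Measure E) := by
  rw [memLp_two_iff_integrable_sq_norm (by fun_prop)]
  unfold nuS
  rw [integrable_withDensity_iff_integrable_smul' (measurable_wt n)
    (ae_of_all _ fun x => ENNReal.ofReal_lt_top)]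
  have e : (fun x : E => (ENNReal.ofReal ((‖x‖ ^ 2 - 1) ^ 2 / (n ^ 2 + 1))).toReal • ‖x‖ ^ 2) =
      fun x : E => ((1 / (n ^ 2 + 1)) * ‖x‖ ^ 6 + (-2 / (n ^ 2 + 1)) * ‖x‖ ^ 4) +
        (1 / (n ^ 2 + 1)) * ‖x‖ ^ 2 := by
    funext x
    rw [ENNReal.toReal_ofReal (by positivity), smul_eq_mul]
    ring
  rw [e]
  exact (((integrable_norm_pow 6).const_mul _).add ((integrable_norm_pow 4).const_mul _)).add
    ((integrable_norm_pow 2).const_mul _)

lemma memLp_pis (b : OrthonormalBasis ι ℝ E) (i : ι) (hc : 2 ≤ Fintype.card ι) (ε : ℝ) :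
    MemLp (fun z : E × E => Lm (Fintype.card ι) ε (b i) (Phi (b i) z)) 2
      ((nuS (Fintype.card ι) : Measure E).prod (stdGaussian E)) := by
  have := prob_nuS b i hc
  have hb : ‖b i‖ = 1 := b.orthonormal.1 i
  have h1 : MemLp (fun z : E × E => z.1) 2
      ((nuS (Fintype.card ι) : Measure E).prod (stdGaussian E)) :=
    (memLp_nuS (E := E) _).comp_fst _
  have h2 : MemLp (fun z : E × E => z.2) 2
      ((nuS (Fintype.card ι) : Measure E).prod (stdGaussian E)) :=
    (memLp_std (E := E) 2 (by norm_num)).comp_snd _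
  have h3 := ((h1.norm.const_mul (Fintype.card ι : ℝ)).add (h2.norm.const_mul |ε|))
  refine h3.mono' (meas_LP _ _ _).aestronglyMeasurable (ae_of_all _ fun z => ?_)
  have e : Lm (Fintype.card ι) ε (b i) (Phi (b i) z) =
      ((Fintype.card ι : ℝ) * ⟪b i, z.1⟫) • b i + ε • perp (b i) z.2 := by
    unfold Lm
    rw [inner_Phi hb, perp_Phi hb]
  rw [e]
  refine (norm_add_le _ _).trans ?_
  simp only [Pi.add_apply]
  rw [norm_smul, norm_smul, hb, norm_mul, mul_one, Real.norm_of_nonneg (Nat.cast_nonneg _)]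
  have h4 : ‖⟪b i, z.1⟫‖ ≤ ‖z.1‖ := by
    have := norm_inner_le_norm (𝕜 := ℝ) (b i) z.1
    rwa [hb, one_mul] at this
  have h5 := norm_perp_le hb z.2
  have h6 : ‖ε‖ = |ε| := rfl
  rw [h6]
  gcongr

lemma memLp_mu (b : OrthonormalBasis ι ℝ E) (i : ι) (hc : 2 ≤ Fintype.card ι) (ε : ℝ) :
    MemLp (fun y : E => y) 2 (mu (Fintype.card ι) ε (b i)) := by
  rw [mu_eq b i hc, memLp_map_measure_iff (by fun_prop) (meas_LP _ _ _).aemeasurable]
  exact memLp_pis b i hc ε

omit [InnerProductSpace ℝ E] [FiniteDimensional ℝ E] [BorelSpace E] in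
lemma lint_of_memLp {m : Measure E} (h : MemLp (fun y : E => y) 2 m) :
    ∫⁻ y, ‖y‖ₑ ^ 2 ∂m ≠ ∞ := by
  have h1 := ((memLp_two_iff_integrable_sq_norm h.1).1 h).2
  unfold HasFiniteIntegral at h1
  simp_rw [enorm_pow, enorm_norm] at h1
  exact h1.ne

end Pool.Agent.K1H99.BC
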