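import Pool.Agent.K1H99.BC.Couple

/-!
# The barycenter of the given measures is close to the limit measure
-/

set_option autoImplicit false

namespace Pool.Agent.K1H99.BC

open MeasureTheory Filter Topology Set ProbabilityTheory
open scoped ENNReal NNReal RealInnerProductSpace

variable {E : Type*} [NormedAddCommGroup E] [InnerProductSpace ℝ E]

/-- the pointwise lower bound -/
lemma point_lower {θ : E} (hθ : ‖θ‖ = 1) {n ε : ℝ} (hn : 0 < n) (hε : 0 < ε) (x y : E) :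
    (1 - ε) * (‖x‖ ^ 2 - n * ⟪θ, x⟫ ^ 2 + n * (⟪θ, x⟫ - ⟪θ, y⟫ / n) ^ 2 +
      (1 - 1 / n) * ⟪θ, y⟫ ^ 2) - (1 / ε) * ‖perp θ y‖ ^ 2 ≤ ‖x - y‖ ^ 2 := by
  have h1 : x - y = (x - ⟪θ, y⟫ • θ) - perp θ y := by unfold perp; abel
  have h2 : ‖x - ⟪θ, y⟫ • θ‖ ^ 2 = ‖x‖ ^ 2 - n * ⟪θ, x⟫ ^ 2 + n * (⟪θ, x⟫ - ⟪θ, y⟫ / n) ^ 2 +
      (1 - 1 / n) * ⟪θ, y⟫ ^ 2 := by
    rw [norm_sub_sq_real, inner_smul_right, norm_smul, hθ, real_inner_comm θ x]
    simp only [mul_one, Real.norm_eq_abs, sq_abs]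
    field_simp
    ring
  have h7 := norm_sub_sq_real (x - ⟪θ, y⟫ • θ) (perp θ y)
  rw [← h1] at h7
  rw [← h2, h7]
  have h3 : ⟪x - ⟪θ, y⟫ • θ, perp θ y⟫ ≤ ‖x - ⟪θ, y⟫ • θ‖ * ‖perp θ y‖ := real_inner_le_norm _ _
  set A := ‖x - ⟪θ, y⟫ • θ‖
  set B := ‖perp θ y‖
  have h4 : 2 * (A * B) ≤ ε * A ^ 2 + (1 / ε) * B ^ 2 := by
    have h5 : 0 ≤ (ε * A - B) ^ 2 / ε := by positivity
    have h6 : (ε * A - B) ^ 2 / ε = ε * A ^ 2 + (1 / ε) * B ^ 2 - 2 * (A * B) := by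
      field_simp
      ring
    linarith
  nlinarith [sq_nonneg B]

variable [FiniteDimensional ℝ E] [MeasurableSpace E] [BorelSpace E]

lemma memLp_fst {π : Measure (E × E)} {ν μ : Measure E} (h : IsCpl π ν μ)
    (hν : MemLp (fun x : E => x) 2 ν) : MemLp (fun z : E × E => z.1) 2 π := by
  rw [← h.1, memLp_map_measure_iff (by fun_prop) measurable_fst.aemeasurable] at hν
  exact hν

lemma memLp_snd {π : Measure (E × E)} {ν μ : Measure E} (h : IsCpl π ν μ)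
    (hμ : MemLp (fun x : E => x) 2 μ) : MemLp (fun z : E × E => z.2) 2 π := by
  rw [← h.2, memLp_map_measure_iff (by fun_prop) measurable_snd.aemeasurable] at hμ
  exact hμ

omit [InnerProductSpace ℝ E] [FiniteDimensional ℝ E] [BorelSpace E] in
lemma cost_eq {π : Measure (E × E)} (h1 : MemLp (fun z : E × E => z.1) 2 π)
    (h2 : MemLp (fun z : E × E => z.2) 2 π) :
    cost π = ENNReal.ofReal (∫ z, ‖z.1 - z.2‖ ^ 2 ∂π) := by
  have h3 : Integrable (fun z : E × E => ‖z.1 - z.2‖ ^ 2) π :=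
    (h1.sub h2).integrable_norm_pow (by norm_num)
  rw [ofReal_integral_eq_lintegral_ofReal h3 (ae_of_all _ fun z => by positivity)]
  unfold cost
  refine lintegral_congr fun z => ?_
  rw [← ofReal_norm, ENNReal.ofReal_pow (norm_nonneg _)]

variable {ι : Type*} [Fintype ι] [DecidableEq ι]

/-- the second moment of the projection of the limit measure -/
noncomputable def sg (n : ℝ) (θ : E) : ℝ := ∫ x, ⟪θ, x⟫ ^ 2 ∂(nuS n : Measure E)

lemma int_mu_inner (b : OrthonormalBasis ι ℝ E) (i : ι) (hc : 2 ≤ Fintype.card ι) (ε : ℝ) :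
    ∫ y, ⟪b i, y⟫ ^ 2 ∂(mu (Fintype.card ι) ε (b i)) =
      (Fintype.card ι : ℝ) ^ 2 * sg (Fintype.card ι) (b i) := by
  have h1 : ∫ y, ⟪b i, y⟫ ^ 2 ∂(mu (Fintype.card ι) ε (b i)) =
      ∫ s, s ^ 2 ∂((mu (Fintype.card ι) ε (b i)).map (fun y => ⟪b i, y⟫)) := by
    rw [integral_map (by fun_prop) (by fun_prop)]
  rw [h1, mu_inner b i hc, integral_map (by fun_prop) (by fun_prop)]
  simp_rw [mul_pow]
  rw [integral_const_mul]
  rfl

lemma int_mu_perp (b : OrthonormalBasis ι ℝ E) (i : ι) (hc : 2 ≤ Fintype.card ι) (ε : ℝ) :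
    ∫ y, ‖perp (b i) y‖ ^ 2 ∂(mu (Fintype.card ι) ε (b i)) =
      ε ^ 2 * ((Fintype.card ι : ℝ) - 1) := by
  have hp : Measurable (perp (b i)) := (continuous_perp _).measurable
  have h1 : ∫ y, ‖perp (b i) y‖ ^ 2 ∂(mu (Fintype.card ι) ε (b i)) =
      ∫ s, ‖s‖ ^ 2 ∂((mu (Fintype.card ι) ε (b i)).map (perp (b i))) := by
    rw [integral_map hp.aemeasurable (by fun_prop)]
  have hp2 : Measurable fun x : E => ε • perp (b i) x := hp.const_smul ε
  rw [h1, mu_perp b i hc, integral_map hp2.aemeasurable (by fun_prop)]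
  simp_rw [norm_smul, mul_pow]
  rw [integral_const_mul, integral_perp_sq, Real.norm_eq_abs, sq_abs]

/-- lower bound for the cost of a coupling with a given measure -/
lemma lower (b : OrthonormalBasis ι ℝ E) (i : ι) (hc : 2 ≤ Fintype.card ι) {ε : ℝ} (hε : 0 < ε)
    {ν : Measure E} {π : Measure (E × E)}
    (hπ : IsCpl π ν (mu (Fintype.card ι) ε (b i))) (hν : MemLp (fun x : E => x) 2 ν) :
    (1 - ε) * (∫ x, ‖x‖ ^ 2 ∂ν - (Fintype.card ι : ℝ) * ∫ x, ⟪b i, x⟫ ^ 2 ∂ν +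
      (Fintype.card ι : ℝ) * ∫ z, (⟪b i, z.1⟫ - ⟪b i, z.2⟫ / (Fintype.card ι : ℝ)) ^ 2 ∂π +
      ((Fintype.card ι : ℝ) ^ 2 - Fintype.card ι) * sg (Fintype.card ι) (b i)) -
      ε * ((Fintype.card ι : ℝ) - 1) ≤ ∫ z, ‖z.1 - z.2‖ ^ 2 ∂π := by
  set n : ℝ := (Fintype.card ι : ℝ) with hn
  have hb : ‖b i‖ = 1 := b.orthonormal.1 i
  have hn2 : (2 : ℝ) ≤ n := by rw [hn]; exact_mod_cast hc
  have hn0 : 0 < n := by linarith
  have hp := continuous_perp (E := E) (b i)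
  have m1 := memLp_fst hπ hν
  have m2 := memLp_snd hπ (memLp_mu b i hc ε)
  have m3 : MemLp (fun z : E × E => ⟪b i, z.1⟫) 2 π := m1.const_inner (b i)
  have m4 : MemLp (fun z : E × E => ⟪b i, z.2⟫) 2 π := m2.const_inner (b i)
  have m5 : MemLp (fun z : E × E => ⟪b i, z.1⟫ - ⟪b i, z.2⟫ / n) 2 π := by
    have h := m3.sub (m4.const_mul n⁻¹)
    refine h.ae_eq (ae_of_all _ fun z => ?_)
    simp only [Pi.sub_apply]
    rw [div_eq_inv_mul]
  have m6 : MemLp (fun z : E × E => perp (b i) z.2) 2 π := by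
    refine m2.mono (hp.comp continuous_snd).aestronglyMeasurable (ae_of_all _ fun z => ?_)
    exact norm_perp_le hb z.2
  have i1 : Integrable (fun z : E × E => ‖z.1‖ ^ 2) π := m1.integrable_norm_pow (by norm_num)
  have i3 : Integrable (fun z : E × E => ⟪b i, z.1⟫ ^ 2) π := m3.integrable_sq
  have i4 : Integrable (fun z : E × E => ⟪b i, z.2⟫ ^ 2) π := m4.integrable_sq
  have i5 : Integrable (fun z : E × E => (⟪b i, z.1⟫ - ⟪b i, z.2⟫ / n) ^ 2) π := m5.integrable_sq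
  have i6 : Integrable (fun z : E × E => ‖perp (b i) z.2‖ ^ 2) π := m6.integrable_norm_pow (by norm_num)
  have i7 : Integrable (fun z : E × E => ‖z.1 - z.2‖ ^ 2) π :=
    (m1.sub m2).integrable_norm_pow (by norm_num)
  have j1 : Integrable (fun z : E × E => ‖z.1‖ ^ 2 - n * ⟪b i, z.1⟫ ^ 2) π := i1.sub (i3.const_mul n)
  have j2 : Integrable (fun z : E × E => ‖z.1‖ ^ 2 - n * ⟪b i, z.1⟫ ^ 2 +
      n * (⟪b i, z.1⟫ - ⟪b i, z.2⟫ / n) ^ 2) π := j1.add (i5.const_mul n)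
  have j3 : Integrable (fun z : E × E => ‖z.1‖ ^ 2 - n * ⟪b i, z.1⟫ ^ 2 +
      n * (⟪b i, z.1⟫ - ⟪b i, z.2⟫ / n) ^ 2 + (1 - 1 / n) * ⟪b i, z.2⟫ ^ 2) π :=
    j2.add (i4.const_mul _)
  have j4 : Integrable (fun z : E × E => (1 - ε) * (‖z.1‖ ^ 2 - n * ⟪b i, z.1⟫ ^ 2 +
      n * (⟪b i, z.1⟫ - ⟪b i, z.2⟫ / n) ^ 2 + (1 - 1 / n) * ⟪b i, z.2⟫ ^ 2)) π := j3.const_mul _
  have key := integral_mono (j4.sub (i6.const_mul (1 / ε))) i7
    (fun z => point_lower hb hn0 hε z.1 z.2)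
  refine le_trans (le_of_eq ?_) key
  have e1 : ∫ z, ‖z.1‖ ^ 2 ∂π = ∫ x, ‖x‖ ^ 2 ∂ν := by
    rw [← hπ.1, integral_map (by fun_prop) (by fun_prop)]
  have e3 : ∫ z, ⟪b i, z.1⟫ ^ 2 ∂π = ∫ x, ⟪b i, x⟫ ^ 2 ∂ν := by
    rw [← hπ.1, integral_map (by fun_prop) (by fun_prop)]
  have e4 : ∫ z, ⟪b i, z.2⟫ ^ 2 ∂π = n ^ 2 * sg n (b i) := by
    rw [hn, ← int_mu_inner b i hc ε, ← hπ.2, integral_map (by fun_prop) (by fun_prop)]
  have e6 : ∫ z, ‖perp (b i) z.2‖ ^ 2 ∂π = ε ^ 2 * (n - 1) := by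
    rw [hn, ← int_mu_perp b i hc ε, ← hπ.2, integral_map (by fun_prop) (by fun_prop)]
  simp only [Pi.sub_apply]
  rw [integral_sub j4 (i6.const_mul _), integral_const_mul, integral_const_mul,
    integral_add j2 (i4.const_mul _), integral_add j1 (i5.const_mul n), integral_sub i1 (i3.const_mul n),
    integral_const_mul, integral_const_mul, integral_const_mul, e1, e3, e4, e6]
  field_simp

/-- upper bound for the cost of the coupling with the limit measure -/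
lemma upper (b : OrthonormalBasis ι ℝ E) (i : ι) (hc : 2 ≤ Fintype.card ι) {ε : ℝ} (hε : 0 < ε)
    (hε1 : ε ≤ 1) :
    ∫ z, ‖z.1 - z.2‖ ^ 2 ∂(pis (Fintype.card ι) ε (b i)) ≤
      (1 + ε) * (∫ x, ‖x‖ ^ 2 ∂(nuS (Fintype.card ι) : Measure E) +
        ((Fintype.card ι : ℝ) ^ 2 - 2 * Fintype.card ι) * sg (Fintype.card ι) (b i)) +
      2 * ε * ((Fintype.card ι : ℝ) - 1) := by
  set n : ℝ := (Fintype.card ι : ℝ) with hn
  have hb : ‖b i‖ = 1 := b.orthonormal.1 i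
  have hn2 : (2 : ℝ) ≤ n := by rw [hn]; exact_mod_cast hc
  have hprob := prob_nuS b i hc
  have hprob' : IsProbabilityMeasure (nuS n : Measure E) := hprob
  have hp := continuous_perp (E := E) (b i)
  unfold pis
  rw [integral_map (measurable_fst.prodMk (meas_LP _ _ _)).aemeasurable (by fun_prop)]
  simp only
  have m1 : MemLp (fun z : E × E => z.1) 2 ((nuS n : Measure E).prod (stdGaussian E)) :=
    (memLp_nuS (E := E) _).comp_fst _
  have m2 : MemLp (fun z : E × E => z.2) 2 ((nuS n : Measure E).prod (stdGaussian E)) :=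
    (memLp_std (E := E) 2 (by norm_num)).comp_snd _
  have m3 := memLp_pis b i hc ε
  have m4 : MemLp (fun z : E × E => perp (b i) z.2) 2 ((nuS n : Measure E).prod (stdGaussian E)) := by
    refine m2.mono (hp.comp continuous_snd).aestronglyMeasurable (ae_of_all _ fun z => ?_)
    exact norm_perp_le hb z.2
  have i1 : Integrable (fun z : E × E => ‖z.1‖ ^ 2) ((nuS n : Measure E).prod (stdGaussian E)) :=
    m1.integrable_norm_pow (by norm_num)
  have i2 : Integrable (fun z : E × E => ⟪b i, z.1⟫ ^ 2)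
      ((nuS n : Measure E).prod (stdGaussian E)) := (m1.const_inner (b i)).integrable_sq
  have i4 : Integrable (fun z : E × E => ‖perp (b i) z.2‖ ^ 2)
      ((nuS n : Measure E).prod (stdGaussian E)) := m4.integrable_norm_pow (by norm_num)
  have i5 : Integrable (fun z : E × E => ‖z.1 - Lm n ε (b i) (Phi (b i) z)‖ ^ 2)
      ((nuS n : Measure E).prod (stdGaussian E)) := (m1.sub m3).integrable_norm_pow (by norm_num)
  have j1 : Integrable (fun z : E × E => (1 + ε) * (‖z.1‖ ^ 2 + (n ^ 2 - 2 * n) * ⟪b i, z.1⟫ ^ 2))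
      ((nuS n : Measure E).prod (stdGaussian E)) := (i1.add (i2.const_mul _)).const_mul _
  have key : ∀ z : E × E, ‖z.1 - Lm n ε (b i) (Phi (b i) z)‖ ^ 2 ≤
      (1 + ε) * (‖z.1‖ ^ 2 + (n ^ 2 - 2 * n) * ⟪b i, z.1⟫ ^ 2) + 2 * ε * ‖perp (b i) z.2‖ ^ 2 := by
    intro z
    have e : z.1 - Lm n ε (b i) (Phi (b i) z) =
        (z.1 - (n * ⟪b i, z.1⟫) • b i) - ε • perp (b i) z.2 := by
      unfold Lm
      rw [inner_Phi hb, perp_Phi hb]
      abel
    have h2 : ‖z.1 - (n * ⟪b i, z.1⟫) • b i‖ ^ 2 = ‖z.1‖ ^ 2 + (n ^ 2 - 2 * n) * ⟪b i, z.1⟫ ^ 2 := by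
      rw [norm_sub_sq_real, inner_smul_right, norm_smul, hb, real_inner_comm (b i) z.1]
      simp only [mul_one, Real.norm_eq_abs, sq_abs]
      ring
    rw [e, ← h2]
    have h3 : ‖(z.1 - (n * ⟪b i, z.1⟫) • b i) - ε • perp (b i) z.2‖ ≤
        ‖z.1 - (n * ⟪b i, z.1⟫) • b i‖ + ε * ‖perp (b i) z.2‖ := by
      refine (norm_sub_le _ _).trans ?_
      rw [norm_smul, Real.norm_of_nonneg hε.le]
    set A := ‖z.1 - (n * ⟪b i, z.1⟫) • b i‖
    set B := ‖perp (b i) z.2‖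
    have hA : 0 ≤ A := norm_nonneg _
    have hB : 0 ≤ B := norm_nonneg _
    have h4 : ‖(z.1 - (n * ⟪b i, z.1⟫) • b i) - ε • perp (b i) z.2‖ ^ 2 ≤ (A + ε * B) ^ 2 :=
      pow_le_pow_left₀ (norm_nonneg _) h3 2
    refine h4.trans ?_
    have h5 : 0 ≤ ε * (A - B) ^ 2 := by positivity
    have h6 : 0 ≤ ε * (1 - ε) * B ^ 2 := mul_nonneg (mul_nonneg hε.le (by linarith)) (sq_nonneg _)
    nlinarith
  refine (integral_mono i5 (j1.add (i4.const_mul (2 * ε))) key).trans (le_of_eq ?_)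
  simp only [Pi.add_apply]
  have e1 : ∫ z, ‖z.1‖ ^ 2 ∂((nuS n : Measure E).prod (stdGaussian E)) =
      ∫ x, ‖x‖ ^ 2 ∂(nuS n : Measure E) := by
    rw [integral_fun_fst (fun x : E => ‖x‖ ^ 2)]
    simp
  have e2 : ∫ z, ⟪b i, z.1⟫ ^ 2 ∂((nuS n : Measure E).prod (stdGaussian E)) = sg n (b i) := by
    rw [integral_fun_fst (fun x : E => ⟪b i, x⟫ ^ 2)]
    simp [sg]
  have e3 : ∫ z, ‖perp (b i) z.2‖ ^ 2 ∂((nuS n : Measure E).prod (stdGaussian E)) = n - 1 := by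
    rw [integral_fun_snd (fun x : E => ‖perp (b i) x‖ ^ 2), integral_perp_sq]
    simp [hn]
  rw [integral_add j1 (i4.const_mul _), integral_const_mul, integral_const_mul,
    integral_add i1 (i2.const_mul _), integral_const_mul, e1, e2, e3]

end Pool.Agent.K1H99.BC
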