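import Mathlib

/-!
# Splitting of the standard Gaussian measure and its moments
-/

set_option autoImplicit false

namespace Pool.Agent.K1H99.BC

open MeasureTheory Filter Topology Set ProbabilityTheory
open scoped ENNReal NNReal RealInnerProductSpace

variable {E : Type*} [NormedAddCommGroup E] [InnerProductSpace ℝ E]

/-- the component orthogonal to `θ` -/
def perp (θ x : E) : E := x - ⟪θ, x⟫ • θ

/-- the component along `θ` of the first vector plus the orthogonal component of the second -/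
def Phi (θ : E) (z : E × E) : E := ⟪θ, z.1⟫ • θ + perp θ z.2

lemma continuous_perp (θ : E) : Continuous (perp θ) := by unfold perp; fun_prop

lemma continuous_Phi (θ : E) : Continuous (Phi θ) := by unfold Phi perp; fun_prop

lemma inner_perp_self {θ : E} (hθ : ‖θ‖ = 1) (x : E) : ⟪θ, perp θ x⟫ = 0 := by
  unfold perp
  rw [inner_sub_right, inner_smul_right, real_inner_self_eq_norm_sq, hθ]
  ring

lemma inner_perp_left {θ : E} (x y : E) : ⟪perp θ x, y⟫ = ⟪x, perp θ y⟫ := by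
  unfold perp
  rw [inner_sub_right, inner_sub_left, inner_smul_right, inner_smul_left, real_inner_comm θ x]
  simp only [conj_trivial]
  ring

lemma inner_Phi {θ : E} (hθ : ‖θ‖ = 1) (z : E × E) : ⟪θ, Phi θ z⟫ = ⟪θ, z.1⟫ := by
  unfold Phi
  rw [inner_add_right, inner_perp_self hθ, inner_smul_right, real_inner_self_eq_norm_sq, hθ]
  ring

lemma norm_sq_eq {θ : E} (hθ : ‖θ‖ = 1) (x : E) : ‖x‖ ^ 2 = ⟪θ, x⟫ ^ 2 + ‖perp θ x‖ ^ 2 := by
  have h1 : x = ⟪θ, x⟫ • θ + perp θ x := by unfold perp; abel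
  conv_lhs => rw [h1]
  rw [norm_add_sq_real, inner_smul_left, inner_perp_self hθ, norm_smul, hθ]
  simp

lemma perp_Phi {θ : E} (hθ : ‖θ‖ = 1) (z : E × E) : perp θ (Phi θ z) = perp θ z.2 := by
  have h := inner_Phi hθ z
  conv_lhs => unfold perp
  rw [h]
  unfold Phi
  abel

lemma norm_sq_Phi {θ : E} (hθ : ‖θ‖ = 1) (z : E × E) :
    ‖Phi θ z‖ ^ 2 = ⟪θ, z.1⟫ ^ 2 + ‖perp θ z.2‖ ^ 2 := by
  rw [norm_sq_eq hθ, inner_Phi hθ, perp_Phi hθ]

lemma norm_perp_le {θ : E} (hθ : ‖θ‖ = 1) (x : E) : ‖perp θ x‖ ≤ ‖x‖ := by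
  have h := norm_sq_eq hθ x
  have h1 : ‖perp θ x‖ ^ 2 ≤ ‖x‖ ^ 2 := by nlinarith [sq_nonneg ⟪θ, x⟫]
  exact (sq_le_sq₀ (norm_nonneg _) (norm_nonneg _)).1 h1

variable [FiniteDimensional ℝ E] [MeasurableSpace E] [BorelSpace E]

lemma measurable_Phi (θ : E) : Measurable (Phi θ) := (continuous_Phi θ).measurable

/-- The component along `θ` and the orthogonal component of a standard Gaussian vector are
independent. -/
lemma map_Phi {θ : E} (hθ : ‖θ‖ = 1) :
    ((stdGaussian E).prod (stdGaussian E)).map (Phi θ) = stdGaussian E := by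
  apply Measure.ext_of_charFun
  ext t
  rw [charFun_apply, integral_map (measurable_Phi θ).aemeasurable (by fun_prop)]
  have h1 : ∀ z : E × E, Complex.exp (⟪Phi θ z, t⟫ * Complex.I) =
      Complex.exp (⟪z.1, ⟪θ, t⟫ • θ⟫ * Complex.I) * Complex.exp (⟪z.2, perp θ t⟫ * Complex.I) := by
    intro z
    rw [← Complex.exp_add]
    congr 1
    rw [← add_mul, ← Complex.ofReal_add]
    congr 3
    unfold Phi
    rw [inner_add_left, inner_perp_left, inner_smul_left, inner_smul_right, real_inner_comm θ z.1]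
    simp [mul_comm]
  simp_rw [h1]
  rw [integral_prod_mul (fun x : E => Complex.exp (⟪x, ⟪θ, t⟫ • θ⟫ * Complex.I))
    (fun x : E => Complex.exp (⟪x, perp θ t⟫ * Complex.I)), ← charFun_apply, ← charFun_apply,
    charFun_stdGaussian, charFun_stdGaussian, charFun_stdGaussian, ← Complex.exp_add]
  congr 1
  rw [← Complex.ofReal_pow, ← Complex.ofReal_pow, ← Complex.ofReal_pow, norm_sq_eq hθ t, norm_smul,
    hθ]
  simp only [mul_one, Real.norm_eq_abs, sq_abs]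
  push_cast
  ring

lemma memLp_std (p : ℝ≥0∞) (hp : p ≠ ∞) : MemLp (fun x : E => x) p (stdGaussian E) :=
  IsGaussian.memLp_id _ p hp

lemma integrable_norm_pow (k : ℕ) : Integrable (fun x : E => ‖x‖ ^ k) (stdGaussian E) := by
  have h := (memLp_std (E := E) (k : ℝ≥0∞) (by simp)).integrable_norm_pow'
  simpa using h

lemma map_inner {u : E} (hu : ‖u‖ = 1) :
    (stdGaussian E).map (fun x => ⟪u, x⟫) = gaussianReal 0 1 := by
  have h := IsGaussian.map_eq_gaussianReal (μ := stdGaussian E) (innerSL ℝ u)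
  rw [variance_dual_stdGaussian, integral_strongDual_stdGaussian, innerSL_apply_norm, hu] at h
  simpa using h

lemma integrable_inner_pow (u : E) (k : ℕ) :
    Integrable (fun x : E => ⟪u, x⟫ ^ k) (stdGaussian E) := by
  refine ((integrable_norm_pow (E := E) k).const_mul (‖u‖ ^ k)).mono' (by fun_prop) ?_
  refine ae_of_all _ fun x => ?_
  rw [norm_pow, ← mul_pow]
  exact pow_le_pow_left₀ (norm_nonneg _) (norm_inner_le_norm u x) k

lemma integral_inner_sq {u : E} (hu : ‖u‖ = 1) : ∫ x, ⟪u, x⟫ ^ 2 ∂(stdGaussian E) = 1 := by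
  have h := variance_dual_stdGaussian (innerSL ℝ u)
  rw [innerSL_apply_norm, hu, variance_eq_integral (by fun_prop),
    integral_strongDual_stdGaussian] at h
  simpa using h

lemma integral_inner_sq_mul {u v : E} (hu : ‖u‖ = 1) (hv : ‖v‖ = 1) (huv : ⟪u, v⟫ = 0) :
    ∫ x, ⟪u, x⟫ ^ 2 * ⟪v, x⟫ ^ 2 ∂(stdGaussian E) = 1 := by
  rw [← map_Phi hu, integral_map (measurable_Phi u).aemeasurable (by fun_prop)]
  have h1 : ∀ z : E × E, ⟪u, Phi u z⟫ ^ 2 * ⟪v, Phi u z⟫ ^ 2 = ⟪u, z.1⟫ ^ 2 * ⟪v, z.2⟫ ^ 2 := by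
    intro z
    rw [inner_Phi hu]
    congr 2
    unfold Phi perp
    rw [inner_add_right, inner_smul_right, inner_sub_right, inner_smul_right,
      real_inner_comm u v, huv]
    ring
  simp_rw [h1]
  rw [integral_prod_mul (fun x : E => ⟪u, x⟫ ^ 2) (fun x : E => ⟪v, x⟫ ^ 2), integral_inner_sq hu,
    integral_inner_sq hv, mul_one]

lemma integral_inner_four {u v : E} (hu : ‖u‖ = 1) (hv : ‖v‖ = 1) (huv : ⟪u, v⟫ = 0) :
    ∫ x, ⟪u, x⟫ ^ 4 ∂(stdGaussian E) = 3 := by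
  have key : ∀ a : E, ‖a‖ = 1 → ∫ x, ⟪a, x⟫ ^ 4 ∂(stdGaussian E) = ∫ s, s ^ 4 ∂(gaussianReal 0 1) := by
    intro a ha
    rw [← map_inner (E := E) ha, integral_map (by fun_prop) (by fun_prop)]
  have hn1 : ‖u + v‖ ^ 2 = 2 := by
    rw [norm_add_sq_real, hu, hv, huv]; norm_num
  have hn2 : ‖u - v‖ ^ 2 = 2 := by
    rw [norm_sub_sq_real, hu, hv, huv]; norm_num
  have hs : (0 : ℝ) < Real.sqrt 2 := by positivity
  have hs2 : Real.sqrt 2 ^ 2 = 2 := Real.sq_sqrt (by norm_num)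
  have ha : ‖(Real.sqrt 2)⁻¹ • (u + v)‖ = 1 := by
    rw [norm_smul, norm_inv, Real.norm_of_nonneg hs.le]
    have : ‖u + v‖ = Real.sqrt 2 := by
      rw [← hn1, Real.sqrt_sq (norm_nonneg _)]
    rw [this]
    exact inv_mul_cancel₀ hs.ne'
  have hb : ‖(Real.sqrt 2)⁻¹ • (u - v)‖ = 1 := by
    rw [norm_smul, norm_inv, Real.norm_of_nonneg hs.le]
    have : ‖u - v‖ = Real.sqrt 2 := by
      rw [← hn2, Real.sqrt_sq (norm_nonneg _)]
    rw [this]
    exact inv_mul_cancel₀ hs.ne'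
  have e : ∀ x : E, ⟪(Real.sqrt 2)⁻¹ • (u + v), x⟫ ^ 4 + ⟪(Real.sqrt 2)⁻¹ • (u - v), x⟫ ^ 4 =
      (1 / 2) * ⟪u, x⟫ ^ 4 + 3 * (⟪u, x⟫ ^ 2 * ⟪v, x⟫ ^ 2) + (1 / 2) * ⟪v, x⟫ ^ 4 := by
    intro x
    rw [real_inner_smul_left, real_inner_smul_left, inner_add_left, inner_sub_left]
    have h4 : ((Real.sqrt 2)⁻¹) ^ 4 = 1 / 4 := by
      rw [inv_pow, show Real.sqrt 2 ^ 4 = (Real.sqrt 2 ^ 2) ^ 2 by ring, hs2]
      norm_num
    rw [mul_pow, mul_pow, h4]
    ring
  have h1 := integral_congr_ae (μ := stdGaussian E) (ae_of_all _ e)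
  have i1 := integrable_inner_pow (E := E) u 4
  have i2 := integrable_inner_pow (E := E) v 4
  have i3 : Integrable (fun x : E => ⟪u, x⟫ ^ 2 * ⟪v, x⟫ ^ 2) (stdGaussian E) := by
    refine (i1.add i2).mono' (by fun_prop) (ae_of_all _ fun x => ?_)
    rw [Real.norm_of_nonneg (by positivity)]
    simp only [Pi.add_apply]
    nlinarith [sq_nonneg (⟪u, x⟫ ^ 2 - ⟪v, x⟫ ^ 2), sq_nonneg (⟪u, x⟫ ^ 2 + ⟪v, x⟫ ^ 2)]
  have i12 : Integrable (fun x : E => (1 / 2) * ⟪u, x⟫ ^ 4 + 3 * (⟪u, x⟫ ^ 2 * ⟪v, x⟫ ^ 2))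
      (stdGaussian E) := (i1.const_mul _).add (i3.const_mul _)
  rw [integral_add (integrable_inner_pow _ 4) (integrable_inner_pow _ 4),
    integral_add i12 (i2.const_mul _),
    integral_add (i1.const_mul _) (i3.const_mul _), integral_const_mul, integral_const_mul,
    integral_const_mul, integral_inner_sq_mul hu hv huv, key _ ha, key _ hb, key _ hu, key _ hv] at h1
  rw [key u hu]
  linarith

variable {ι : Type*} [Fintype ι] [DecidableEq ι]

omit [FiniteDimensional ℝ E] [MeasurableSpace E] [BorelSpace E] in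
lemma norm_perp_sq (b : OrthonormalBasis ι ℝ E) (i : ι) (w : E) :
    ‖perp (b i) w‖ ^ 2 = ∑ j ∈ Finset.univ.erase i, ⟪b j, w⟫ ^ 2 := by
  have h1 := norm_sq_eq (b.orthonormal.1 i) w
  have h2 := b.sum_sq_inner_right w
  rw [← Finset.add_sum_erase _ _ (Finset.mem_univ i)] at h2
  linarith

lemma integral_perp_sq (b : OrthonormalBasis ι ℝ E) (i : ι) :
    ∫ w, ‖perp (b i) w‖ ^ 2 ∂(stdGaussian E) = (Fintype.card ι : ℝ) - 1 := by
  simp_rw [norm_perp_sq b i]
  rw [integral_finsetSum _ fun j _ => integrable_inner_pow _ 2]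
  simp_rw [fun j => integral_inner_sq (E := E) (b.orthonormal.1 j)]
  rw [Finset.sum_const, Finset.card_erase_of_mem (Finset.mem_univ i), Finset.card_univ]
  simp only [nsmul_eq_mul, mul_one]
  rw [Nat.cast_sub (Fintype.card_pos_iff.2 ⟨i⟩), Nat.cast_one]

lemma integral_perp_four (b : OrthonormalBasis ι ℝ E) (i : ι) (hc : 2 ≤ Fintype.card ι) :
    ∫ w, ‖perp (b i) w‖ ^ 4 ∂(stdGaussian E) =
      ((Fintype.card ι : ℝ) - 1) * ((Fintype.card ι : ℝ) + 1) := by
  have hm : ∀ j k, ∫ w, ⟪b j, w⟫ ^ 2 * ⟪b k, w⟫ ^ 2 ∂(stdGaussian E) = 1 + if j = k then 2 else 0 := by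
    intro j k
    by_cases hjk : j = k
    · subst hjk
      obtain ⟨l, hl⟩ : ∃ l, l ≠ j := by
        have : Nontrivial ι := Fintype.one_lt_card_iff_nontrivial.1 hc
        exact exists_ne j
      have h1 := integral_inner_four (E := E) (b.orthonormal.1 j) (b.orthonormal.1 l)
        (b.orthonormal.2 (Ne.symm hl))
      have h2 : ∀ w : E, ⟪b j, w⟫ ^ 2 * ⟪b j, w⟫ ^ 2 = ⟪b j, w⟫ ^ 4 := fun w => by ring
      simp_rw [h2, h1]
      norm_num
    · rw [integral_inner_sq_mul (b.orthonormal.1 j) (b.orthonormal.1 k) (b.orthonormal.2 hjk),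
        if_neg hjk, add_zero]
  have hint : ∀ j k, Integrable (fun w : E => ⟪b j, w⟫ ^ 2 * ⟪b k, w⟫ ^ 2) (stdGaussian E) := by
    intro j k
    refine ((integrable_inner_pow (b j) 4).add (integrable_inner_pow (b k) 4)).mono' (by fun_prop)
      (ae_of_all _ fun x => ?_)
    rw [Real.norm_of_nonneg (by positivity)]
    simp only [Pi.add_apply]
    nlinarith [sq_nonneg (⟪b j, x⟫ ^ 2 - ⟪b k, x⟫ ^ 2), sq_nonneg (⟪b j, x⟫ ^ 2 + ⟪b k, x⟫ ^ 2)]
  have h1 : ∀ w : E, ‖perp (b i) w‖ ^ 4 = ∑ j ∈ Finset.univ.erase i, ∑ k ∈ Finset.univ.erase i,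
      ⟪b j, w⟫ ^ 2 * ⟪b k, w⟫ ^ 2 := by
    intro w
    rw [show ‖perp (b i) w‖ ^ 4 = ‖perp (b i) w‖ ^ 2 * ‖perp (b i) w‖ ^ 2 by ring, norm_perp_sq b i,
      Finset.sum_mul_sum]
  simp_rw [h1]
  rw [integral_finsetSum _ fun j _ => integrable_finsetSum _ fun k _ => hint j k]
  simp_rw [fun j => integral_finsetSum (μ := stdGaussian E) (Finset.univ.erase i)
    (fun k _ => hint j k), hm]
  have h2 : ∀ j ∈ Finset.univ.erase i, ∑ k ∈ Finset.univ.erase i, ((1 : ℝ) + if j = k then 2 else 0) =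
      (Fintype.card ι : ℝ) + 1 := by
    intro j hj
    rw [Finset.sum_add_distrib, Finset.sum_ite_eq, if_pos hj, Finset.sum_const,
      Finset.card_erase_of_mem (Finset.mem_univ i), Finset.card_univ]
    simp only [nsmul_eq_mul, mul_one]
    rw [Nat.cast_sub (Fintype.card_pos_iff.2 ⟨i⟩), Nat.cast_one]
    ring
  rw [Finset.sum_congr rfl h2, Finset.sum_const, Finset.card_erase_of_mem (Finset.mem_univ i),
    Finset.card_univ]
  simp only [nsmul_eq_mul]
  rw [Nat.cast_sub (Fintype.card_pos_iff.2 ⟨i⟩), Nat.cast_one]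

end Pool.Agent.K1H99.BC
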