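import Pool.Agent.K1H99.BC.Bary

/-!
# Products with a Gaussian factor
-/

set_option autoImplicit false

namespace Pool.Agent.K1H99.BC

open MeasureTheory Filter Topology Set ProbabilityTheory Module
open scoped ENNReal NNReal RealInnerProductSpace

variable {E E' : Type*} [NormedAddCommGroup E] [InnerProductSpace ℝ E] [NormedAddCommGroup E']
  [InnerProductSpace ℝ E']

/-- `E'` is the orthogonal sum of the line of the unit vector `e` and a copy of `E`. -/
structure IsSpl (e : E') (J : E →L[ℝ] E') (R : E' →L[ℝ] E) : Prop where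
  norm_e : ‖e‖ = 1
  inner_J : ∀ x, ⟪e, J x⟫ = 0
  norm_J : ∀ x, ‖J x‖ = ‖x‖
  R_J : ∀ x, R (J x) = x
  R_e : R e = 0
  decomp : ∀ y, ⟪e, y⟫ • e + J (R y) = y

/-- the isomorphism -/
def T (e : E') (J : E →L[ℝ] E') (z : ℝ × E) : E' := z.1 • e + J z.2

variable {e : E'} {J : E →L[ℝ] E'} {R : E' →L[ℝ] E}

lemma IsSpl.inner_T (h : IsSpl e J R) (z : ℝ × E) : ⟪e, T e J z⟫ = z.1 := by
  unfold T
  rw [inner_add_right, h.inner_J, inner_smul_right, real_inner_self_eq_norm_sq, h.norm_e]
  ring

lemma IsSpl.R_T (h : IsSpl e J R) (z : ℝ × E) : R (T e J z) = z.2 := by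
  unfold T
  rw [map_add, map_smul, h.R_e, h.R_J]
  simp

lemma IsSpl.norm_sq (h : IsSpl e J R) (y : E') : ‖y‖ ^ 2 = ⟪e, y⟫ ^ 2 + ‖R y‖ ^ 2 := by
  have h1 := h.decomp y
  conv_lhs => rw [← h1]
  rw [norm_add_sq_real, inner_smul_left, h.inner_J, norm_smul, h.norm_e, h.norm_J]
  simp

lemma IsSpl.norm_R (h : IsSpl e J R) (y : E') : ‖R y‖ ≤ ‖y‖ := by
  have h1 := h.norm_sq y
  have h2 : ‖R y‖ ^ 2 ≤ ‖y‖ ^ 2 := by nlinarith [sq_nonneg ⟪e, y⟫]
  exact (sq_le_sq₀ (norm_nonneg _) (norm_nonneg _)).1 h2

lemma continuous_T (e : E') (J : E →L[ℝ] E') : Continuous (T e J) := by unfold T; fun_prop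

lemma T_sub (e : E') (J : E →L[ℝ] E') (t : ℝ) (x y : E) : T e J (t, x) - T e J (t, y) = J (x - y) := by
  unfold T
  rw [map_sub]
  abel

variable [FiniteDimensional ℝ E] [MeasurableSpace E] [BorelSpace E]
  [FiniteDimensional ℝ E'] [MeasurableSpace E'] [BorelSpace E']

omit [FiniteDimensional ℝ E'] in
lemma measurable_T (e : E') (J : E →L[ℝ] E') : Measurable (T e J) := (continuous_T e J).measurable

/-- the product of a Gaussian measure on the line of `e` and of `μ` -/
noncomputable def lift (κ : ℝ) (e : E') (J : E →L[ℝ] E') (μ : Measure E) : Measure E' :=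
  ((gaussianReal 0 (κ⁻¹).toNNReal).prod μ).map (T e J)

omit [FiniteDimensional ℝ E'] in
lemma lift_prob (κ : ℝ) (μ : Measure E) [IsProbabilityMeasure μ] :
    IsProbabilityMeasure (lift κ e J μ) :=
  Measure.isProbabilityMeasure_map (measurable_T e J).aemeasurable

omit [FiniteDimensional ℝ E'] in
lemma lift_map_R (h : IsSpl e J R) (κ : ℝ) (μ : Measure E) [SFinite μ] :
    (lift κ e J μ).map R = μ := by
  unfold lift
  rw [Measure.map_map R.continuous.measurable (measurable_T e J)]
  have h1 : (R : E' → E) ∘ T e J = Prod.snd := by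
    funext z
    exact h.R_T z
  rw [h1]
  exact Measure.snd_prod

/-- the coupling of the products -/
noncomputable def liftC (κ : ℝ) (e : E') (J : E →L[ℝ] E') (π : Measure (E × E)) : Measure (E' × E') :=
  ((gaussianReal 0 (κ⁻¹).toNNReal).prod π).map fun w => (T e J (w.1, w.2.1), T e J (w.1, w.2.2))

lemma liftC_meas (e : E') (J : E →L[ℝ] E') : Measurable fun w : ℝ × (E × E) =>
    (T e J (w.1, w.2.1), T e J (w.1, w.2.2)) := by
  have := continuous_T e J
  exact Continuous.measurable (by fun_prop)

lemma liftC_cpl (κ : ℝ) {ν μ : Measure E} {π : Measure (E × E)} [SFinite π] (h : IsCpl π ν μ) :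
    IsCpl (liftC κ e J π) (lift κ e J ν) (lift κ e J μ) := by
  constructor
  · unfold liftC lift
    rw [Measure.map_map measurable_fst (liftC_meas e J), ← h.1]
    have h1 : (gaussianReal 0 (κ⁻¹).toNNReal).prod (π.map Prod.fst) =
        ((gaussianReal 0 (κ⁻¹).toNNReal).prod π).map (Prod.map id Prod.fst) := by
      rw [← Measure.map_prod_map _ _ measurable_id measurable_fst, Measure.map_id]
    rw [h1, Measure.map_map (measurable_T e J) (measurable_id.prodMap measurable_fst)]
    rfl
  · unfold liftC lift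
    rw [Measure.map_map measurable_snd (liftC_meas e J), ← h.2]
    have h1 : (gaussianReal 0 (κ⁻¹).toNNReal).prod (π.map Prod.snd) =
        ((gaussianReal 0 (κ⁻¹).toNNReal).prod π).map (Prod.map id Prod.snd) := by
      rw [← Measure.map_prod_map _ _ measurable_id measurable_snd, Measure.map_id]
    rw [h1, Measure.map_map (measurable_T e J) (measurable_id.prodMap measurable_snd)]
    rfl

lemma liftC_cost (h : IsSpl e J R) (κ : ℝ) (π : Measure (E × E)) [SFinite π] :
    cost (liftC κ e J π) = cost π := by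
  unfold cost liftC
  rw [lintegral_map (by fun_prop) (liftC_meas e J)]
  have h1 : ∀ w : ℝ × (E × E), ‖(T e J (w.1, w.2.1), T e J (w.1, w.2.2)).1 -
      (T e J (w.1, w.2.1), T e J (w.1, w.2.2)).2‖ₑ ^ 2 = ‖w.2.1 - w.2.2‖ₑ ^ 2 := by
    intro w
    simp only
    rw [T_sub, ← ofReal_norm, h.norm_J, ofReal_norm]
  simp_rw [h1]
  rw [lintegral_prod _ (by fun_prop)]
  simp

/-- Solutions of the barycenter problem lift to solutions. -/
lemma lift_sol (h : IsSpl e J R) (κ : ℝ) {I : Type} [Fintype I] {w : I → ℝ}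
    {μ : I → Measure E} [∀ i, IsProbabilityMeasure (μ i)] {ν : Measure E} [IsProbabilityMeasure ν]
    (hs : IsSol w μ ν) : IsSol w (fun i => lift κ e J (μ i)) (lift κ e J ν) := by
  obtain ⟨π, hπ, hmin⟩ := hs
  have hpr : ∀ i, IsProbabilityMeasure (π i) := fun i => isCpl_prob (hπ i)
  refine ⟨fun i => liftC κ e J (π i), fun i => liftC_cpl κ (hπ i), fun ν' π' hν' hπ' => ?_⟩
  simp_rw [fun i => liftC_cost (e := e) (J := J) (R := R) h κ (π i)]
  have hRR : Measurable (Prod.map (R : E' → E) (R : E' → E)) :=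
    R.continuous.measurable.prodMap R.continuous.measurable
  have h1 := hmin (ν'.map R) (fun i => (π' i).map (Prod.map R R))
    (Measure.isProbabilityMeasure_map R.continuous.measurable.aemeasurable) (fun i => by
      constructor
      · rw [Measure.map_map measurable_fst hRR, ← (hπ' i).1,
          Measure.map_map R.continuous.measurable measurable_fst]
        rfl
      · have h2 : (π' i).map Prod.snd = lift κ e J (μ i) := (hπ' i).2
        rw [Measure.map_map measurable_snd hRR, ← lift_map_R h κ (μ i), ← h2,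
          Measure.map_map R.continuous.measurable measurable_snd]
        rfl)
  refine h1.trans (Finset.sum_le_sum fun i _ => mul_le_mul_right ?_ _)
  unfold cost
  rw [lintegral_map (by fun_prop) hRR]
  refine lintegral_mono fun z => ?_
  simp only [Prod.map_fst, Prod.map_snd]
  rw [← map_sub, ← ofReal_norm, ← ofReal_norm]
  apply pow_le_pow_left'
  exact ENNReal.ofReal_le_ofReal (h.norm_R _)

/-! ### Strong log-concavity of the products -/

lemma map_T_volume (h : IsSpl e J R) : ∃ c : ℝ≥0∞, ((volume : Measure ℝ).prod (volume : Measure E)).map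
    (T e J) = c • (volume : Measure E') := by
  let L : (ℝ × E) ≃L[ℝ] E' :=
    { toFun := T e J
      invFun := fun y => (⟪e, y⟫, R y)
      map_add' := by
        intro x y
        unfold T
        simp only [Prod.fst_add, Prod.snd_add, map_add]
        module
      map_smul' := by
        intro r x
        unfold T
        simp only [Prod.smul_fst, Prod.smul_snd, map_smul, smul_eq_mul, RingHom.id_apply]
        module
      left_inv := by
        intro z
        exact Prod.ext (h.inner_T z) (h.R_T z)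
      right_inv := by
        intro y
        exact h.decomp y
      continuous_toFun := continuous_T e J
      continuous_invFun := by fun_prop }
  have h1 : Measure.IsAddHaarMeasure (((volume : Measure ℝ).prod (volume : Measure E)).map L) :=
    L.isAddHaarMeasure_map _
  have h2 := Measure.isAddLeftInvariant_eq_smul
    (((volume : Measure ℝ).prod (volume : Measure E)).map L) (volume : Measure E')
  exact ⟨((Measure.addHaarScalarFactor (((volume : Measure ℝ).prod (volume : Measure E)).map L)
    (volume : Measure E') : ℝ≥0) : ℝ≥0∞), h2⟩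

/-- Strong log-concavity of the product with a Gaussian factor. -/
lemma strongLC_lift (h : IsSpl e J R) {κ : ℝ} (hκ : 0 < κ) {μ : Measure E} [IsProbabilityMeasure μ]
    {v : E → ℝ} (hv : Continuous v) (hconv : ConvexOn ℝ univ fun x => v x - κ * ‖x‖ ^ 2 / 2)
    {C : ℝ≥0∞} (hμ : μ = C • volume.withDensity fun x => ENNReal.ofReal (Real.exp (-v x))) :
    StrongLC κ (lift κ e J μ) := by
  have hpr := lift_prob (e := e) (J := J) κ μ
  obtain ⟨c, hc⟩ := map_T_volume h
  have hvar : (κ⁻¹).toNNReal ≠ 0 := by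
    rw [Ne, Real.toNNReal_eq_zero, not_le]
    positivity
  have hvar' : (((κ⁻¹).toNNReal : ℝ≥0) : ℝ) = κ⁻¹ := Real.coe_toNNReal _ (by positivity)
  set c₁ : ℝ := (√(2 * Real.pi * κ⁻¹))⁻¹ with hc₁
  have hc₁0 : 0 ≤ c₁ := by positivity
  refine strongLC_of_real (v := fun y => κ * ⟪e, y⟫ ^ 2 / 2 + v (R y)) (by fun_prop) ?_
    (C := ENNReal.ofReal c₁ * (C * c)) ?_
  · have e1 : (fun y : E' => (κ * ⟪e, y⟫ ^ 2 / 2 + v (R y)) - κ * ‖y‖ ^ 2 / 2) =
        (fun x : E => v x - κ * ‖x‖ ^ 2 / 2) ∘ (R : E' →ₗ[ℝ] E) := by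
      funext y
      simp only [Function.comp_apply, ContinuousLinearMap.coe_coe]
      rw [h.norm_sq y]
      ring
    rw [e1]
    have := hconv.comp_linearMap (R : E' →ₗ[ℝ] E)
    rwa [preimage_univ] at this
  · apply Measure.ext_of_lintegral
    intro f hf
    have hvm : Measurable v := hv.measurable
    have hT := measurable_T e J
    have hfT : Measurable fun z : ℝ × E => f (T e J z) := hf.comp hT
    unfold lift
    rw [lintegral_map hf hT, lintegral_prod _ hfT.aemeasurable]
    have m1 : Measurable fun t : ℝ => ∫⁻ x, f (T e J (t, x)) ∂μ :=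
      (hf.comp hT).lintegral_prod_right'
    rw [gaussianReal_of_var_ne_zero _ hvar,
      lintegral_withDensity_eq_lintegral_mul _ (measurable_gaussianPDF _ _) m1]
    have e2 : ∀ t : ℝ, (gaussianPDF 0 (κ⁻¹).toNNReal * fun t : ℝ => ∫⁻ x, f (T e J (t, x)) ∂μ) t =
        ∫⁻ x, ENNReal.ofReal c₁ * (C * (ENNReal.ofReal (Real.exp (-(κ * ⟪e, T e J (t, x)⟫ ^ 2 / 2 +
          v (R (T e J (t, x)))))) * f (T e J (t, x)))) ∂(volume : Measure E) := by
      intro t
      have m2 : Measurable fun x : E => f (T e J (t, x)) := (hf.comp hT).comp measurable_prodMk_left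
      have m3 : Measurable fun x : E => ENNReal.ofReal (Real.exp (-v x)) := by fun_prop
      simp only [Pi.mul_apply]
      rw [hμ, lintegral_smul_measure, lintegral_withDensity_eq_lintegral_mul _ m3 m2, smul_eq_mul]
      simp only [Pi.mul_apply]
      have e3 : ∀ x : E, ENNReal.ofReal c₁ * (C * (ENNReal.ofReal (Real.exp (-(κ * ⟪e, T e J (t, x)⟫ ^ 2
          / 2 + v (R (T e J (t, x)))))) * f (T e J (t, x)))) =
          (ENNReal.ofReal (c₁ * Real.exp (-(κ * t ^ 2 / 2))) * C) *
            (ENNReal.ofReal (Real.exp (-v x)) * f (T e J (t, x))) := by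
        intro x
        rw [h.inner_T, h.R_T, neg_add, Real.exp_add, ENNReal.ofReal_mul (Real.exp_pos _).le,
          ENNReal.ofReal_mul hc₁0]
        simp only
        ring
      simp_rw [e3]
      have m23 : Measurable fun x : E => ENNReal.ofReal (Real.exp (-v x)) * f (T e J (t, x)) :=
        m3.mul m2
      have e4 : gaussianPDF 0 (κ⁻¹).toNNReal t = ENNReal.ofReal (c₁ * Real.exp (-(κ * t ^ 2 / 2))) := by
        rw [gaussianPDF_def]
        simp only
        rw [gaussianPDFReal_def]
        simp only [hvar', sub_zero]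
        congr 3
        field_simp
      rw [lintegral_const_mul _ m23, mul_assoc, e4]
    simp_rw [e2]
    have m4 : Measurable fun y : E' => ENNReal.ofReal (Real.exp (-(κ * ⟪e, y⟫ ^ 2 / 2 + v (R y)))) *
        f y := by
      have : Measurable fun y : E' => ENNReal.ofReal (Real.exp (-(κ * ⟪e, y⟫ ^ 2 / 2 + v (R y)))) := by
        fun_prop
      exact this.mul hf
    have m5 : Measurable fun y : E' => ENNReal.ofReal c₁ * (C *
        (ENNReal.ofReal (Real.exp (-(κ * ⟪e, y⟫ ^ 2 / 2 + v (R y)))) * f y)) :=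
      (m4.const_mul C).const_mul _
    rw [← lintegral_prod (μ := (volume : Measure ℝ)) (ν := (volume : Measure E))
      (fun z : ℝ × E => ENNReal.ofReal c₁ * (C * (ENNReal.ofReal (Real.exp (-(κ * ⟪e, T e J z⟫ ^ 2 / 2 +
          v (R (T e J z))))) * f (T e J z)))) (m5.comp hT).aemeasurable,
      ← lintegral_map (f := fun y : E' => ENNReal.ofReal c₁ * (C *
        (ENNReal.ofReal (Real.exp (-(κ * ⟪e, y⟫ ^ 2 / 2 + v (R y)))) * f y))) m5 hT, hc,
      lintegral_smul_measure, lintegral_const_mul _ (m4.const_mul C), lintegral_const_mul _ m4,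
      lintegral_smul_measure]
    have m6 : Measurable fun y : E' => ENNReal.ofReal (Real.exp (-(κ * ⟪e, y⟫ ^ 2 / 2 + v (R y)))) := by
      fun_prop
    rw [lintegral_withDensity_eq_lintegral_mul _ m6 hf]
    simp only [smul_eq_mul, Pi.mul_apply]
    ring

end Pool.Agent.K1H99.BC
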