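import Pool.Agent.K1H99.BC.Lift

/-!
# The Poincaré constant of a product with a Gaussian factor
-/

set_option autoImplicit false

namespace Pool.Agent.K1H99.BC

open MeasureTheory Filter Topology Set ProbabilityTheory Module
open scoped ENNReal NNReal RealInnerProductSpace ContDiff

variable {E E' : Type*} [NormedAddCommGroup E] [InnerProductSpace ℝ E] [NormedAddCommGroup E']
  [InnerProductSpace ℝ E'] {e : E'} {J : E →L[ℝ] E'} {R : E' →L[ℝ] E}

/-- the cutoff along the line of `e` -/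
noncomputable def chi (k : ℕ) (t : ℝ) : ℝ := tf 0 (t / ((k : ℝ) + 1))

lemma chi_smooth (k : ℕ) : ContDiff ℝ ∞ (chi k) := by
  unfold chi
  exact (tf_smooth 0).comp (contDiff_id.div_const _)

lemma chi_nonneg (k : ℕ) (t : ℝ) : 0 ≤ chi k t := tf_nonneg _ _

lemma chi_le (k : ℕ) (t : ℝ) : chi k t ≤ 1 := tf_le _ _

lemma chi_zero (k : ℕ) {t : ℝ} (ht : 2 * ((k : ℝ) + 1) < |t|) : chi k t = 0 := by
  unfold chi
  apply tf_zero
  rw [Real.norm_eq_abs, abs_div, abs_of_pos (by positivity : (0 : ℝ) < (k : ℝ) + 1),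
    lt_div_iff₀ (by positivity)]
  exact ht

lemma chi_one (k : ℕ) {t : ℝ} (ht : |t| < (k : ℝ) + 1) : chi k t = 1 := by
  unfold chi
  apply tf_one
  rw [Real.norm_eq_abs, abs_div, abs_of_pos (by positivity : (0 : ℝ) < (k : ℝ) + 1),
    div_lt_one (by positivity)]
  exact ht

lemma chi_deriv : ∃ S : ℝ, 0 ≤ S ∧ ∀ (k : ℕ) (t : ℝ), |deriv (chi k) t| ≤ S / ((k : ℝ) + 1) := by
  have hcont : Continuous (fderiv ℝ (tf 0 : ℝ → ℝ)) := (tf_smooth 0).continuous_fderiv (by simp)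
  obtain ⟨S, hS⟩ := hcont.bounded_above_of_compact_support ((tf_compact (E := ℝ) 0).fderiv ℝ)
  have hS0 : 0 ≤ S := (norm_nonneg _).trans (hS 0)
  refine ⟨S, hS0, fun k t => ?_⟩
  have hd : DifferentiableAt ℝ (tf 0 : ℝ → ℝ) (t / ((k : ℝ) + 1)) :=
    ((tf_smooth (E := ℝ) 0).differentiable (by simp)) _
  have h1 : HasDerivAt (fun t : ℝ => t / ((k : ℝ) + 1)) (1 / ((k : ℝ) + 1)) t :=
    (hasDerivAt_id t).div_const _
  have h2 : HasDerivAt (chi k) (deriv (tf 0) (t / ((k : ℝ) + 1)) * (1 / ((k : ℝ) + 1))) t :=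
    HasDerivAt.comp t hd.hasDerivAt h1
  rw [h2.deriv, abs_mul, abs_of_pos (by positivity : (0 : ℝ) < 1 / ((k : ℝ) + 1)), mul_one_div]
  have h3 : |deriv (tf 0) (t / ((k : ℝ) + 1))| ≤ S := by
    have h4 := hS (t / ((k : ℝ) + 1))
    rwa [norm_deriv_eq_norm_fderiv.symm, Real.norm_eq_abs] at h4
  gcongr

/-- the lifted test function -/
noncomputable def lf (k : ℕ) (e : E') (R : E' →L[ℝ] E) (f : E → ℝ) (y : E') : ℝ :=
  chi k ⟪e, y⟫ * f (R y)

lemma lf_smooth (k : ℕ) {f : E → ℝ} (hf : ContDiff ℝ ∞ f) : ContDiff ℝ ∞ (lf k e R f) := by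
  unfold lf
  exact ((chi_smooth k).comp (contDiff_const.inner ℝ contDiff_id)).mul (hf.comp R.contDiff)

lemma lf_fderiv (h : IsSpl e J R) (k : ℕ) {f : E → ℝ} (hf : ContDiff ℝ ∞ f) (y : E') :
    ‖fderiv ℝ (lf k e R f) y‖ ^ 2 ≤
      (deriv (chi k) ⟪e, y⟫) ^ 2 * (f (R y)) ^ 2 + ‖fderiv ℝ f (R y)‖ ^ 2 := by
  have h1 : HasFDerivAt (fun y : E' => ⟪e, y⟫) (innerSL ℝ e) y := (innerSL ℝ e).hasFDerivAt
  have h2 : HasDerivAt (chi k) (deriv (chi k) ⟪e, y⟫) ⟪e, y⟫ :=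
    (((chi_smooth k).differentiable (by simp)) _).hasDerivAt
  have h3 : HasFDerivAt (fun y : E' => chi k ⟪e, y⟫) (deriv (chi k) ⟪e, y⟫ • innerSL ℝ e) y :=
    h2.comp_hasFDerivAt y h1
  have h4 : HasFDerivAt (fun y : E' => f (R y)) ((fderiv ℝ f (R y)).comp R) y :=
    ((hf.differentiable (by simp) _).hasFDerivAt).comp y R.hasFDerivAt
  have h5 : fderiv ℝ (lf k e R f) y = chi k ⟪e, y⟫ • ((fderiv ℝ f (R y)).comp R) +
      f (R y) • (deriv (chi k) ⟪e, y⟫ • innerSL ℝ e) := (h3.mul h4).fderiv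
  set α := deriv (chi k) ⟪e, y⟫ with hα
  set ℓ := fderiv ℝ f (R y)
  have hA : 0 ≤ α ^ 2 * (f (R y)) ^ 2 + ‖ℓ‖ ^ 2 := by positivity
  have h6 : ‖fderiv ℝ (lf k e R f) y‖ ≤ √(α ^ 2 * (f (R y)) ^ 2 + ‖ℓ‖ ^ 2) := by
    rw [h5]
    refine ContinuousLinearMap.opNorm_le_bound _ (Real.sqrt_nonneg _) fun z => ?_
    have h7 : (chi k ⟪e, y⟫ • (ℓ.comp R) + f (R y) • (α • innerSL ℝ e)) z =
        chi k ⟪e, y⟫ * ℓ (R z) + f (R y) * (α * ⟪e, z⟫) := by
      simp
    rw [h7, Real.norm_eq_abs]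
    have hp : |ℓ (R z)| ≤ ‖ℓ‖ * ‖R z‖ := ℓ.le_opNorm _
    have hX : |chi k ⟪e, y⟫ * ℓ (R z) + f (R y) * (α * ⟪e, z⟫)| ≤
        ‖ℓ‖ * ‖R z‖ + |α * f (R y)| * |⟪e, z⟫| := by
      refine (abs_add_le _ _).trans (add_le_add ?_ (le_of_eq ?_))
      · rw [abs_mul, abs_of_nonneg (chi_nonneg k _)]
        calc chi k ⟪e, y⟫ * |ℓ (R z)| ≤ 1 * |ℓ (R z)| :=
              mul_le_mul_of_nonneg_right (chi_le k _) (abs_nonneg _)
          _ ≤ ‖ℓ‖ * ‖R z‖ := by rw [one_mul]; exact hp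
      · rw [← abs_mul]
        congr 1
        ring
    refine hX.trans ?_
    have hz := h.norm_sq z
    have h8 : (‖ℓ‖ * ‖R z‖ + |α * f (R y)| * |⟪e, z⟫|) ^ 2 ≤
        (√(α ^ 2 * (f (R y)) ^ 2 + ‖ℓ‖ ^ 2) * ‖z‖) ^ 2 := by
      rw [mul_pow, Real.sq_sqrt hA, hz]
      have h9 : |α * f (R y)| ^ 2 = α ^ 2 * (f (R y)) ^ 2 := by rw [sq_abs]; ring
      have h10 : |⟪e, z⟫| ^ 2 = ⟪e, z⟫ ^ 2 := sq_abs _
      nlinarith [sq_nonneg (‖ℓ‖ * |⟪e, z⟫| - |α * f (R y)| * ‖R z‖)]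
    exact (sq_le_sq₀ (by positivity) (by positivity)).1 h8
  calc ‖fderiv ℝ (lf k e R f) y‖ ^ 2 ≤ √(α ^ 2 * (f (R y)) ^ 2 + ‖ℓ‖ ^ 2) ^ 2 :=
        pow_le_pow_left₀ (norm_nonneg _) h6 2
    _ = _ := Real.sq_sqrt hA

variable [FiniteDimensional ℝ E] [MeasurableSpace E] [BorelSpace E]
  [FiniteDimensional ℝ E'] [MeasurableSpace E'] [BorelSpace E']

omit [FiniteDimensional ℝ E] [MeasurableSpace E] [BorelSpace E] [MeasurableSpace E']
  [BorelSpace E'] in
lemma lf_compact (h : IsSpl e J R) (k : ℕ) {f : E → ℝ} (hc : HasCompactSupport f) :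
    HasCompactSupport (lf k e R f) := by
  obtain ⟨B, hB⟩ := hc.isCompact.isBounded.exists_norm_le
  refine HasCompactSupport.intro (isCompact_closedBall (0 : E') (2 * ((k : ℝ) + 1) + |B|))
    fun y hy => ?_
  rw [mem_closedBall_zero_iff, not_le] at hy
  unfold lf
  by_cases h1 : 2 * ((k : ℝ) + 1) < |⟪e, y⟫|
  · rw [chi_zero k h1, zero_mul]
  · rw [not_lt] at h1
    have h2 : f (R y) = 0 := by
      by_contra h3
      have h4 := hB (R y) (subset_tsupport f h3)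
      have h5 := h.decomp y
      have h6 : ‖y‖ ≤ |⟪e, y⟫| + ‖R y‖ := by
        conv_lhs => rw [← h5]
        refine (norm_add_le _ _).trans ?_
        rw [norm_smul, h.norm_e, mul_one, h.norm_J, Real.norm_eq_abs]
      linarith [le_abs_self B]
    rw [h2, mul_zero]

lemma chi_lim (v : ℝ≥0) (j : ℕ) :
    Tendsto (fun k : ℕ => ∫ t, chi k t ^ j ∂(gaussianReal 0 v)) atTop (𝓝 1) := by
  have h1 : Tendsto (fun k : ℕ => ∫ t, chi k t ^ j ∂(gaussianReal 0 v)) atTop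
      (𝓝 (∫ _t, (1 : ℝ) ∂(gaussianReal 0 v))) := by
    refine tendsto_integral_of_dominated_convergence (fun _ => (1 : ℝ))
      (fun k => ((chi_smooth k).continuous.pow j).aestronglyMeasurable) (integrable_const _)
      (fun k => ae_of_all _ fun t => ?_) (ae_of_all _ fun t => ?_)
    · rw [Real.norm_of_nonneg (pow_nonneg (chi_nonneg k t) j)]
      exact pow_le_one₀ (chi_nonneg k t) (chi_le k t)
    · refine tendsto_const_nhds.congr' ?_
      obtain ⟨K, hK⟩ := exists_nat_gt |t|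
      filter_upwards [eventually_ge_atTop K] with k hk
      have h2 : |t| < (k : ℝ) + 1 := by
        have : (K : ℝ) ≤ k := by exact_mod_cast hk
        linarith
      rw [chi_one k h2, one_pow]
  simpa using h1

omit [NormedAddCommGroup E] [InnerProductSpace ℝ E] [FiniteDimensional ℝ E] [BorelSpace E] in
lemma var_eq (μ : Measure E) [IsProbabilityMeasure μ] (u : E → ℝ) (i1 : Integrable u μ)
    (i2 : Integrable (fun x => u x ^ 2) μ) :
    ∫ x, (u x - ∫ y, u y ∂μ) ^ 2 ∂μ = ∫ x, u x ^ 2 ∂μ - (∫ x, u x ∂μ) ^ 2 := by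
  set a := ∫ y, u y ∂μ
  have e1 : ∀ x, (u x - a) ^ 2 = (u x ^ 2 - (2 * a) * u x) + a ^ 2 := fun x => by ring
  simp_rw [e1]
  have i3 : Integrable (fun x => u x ^ 2 - (2 * a) * u x) μ := i2.sub (i1.const_mul _)
  rw [integral_add i3 (integrable_const _), integral_sub i2 (i1.const_mul _),
    integral_const_mul, integral_const]
  simp only [probReal_univ, smul_eq_mul, one_mul]
  change _ - 2 * a * a + a ^ 2 = _ - a ^ 2
  ring

/-- Poincaré inequalities pass from the product to the factor. -/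
lemma poinc_factor (h : IsSpl e J R) {κ : ℝ} {ν : Measure E} [IsProbabilityMeasure ν] {D : ℝ}
    (hD : 0 ≤ D)
    (hP : ∀ F : E' → ℝ, ContDiff ℝ ∞ F → HasCompactSupport F →
      ∫ y, (F y - ∫ z, F z ∂(lift κ e J ν)) ^ 2 ∂(lift κ e J ν) ≤
        D * ∫ y, ‖fderiv ℝ F y‖ ^ 2 ∂(lift κ e J ν))
    {f : E → ℝ} (hf : ContDiff ℝ ∞ f) (hc : HasCompactSupport f) :
    ∫ x, (f x - ∫ y, f y ∂ν) ^ 2 ∂ν ≤ D * ∫ x, ‖fderiv ℝ f x‖ ^ 2 ∂ν := by
  have hpr := lift_prob (e := e) (J := J) κ ν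
  have hT := measurable_T (E := E) e J
  obtain ⟨S, hS0, hS⟩ := chi_deriv
  obtain ⟨B, hB⟩ := hf.continuous.bounded_above_of_compact_support hc
  have hcf : Continuous (fderiv ℝ f) := hf.continuous_fderiv (by simp)
  obtain ⟨B', hB'⟩ := hcf.bounded_above_of_compact_support (hc.fderiv ℝ)
  have hfi : Integrable f ν := (integrable_const B).mono' hf.continuous.aestronglyMeasurable
    (ae_of_all _ hB)
  have hfi2 : Integrable (fun x => f x ^ 2) ν := by
    refine (integrable_const (B ^ 2)).mono' (hf.continuous.pow 2).aestronglyMeasurable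
      (ae_of_all _ fun x => ?_)
    rw [norm_pow]
    exact pow_le_pow_left₀ (norm_nonneg _) (hB x) 2
  have hdi : Integrable (fun x => ‖fderiv ℝ f x‖ ^ 2) ν := by
    refine (integrable_const (B' ^ 2)).mono' (hcf.norm.pow 2).aestronglyMeasurable
      (ae_of_all _ fun x => ?_)
    rw [Real.norm_of_nonneg (sq_nonneg _)]
    exact pow_le_pow_left₀ (norm_nonneg _) (hB' x) 2
  set g := gaussianReal 0 (κ⁻¹).toNNReal with hg
  have hstep : ∀ k : ℕ, (∫ t, chi k t ^ 2 ∂g) * ∫ x, f x ^ 2 ∂ν -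
      ((∫ t, chi k t ^ 1 ∂g) * ∫ x, f x ∂ν) ^ 2 ≤
      D * ((S / ((k : ℝ) + 1)) ^ 2 * B ^ 2 + ∫ x, ‖fderiv ℝ f x‖ ^ 2 ∂ν) := by
    intro k
    have hls := lf_smooth (e := e) (R := R) k hf
    have hlc := lf_compact h k hc
    have hlB : ∀ y, ‖lf k e R f y‖ ≤ B := by
      intro y
      unfold lf
      rw [norm_mul, Real.norm_of_nonneg (chi_nonneg k _)]
      calc chi k ⟪e, y⟫ * ‖f (R y)‖ ≤ 1 * ‖f (R y)‖ :=
            mul_le_mul_of_nonneg_right (chi_le k _) (norm_nonneg _)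
        _ ≤ B := by rw [one_mul]; exact hB _
    have i1 : Integrable (lf k e R f) (lift κ e J ν) :=
      (integrable_const B).mono' hls.continuous.aestronglyMeasurable (ae_of_all _ hlB)
    have i2 : Integrable (fun y => lf k e R f y ^ 2) (lift κ e J ν) := by
      refine (integrable_const (B ^ 2)).mono' (hls.continuous.pow 2).aestronglyMeasurable
        (ae_of_all _ fun x => ?_)
      rw [norm_pow]
      exact pow_le_pow_left₀ (norm_nonneg _) (hlB x) 2
    have e1 : ∫ y, lf k e R f y ∂(lift κ e J ν) = (∫ t, chi k t ^ 1 ∂g) * ∫ x, f x ∂ν := by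
      unfold lift
      rw [integral_map hT.aemeasurable hls.continuous.aestronglyMeasurable,
        ← integral_prod_mul (fun t => chi k t ^ 1) f]
      refine integral_congr_ae (ae_of_all _ fun z => ?_)
      simp only
      unfold lf
      rw [h.inner_T, h.R_T, pow_one]
    have e2 : ∫ y, lf k e R f y ^ 2 ∂(lift κ e J ν) = (∫ t, chi k t ^ 2 ∂g) * ∫ x, f x ^ 2 ∂ν := by
      unfold lift
      have hm2 : Continuous fun y => lf k e R f y ^ 2 := hls.continuous.pow 2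
      rw [integral_map hT.aemeasurable hm2.aestronglyMeasurable,
        ← integral_prod_mul (fun t => chi k t ^ 2) (fun x => f x ^ 2)]
      refine integral_congr_ae (ae_of_all _ fun z => ?_)
      simp only
      unfold lf
      rw [h.inner_T, h.R_T, mul_pow]
    have h1 := hP _ hls hlc
    rw [var_eq _ _ i1 i2, e1, e2] at h1
    refine h1.trans (mul_le_mul_of_nonneg_left ?_ hD)
    have e3 : (S / ((k : ℝ) + 1)) ^ 2 * B ^ 2 + ∫ x, ‖fderiv ℝ f x‖ ^ 2 ∂ν =
        ∫ y, ((S / ((k : ℝ) + 1)) ^ 2 * B ^ 2 + ‖fderiv ℝ f (R y)‖ ^ 2) ∂(lift κ e J ν) := by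
      have hm : Integrable (fun y : E' => ‖fderiv ℝ f (R y)‖ ^ 2) (lift κ e J ν) := by
        refine (integrable_const (B' ^ 2)).mono'
          ((hcf.comp R.continuous).norm.pow 2).aestronglyMeasurable (ae_of_all _ fun x => ?_)
        rw [Real.norm_of_nonneg (sq_nonneg _)]
        exact pow_le_pow_left₀ (norm_nonneg _) (hB' _) 2
      rw [integral_add (integrable_const _) hm, integral_const]
      simp only [probReal_univ, smul_eq_mul, one_mul]
      congr 1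
      have h2 : ∫ y, ‖fderiv ℝ f (R y)‖ ^ 2 ∂(lift κ e J ν) =
          ∫ x, ‖fderiv ℝ f x‖ ^ 2 ∂((lift κ e J ν).map R) := by
        have hm3 : Continuous fun x => ‖fderiv ℝ f x‖ ^ 2 := hcf.norm.pow 2
        rw [integral_map R.continuous.measurable.aemeasurable hm3.aestronglyMeasurable]
      rw [h2, lift_map_R h]
    rw [e3]
    refine integral_mono_of_nonneg (ae_of_all _ fun y => sq_nonneg _) ?_ (ae_of_all _ fun y => ?_)
    · refine (integrable_const _).add ?_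
      refine (integrable_const (B' ^ 2)).mono'
        ((hcf.comp R.continuous).norm.pow 2).aestronglyMeasurable (ae_of_all _ fun x => ?_)
      rw [Real.norm_of_nonneg (sq_nonneg _)]
      exact pow_le_pow_left₀ (norm_nonneg _) (hB' _) 2
    · refine (lf_fderiv h k hf y).trans (add_le_add ?_ le_rfl)
      have h3 : (deriv (chi k) ⟪e, y⟫) ^ 2 ≤ (S / ((k : ℝ) + 1)) ^ 2 := by
        rw [← sq_abs (deriv (chi k) ⟪e, y⟫)]
        exact pow_le_pow_left₀ (abs_nonneg _) (hS k _) 2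
      have h4 : f (R y) ^ 2 ≤ B ^ 2 := by
        rw [← sq_abs (f (R y))]
        exact pow_le_pow_left₀ (abs_nonneg _) (hB _) 2
      exact mul_le_mul h3 h4 (sq_nonneg _) (sq_nonneg _)
  have l1 := chi_lim (κ⁻¹).toNNReal 2
  have l2 := chi_lim (κ⁻¹).toNNReal 1
  have l3 : Tendsto (fun k : ℕ => S / ((k : ℝ) + 1)) atTop (𝓝 0) := by
    have h5 := (tendsto_one_div_add_atTop_nhds_zero_nat (𝕜 := ℝ)).const_mul S
    rw [mul_zero] at h5
    refine h5.congr fun k => ?_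
    rw [mul_one_div]
  have L := le_of_tendsto_of_tendsto' ((l1.mul_const (∫ x, f x ^ 2 ∂ν)).sub
    ((l2.mul_const (∫ x, f x ∂ν)).pow 2))
    ((((l3.pow 2).mul_const (B ^ 2)).add_const (∫ x, ‖fderiv ℝ f x‖ ^ 2 ∂ν)).const_mul D) hstep
  rw [var_eq ν f hfi hfi2]
  simpa using L

/-- The Poincaré constants of products with a Gaussian factor are unbounded if the ones of the
factors are. -/
lemma cP_lift (h : IsSpl e J R) {κ : ℝ} {ν : Measure E} [IsProbabilityMeasure ν] {C : ℝ}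
    (hC : 0 ≤ C) (hlt : ENNReal.ofReal (C + 1) < cP ν) : ENNReal.ofReal C < cP (lift κ e J ν) := by
  by_contra hcon
  rw [not_lt] at hcon
  have hpr := lift_prob (e := e) (J := J) κ ν
  have h1 : cP ν ≤ ENNReal.ofReal (C + 1) := by
    refine sInf_le fun f hf hc => ?_
    have h2 := poinc_factor h (κ := κ) (ν := ν) (D := C + 1) (by linarith)
      (fun F hF hFc => poinc_of_le hC hcon hF hFc) hf hc
    rw [lint_fderiv hf hc, ← ENNReal.ofReal_mul (by linarith)]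
    exact ENNReal.ofReal_le_ofReal h2
  exact absurd hlt (not_lt.2 h1)

end Pool.Agent.K1H99.BC
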