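import Pool.Agent.K1H99.BC.Main

/-!
# Weak convergence of the barycenters to the limit measure
-/

set_option autoImplicit false

namespace Pool.Agent.K1H99.BC

open MeasureTheory Filter Topology Set ProbabilityTheory Module
open scoped ENNReal NNReal RealInnerProductSpace

lemma norm_exp_sub (u v : ℝ) :
    ‖Complex.exp (u * Complex.I) - Complex.exp (v * Complex.I)‖ ≤ |u - v| := by
  have h1 : Complex.exp (u * Complex.I) - Complex.exp (v * Complex.I) =
      Complex.exp (v * Complex.I) * (Complex.exp (Complex.I * ((u - v : ℝ) : ℂ)) - 1) := by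
    rw [mul_sub, ← Complex.exp_add, mul_one]
    congr 2
    push_cast
    ring
  rw [h1, norm_mul, Complex.norm_exp_ofReal_mul_I, one_mul]
  exact Real.norm_exp_I_mul_ofReal_sub_one_le

lemma integral_abs_le {Ω : Type*} [MeasurableSpace Ω] {μ : Measure Ω} [IsProbabilityMeasure μ]
    {f : Ω → ℝ} (hf : MemLp f 2 μ) : ∫ x, |f x| ∂μ ≤ Real.sqrt (∫ x, f x ^ 2 ∂μ) := by
  apply Real.le_sqrt_of_sq_le
  have hf' : MemLp (fun x => |f x|) 2 μ := hf.abs
  have h1 := variance_nonneg (fun x => |f x|) μ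
  rw [variance_eq_sub hf'] at h1
  simp only [Pi.pow_apply, sq_abs] at h1
  linarith

variable {E : Type*} [NormedAddCommGroup E] [InnerProductSpace ℝ E]
  [FiniteDimensional ℝ E] [MeasurableSpace E] [BorelSpace E]

lemma charFun_lip {ν : Measure E} [IsProbabilityMeasure ν] (hν : MemLp (fun x : E => x) 2 ν)
    (t t' : E) : ‖charFun ν t - charFun ν t'‖ ≤ ‖t - t'‖ * Real.sqrt (∫ x, ‖x‖ ^ 2 ∂ν) := by
  have i1 : ∀ s : E, Integrable (fun x : E => Complex.exp (⟪x, s⟫ * Complex.I)) ν := by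
    intro s
    refine (integrable_const (1 : ℝ)).mono' (by fun_prop) (ae_of_all _ fun x => ?_)
    rw [Complex.norm_exp_ofReal_mul_I]
  rw [charFun_apply, charFun_apply, ← integral_sub (i1 t) (i1 t')]
  refine (norm_integral_le_integral_norm _).trans ?_
  have i2 : Integrable (fun x : E => ‖x‖) ν := (hν.integrable (by norm_num)).norm
  have h1 : ∫ x, ‖Complex.exp (⟪x, t⟫ * Complex.I) - Complex.exp (⟪x, t'⟫ * Complex.I)‖ ∂ν ≤
      ∫ x, ‖t - t'‖ * ‖x‖ ∂ν := by
    refine integral_mono ((i1 t).sub (i1 t')).norm (i2.const_mul _) fun x => ?_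
    refine (norm_exp_sub _ _).trans ?_
    rw [← inner_sub_right, mul_comm]
    exact abs_real_inner_le_norm _ _
  refine h1.trans ?_
  rw [integral_const_mul]
  apply mul_le_mul_of_nonneg_left _ (norm_nonneg _)
  have h2 := integral_abs_le (μ := ν) (f := fun x => ‖x‖) hν.norm
  simpa using h2

variable {ι : Type*} [Fintype ι] [DecidableEq ι]

lemma charFun_close (b : OrthonormalBasis ι ℝ E) (i : ι) (hc : 2 ≤ Fintype.card ι) {ε : ℝ}
    {ν : Measure E} [IsProbabilityMeasure ν] {π : Measure (E × E)}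
    (hπ : IsCpl π ν (mu (Fintype.card ι) ε (b i))) (hν : MemLp (fun x : E => x) 2 ν) (r : ℝ) :
    ‖charFun ν (r • b i) - charFun (nuS (Fintype.card ι) : Measure E) (r • b i)‖ ≤
      |r| * Real.sqrt (∫ z, (⟪b i, z.1⟫ - ⟪b i, z.2⟫ / (Fintype.card ι : ℝ)) ^ 2 ∂π) := by
  set n : ℝ := (Fintype.card ι : ℝ) with hn
  have hn2 : (2 : ℝ) ≤ n := by rw [hn]; exact_mod_cast hc
  have hn0 : n ≠ 0 := by linarith
  have hpr : IsProbabilityMeasure π := isCpl_prob hπ
  have m1 := memLp_fst hπ hν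
  have m2 := memLp_snd hπ (memLp_mu b i hc ε)
  have m5 : MemLp (fun z : E × E => ⟪b i, z.1⟫ - ⟪b i, z.2⟫ / n) 2 π := by
    have h := (m1.const_inner (b i)).sub ((m2.const_inner (b i)).const_mul n⁻¹)
    refine h.ae_eq (ae_of_all _ fun z => ?_)
    simp only [Pi.sub_apply]
    rw [div_eq_inv_mul]
  have e1 : charFun ν (r • b i) = ∫ z, Complex.exp ((r * ⟪b i, z.1⟫ : ℝ) * Complex.I) ∂π := by
    rw [charFun_apply, ← hπ.1, integral_map (by fun_prop) (by fun_prop)]
    refine integral_congr_ae (ae_of_all _ fun z => ?_)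
    simp only
    rw [inner_smul_right, real_inner_comm]
  have e2 : charFun (nuS n : Measure E) (r • b i) =
      ∫ z, Complex.exp ((r * (⟪b i, z.2⟫ / n) : ℝ) * Complex.I) ∂π := by
    have h1 : ∫ z, Complex.exp ((r * (⟪b i, z.2⟫ / n) : ℝ) * Complex.I) ∂π =
        ∫ y, Complex.exp ((r * (⟪b i, y⟫ / n) : ℝ) * Complex.I) ∂(mu n ε (b i)) := by
      rw [← hπ.2, integral_map (by fun_prop) (by fun_prop)]
    have h2 : ∫ y, Complex.exp ((r * (⟪b i, y⟫ / n) : ℝ) * Complex.I) ∂(mu n ε (b i)) =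
        ∫ s, Complex.exp ((r * (s / n) : ℝ) * Complex.I)
          ∂((mu n ε (b i)).map (fun y => ⟪b i, y⟫)) := by
      rw [integral_map (by fun_prop) (by fun_prop)]
    rw [h1, h2, mu_inner b i hc, integral_map (by fun_prop) (by fun_prop), charFun_apply]
    refine integral_congr_ae (ae_of_all _ fun x => ?_)
    simp only
    rw [inner_smul_right, real_inner_comm, mul_div_cancel_left₀ _ hn0]
  have i1 : Integrable (fun z : E × E => Complex.exp ((r * ⟪b i, z.1⟫ : ℝ) * Complex.I)) π := by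
    refine (integrable_const (1 : ℝ)).mono' (by fun_prop) (ae_of_all _ fun x => ?_)
    rw [Complex.norm_exp_ofReal_mul_I]
  have i2 : Integrable (fun z : E × E => Complex.exp ((r * (⟪b i, z.2⟫ / n) : ℝ) * Complex.I)) π := by
    refine (integrable_const (1 : ℝ)).mono' (by fun_prop) (ae_of_all _ fun x => ?_)
    rw [Complex.norm_exp_ofReal_mul_I]
  rw [e1, e2, ← integral_sub i1 i2]
  refine (norm_integral_le_integral_norm _).trans ?_
  have h1 : ∫ z, ‖Complex.exp ((r * ⟪b i, z.1⟫ : ℝ) * Complex.I) -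
      Complex.exp ((r * (⟪b i, z.2⟫ / n) : ℝ) * Complex.I)‖ ∂π ≤
      ∫ z, |r| * |⟪b i, z.1⟫ - ⟪b i, z.2⟫ / n| ∂π := by
    refine integral_mono (i1.sub i2).norm ((m5.integrable (by norm_num)).abs.const_mul _) fun z => ?_
    refine (norm_exp_sub _ _).trans (le_of_eq ?_)
    rw [← mul_sub, abs_mul]
  refine h1.trans ?_
  rw [integral_const_mul]
  exact mul_le_mul_of_nonneg_left (integral_abs_le m5) (abs_nonneg _)

omit [MeasurableSpace E] [BorelSpace E] [DecidableEq ι] in
/-- an orthonormal basis with a vector in a given direction -/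
lemma exists_basis (hdim : finrank ℝ E = Fintype.card ι) (i : ι) (t : E) :
    ∃ b : OrthonormalBasis ι ℝ E, t = ‖t‖ • b i := by
  by_cases ht : t = 0
  · refine ⟨(stdOrthonormalBasis ℝ E).reindex (Fintype.equivOfCardEq (by simp [hdim])), ?_⟩
    rw [ht]
    simp
  · have hn : ‖t‖ ≠ 0 := norm_ne_zero_iff.2 ht
    have ho : Orthonormal ℝ (({i} : Set ι).domRestrict fun _ : ι => ‖t‖⁻¹ • t) := by
      constructor
      · intro x
        rw [domRestrict_apply]
        rw [norm_smul, norm_inv, norm_norm, inv_mul_cancel₀ hn]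
      · intro x y hxy
        exact absurd (Subsingleton.elim x y) hxy
    obtain ⟨b, hb⟩ := ho.exists_orthonormalBasis_extension_of_card_eq hdim
    refine ⟨b, ?_⟩
    rw [hb i rfl, smul_smul, mul_inv_cancel₀ hn, one_smul]

/-- the width of the given measures -/
noncomputable def eps (k : ℕ) : ℝ := 1 / ((k : ℝ) + 2) ^ 2

lemma eps_pos (k : ℕ) : 0 < eps k := by unfold eps; positivity

lemma eps_le (k : ℕ) : eps k ≤ 1 / 2 := by
  unfold eps
  have h : (0 : ℝ) ≤ k := Nat.cast_nonneg k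
  rw [div_le_div_iff₀ (by positivity) (by norm_num)]
  nlinarith

/-- The measure `ν` with the couplings `π` is a solution of the barycenter problem for the measures
`μ k` with equal weights `w`. -/
def IsSol {I : Type} [Fintype I] (w : I → ℝ) (μ : I → Measure E) (ν : Measure E) : Prop :=
  ∃ π : I → Measure (E × E), (∀ k, IsCpl (π k) ν (μ k)) ∧
    ∀ (ν' : Measure E) (π' : I → Measure (E × E)), IsProbabilityMeasure ν' →
      (∀ k, IsCpl (π' k) ν' (μ k)) →
      ∑ k, ENNReal.ofReal (w k) * cost (π k) ≤ ∑ k, ENNReal.ofReal (w k) * cost (π' k)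

/-- **Weak convergence of barycenters to the limit measure.** -/
theorem exists_seq {ι : Type} [Fintype ι] [DecidableEq ι] [Nonempty ι]
    (hdim : finrank ℝ E = Fintype.card ι) (hc : 2 ≤ Fintype.card ι) :
    ∃ (B : ℕ → OrthonormalBasis ι ℝ E) (ν : ℕ → ProbabilityMeasure E) (νs : ProbabilityMeasure E),
      (νs : Measure E) = nuS (Fintype.card ι) ∧
      (∀ k : ℕ, IsSol (fun _ : Fin (k + 1) × ι => 1 / (((k : ℝ) + 1) * (Fintype.card ι : ℝ)))
        (fun q : Fin (k + 1) × ι => mu (Fintype.card ι) (eps k) (B q.1 q.2)) (ν k : Measure E)) ∧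
      Tendsto ν atTop (𝓝 νs) := by
  set n : ℝ := (Fintype.card ι : ℝ) with hn
  have hn2 : (2 : ℝ) ≤ n := by rw [hn]; exact_mod_cast hc
  have hn0 : 0 < n := by linarith
  obtain ⟨i₀⟩ := (inferInstance : Nonempty ι)
  have hne : Nonempty E := ⟨0⟩
  choose B hB using fun m : ℕ => exists_basis (E := E) hdim i₀ (TopologicalSpace.denseSeq E m)
  have hprob : IsProbabilityMeasure (nuS n : Measure E) := prob_nuS (B 0) i₀ hc
  -- the barycenters
  have hw0 : ∀ k : ℕ, 0 < 1 / (((k : ℝ) + 1) * n) := fun k => by positivity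
  have hex : ∀ k : ℕ, ∃ (ν : Measure E) (π : Fin (k + 1) × ι → Measure (E × E)),
      IsProbabilityMeasure ν ∧
      (∀ q, IsCpl (π q) ν (mu n (eps k) (B q.1 q.2))) ∧
      (∀ (ν' : Measure E) (π' : Fin (k + 1) × ι → Measure (E × E)), IsProbabilityMeasure ν' →
        (∀ q, IsCpl (π' q) ν' (mu n (eps k) (B q.1 q.2))) →
        ∑ q, ENNReal.ofReal (1 / (((k : ℝ) + 1) * n)) * cost (π q) ≤
          ∑ q, ENNReal.ofReal (1 / (((k : ℝ) + 1) * n)) * cost (π' q)) ∧
      ∑ q, ENNReal.ofReal (1 / (((k : ℝ) + 1) * n)) * cost (π q) ≠ ∞ := by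
    intro k
    have hpm : ∀ q : Fin (k + 1) × ι, IsProbabilityMeasure (mu n (eps k) (B q.1 q.2)) := fun q =>
      prob_mu (B q.1) q.2 hc (eps k)
    exact exists_bary (fun _ => 1 / (((k : ℝ) + 1) * n)) (fun _ => hw0 k)
      (fun q : Fin (k + 1) × ι => mu n (eps k) (B q.1 q.2))
      (fun q => lint_of_memLp (memLp_mu (B q.1) q.2 hc (eps k)))
  choose ν π hνp hπ hmin hfin using hex
  have hνm : ∀ k, MemLp (fun x : E => x) 2 (ν k) := by
    intro k
    have h1 := ENNReal.sum_ne_top.1 (hfin k) (0, i₀) (Finset.mem_univ _)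
    refine memLp_of_cost (hπ k (0, i₀)) (fun h2 => h1 ?_) (memLp_mu (B _) i₀ hc (eps k))
    rw [h2]
    exact ENNReal.mul_top (by simpa using hw0 k)
  -- the estimates
  set C : ℝ := 4 * a0 E n + 6 with hC
  have ha0 := a0_nonneg (E := E) n
  have hC0 : 0 < C := by linarith
  have hest : ∀ k : ℕ,
      ∑ q : Fin (k + 1) × ι, (1 / (((k : ℝ) + 1) * n)) *
        ∫ z, (⟪B q.1 q.2, z.1⟫ - ⟪B q.1 q.2, z.2⟫ / n) ^ 2 ∂(π k q) ≤ eps k * C ∧
      ∫ x, ‖x‖ ^ 2 ∂(ν k) ≤ 2 * n * (eps k * C) + 2 * a0 E n := by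
    intro k
    have hk1 : ((k : ℝ) + 1) ≠ 0 := by positivity
    refine main_est (fun q : Fin (k + 1) × ι => B q.1) (fun q => q.2) hc
      (fun _ => 1 / (((k : ℝ) + 1) * n)) (fun _ => hw0 k) ?_ ?_ (eps_pos k) (eps_le k) (hπ k)
      (hνm k) ?_
    · rw [Finset.sum_const, Finset.card_univ, Fintype.card_prod, Fintype.card_fin, nsmul_eq_mul]
      push_cast
      field_simp
      exact hn.symm
    · intro x
      rw [← Finset.mul_sum, Fintype.sum_prod_type]
      simp_rw [OrthonormalBasis.sum_sq_inner_right]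
      rw [Finset.sum_const, Finset.card_univ, Fintype.card_fin, nsmul_eq_mul, ← hn]
      push_cast
      field_simp
    · exact hmin k (nuS n) (fun q => pis n (eps k) (B q.1 q.2)) hprob
        (fun q => cpl_pis (B q.1) q.2 hc (eps k))
  have hM : ∀ k : ℕ, Real.sqrt (∫ x, ‖x‖ ^ 2 ∂(ν k)) ≤ Real.sqrt (n * C + 2 * a0 E n) := by
    intro k
    apply Real.sqrt_le_sqrt
    refine (hest k).2.trans ?_
    have h1 : 2 * n * (eps k * C) ≤ 2 * n * (1 / 2 * C) := by
      have := mul_le_mul_of_nonneg_right (eps_le k) hC0.le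
      exact mul_le_mul_of_nonneg_left this (by positivity)
    linarith
  -- convergence at the points of the dense sequence
  have hconv : ∀ m : ℕ, Tendsto (fun k => charFun (ν k) (TopologicalSpace.denseSeq E m)) atTop
      (𝓝 (charFun (nuS n : Measure E) (TopologicalSpace.denseSeq E m))) := by
    intro m
    rw [tendsto_iff_norm_sub_tendsto_zero]
    set t := TopologicalSpace.denseSeq E m
    have hlim : Tendsto (fun k : ℕ => ‖t‖ * Real.sqrt (n * C * (1 / ((k : ℝ) + 1)))) atTop (𝓝 0) := by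
      have h1 := (tendsto_one_div_add_atTop_nhds_zero_nat (𝕜 := ℝ)).const_mul (n * C)
      have h2 := (Real.continuous_sqrt.tendsto _).comp h1
      have h3 := h2.const_mul ‖t‖
      simpa using h3
    refine squeeze_zero' (Eventually.of_forall fun _ => norm_nonneg _) ?_ hlim
    filter_upwards [eventually_ge_atTop m] with k hk
    have hmk : m < k + 1 := by omega
    have h1 := charFun_close (B m) i₀ hc (hπ k (⟨m, hmk⟩, i₀)) (hνm k) ‖t‖
    have e : ‖t‖ • B m i₀ = t := (hB m).symm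
    rw [e, abs_of_nonneg (norm_nonneg t)] at h1
    refine h1.trans (mul_le_mul_of_nonneg_left (Real.sqrt_le_sqrt ?_) (norm_nonneg _))
    have h2 := (hest k).1
    have h3 := Finset.single_le_sum (f := fun q : Fin (k + 1) × ι => (1 / (((k : ℝ) + 1) * n)) *
        ∫ z, (⟪B q.1 q.2, z.1⟫ - ⟪B q.1 q.2, z.2⟫ / n) ^ 2 ∂(π k q))
      (fun q _ => mul_nonneg (hw0 k).le (integral_nonneg fun z => by positivity))
      (Finset.mem_univ ((⟨m, hmk⟩, i₀) : Fin (k + 1) × ι))
    have h4 := h3.trans h2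
    simp only at h4
    have hk0 : (0 : ℝ) ≤ k := Nat.cast_nonneg k
    have h5 : eps k * C ≤ (1 / (((k : ℝ) + 1) * n)) * (n * C * (1 / ((k : ℝ) + 1))) := by
      have e2 : (1 / (((k : ℝ) + 1) * n)) * (n * C * (1 / ((k : ℝ) + 1))) =
          (1 / ((k : ℝ) + 1) ^ 2) * C := by
        field_simp
      rw [e2]
      refine mul_le_mul_of_nonneg_right ?_ hC0.le
      unfold eps
      apply one_div_le_one_div_of_le (by positivity)
      exact pow_le_pow_left₀ (by positivity) (by linarith) 2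
    exact le_of_mul_le_mul_left (h4.trans h5) (hw0 k)
  refine ⟨B, fun k => ⟨ν k, hνp k⟩, ⟨nuS n, hprob⟩, rfl, fun k => ⟨π k, hπ k, hmin k⟩, ?_⟩
  apply ProbabilityMeasure.tendsto_of_tendsto_charFun
  intro t
  change Tendsto (fun k => charFun (ν k) t) atTop (𝓝 (charFun (nuS n : Measure E) t))
  rw [Metric.tendsto_atTop]
  intro η hη
  set M : ℝ := Real.sqrt (n * C + 2 * a0 E n) + Real.sqrt (∫ x, ‖x‖ ^ 2 ∂(nuS n : Measure E)) + 1
    with hMdef
  have hM0 : 0 < M := by positivity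
  obtain ⟨m, hm⟩ := (TopologicalSpace.denseRange_denseSeq E).exists_dist_lt t
    (show 0 < η / (3 * M) by positivity)
  obtain ⟨K, hK⟩ := Metric.tendsto_atTop.1 (hconv m) (η / 3) (by positivity)
  refine ⟨K, fun k hk => ?_⟩
  set s := TopologicalSpace.denseSeq E m
  rw [dist_eq_norm] at hm
  have h1 := charFun_lip (hνm k) t s
  have h2 := charFun_lip (memLp_nuS (E := E) n) s t
  have h3 := hK k hk
  rw [dist_eq_norm] at h3 ⊢
  have h4 : ‖t - s‖ * Real.sqrt (∫ x, ‖x‖ ^ 2 ∂(ν k)) ≤ ‖t - s‖ * M := by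
    apply mul_le_mul_of_nonneg_left _ (norm_nonneg _)
    have := hM k
    have h5 : 0 ≤ Real.sqrt (∫ x, ‖x‖ ^ 2 ∂(nuS n : Measure E)) := Real.sqrt_nonneg _
    linarith
  have h5 : ‖s - t‖ * Real.sqrt (∫ x, ‖x‖ ^ 2 ∂(nuS n : Measure E)) ≤ ‖t - s‖ * M := by
    rw [norm_sub_rev]
    apply mul_le_mul_of_nonneg_left _ (norm_nonneg _)
    have h5 : 0 ≤ Real.sqrt (n * C + 2 * a0 E n) := Real.sqrt_nonneg _
    linarith
  have h6 : ‖t - s‖ * M < η / 3 := by
    have := mul_lt_mul_of_pos_right hm hM0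
    have e : η / (3 * M) * M = η / 3 := by field_simp
    rwa [e] at this
  calc ‖charFun (ν k) t - charFun (nuS n : Measure E) t‖
      = ‖(charFun (ν k) t - charFun (ν k) s) + (charFun (ν k) s - charFun (nuS n : Measure E) s) +
        (charFun (nuS n : Measure E) s - charFun (nuS n : Measure E) t)‖ := by congr 1; ring
    _ ≤ ‖charFun (ν k) t - charFun (ν k) s‖ + ‖charFun (ν k) s - charFun (nuS n : Measure E) s‖ +
        ‖charFun (nuS n : Measure E) s - charFun (nuS n : Measure E) t‖ := norm_add₃_le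
    _ < η := by linarith

end Pool.Agent.K1H99.BC
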