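import Pool.Agent.K1H99.BC.Couple

/-!
# Strong log-concavity of the given measures
-/

set_option autoImplicit false

namespace Pool.Agent.K1H99.BC

open MeasureTheory Filter Topology Set ProbabilityTheory Module
open scoped ENNReal NNReal RealInnerProductSpace

/-! ### The one-dimensional function -/

lemma pol_deriv (n s : ℝ) : HasDerivAt (pol n) (4 * s * (s ^ 2 + n - 2)) s := by
  unfold pol
  have h1 : HasDerivAt (fun s : ℝ => s ^ 2 + n - 2) (2 * s) s := by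
    have := ((hasDerivAt_pow 2 s).add_const n).sub_const 2
    simpa using this
  have h2 := (h1.pow 2).add_const (2 * (n - 1))
  refine h2.congr_deriv ?_
  simp only [Nat.cast_ofNat, Nat.add_one_sub_one, pow_one]
  ring

lemma pol_ineq {n : ℝ} (hn : 4 ≤ n) (s : ℝ) :
    (12 * s ^ 2 + 4 * (n - 2)) * pol n s - (4 * s * (s ^ 2 + n - 2)) ^ 2 ≤
      (9 / 10) * pol n s ^ 2 := by
  obtain ⟨h, hh, rfl⟩ : ∃ h : ℝ, 0 ≤ h ∧ n = h + 4 := ⟨n - 4, by linarith, by ring⟩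
  have hu : 0 ≤ s ^ 2 := sq_nonneg s
  have e : (9 / 10) * pol (h + 4) s ^ 2 - ((12 * s ^ 2 + 4 * (h + 4 - 2)) * pol (h + 4) s -
      (4 * s * (s ^ 2 + (h + 4) - 2)) ^ 2) = (10 - 16 * s ^ 2 + (404 / 10) * (s ^ 2) ^ 2) +
      (20 * h + (184 / 10) * h ^ 2 + (68 / 10) * h ^ 3 + (9 / 10) * h ^ 4 +
      (392 / 10) * (s ^ 2) * h + (248 / 10) * (s ^ 2) * h ^ 2 + (36 / 10) * (s ^ 2) * h ^ 3 +
      (292 / 10) * (s ^ 2) ^ 2 * h + (54 / 10) * (s ^ 2) ^ 2 * h ^ 2 + (112 / 10) * (s ^ 2) ^ 3 +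
      (36 / 10) * (s ^ 2) ^ 3 * h + (9 / 10) * (s ^ 2) ^ 4) := by
    unfold pol
    ring
  have h1 : 0 ≤ 10 - 16 * s ^ 2 + (404 / 10) * (s ^ 2) ^ 2 := by
    nlinarith [sq_nonneg (s ^ 2 - 1 / 5)]
  have h2 : 0 ≤ 20 * h + (184 / 10) * h ^ 2 + (68 / 10) * h ^ 3 + (9 / 10) * h ^ 4 +
      (392 / 10) * (s ^ 2) * h + (248 / 10) * (s ^ 2) * h ^ 2 + (36 / 10) * (s ^ 2) * h ^ 3 +
      (292 / 10) * (s ^ 2) ^ 2 * h + (54 / 10) * (s ^ 2) ^ 2 * h ^ 2 + (112 / 10) * (s ^ 2) ^ 3 +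
      (36 / 10) * (s ^ 2) ^ 3 * h + (9 / 10) * (s ^ 2) ^ 4 := by positivity
  linarith

/-- The projections of the limit measure are strongly log-concave. -/
lemma convex_h {n : ℝ} (hn : 4 ≤ n) :
    ConvexOn ℝ univ (fun s : ℝ => (9 / 20) * s ^ 2 - Real.log (pol n s)) := by
  have hpos : ∀ s, 0 < pol n s := fun s => pol_pos (by linarith) s
  have hd : ∀ s : ℝ, HasDerivAt (fun s : ℝ => (9 / 20) * s ^ 2 - Real.log (pol n s))
      ((9 / 10) * s - (4 * s * (s ^ 2 + n - 2)) / pol n s) s := by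
    intro s
    have h1 := ((hasDerivAt_pow 2 s).const_mul (9 / 20 : ℝ)).sub
      ((pol_deriv n s).log (hpos s).ne')
    refine h1.congr_deriv ?_
    simp only [Nat.cast_ofNat, Nat.add_one_sub_one, pow_one]
    ring
  have hdd : ∀ s : ℝ, HasDerivAt (fun s : ℝ => (9 / 10) * s - (4 * s * (s ^ 2 + n - 2)) / pol n s)
      (9 / 10 - ((12 * s ^ 2 + 4 * (n - 2)) * pol n s - (4 * s * (s ^ 2 + n - 2)) ^ 2) /
        pol n s ^ 2) s := by
    intro s
    have h0 : HasDerivAt (fun s : ℝ => s ^ 2 + n - 2) (2 * s) s := by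
      have := ((hasDerivAt_pow 2 s).add_const n).sub_const 2
      simpa using this
    have h1 : HasDerivAt (fun s : ℝ => 4 * s * (s ^ 2 + n - 2)) (12 * s ^ 2 + 4 * (n - 2)) s := by
      have h2 := ((hasDerivAt_id s).const_mul (4 : ℝ)).mul h0
      refine h2.congr_deriv ?_
      simp only [id_eq]
      ring
    have h3 := ((hasDerivAt_id s).const_mul (9 / 10 : ℝ)).sub (h1.div (pol_deriv n s) (hpos s).ne')
    refine h3.congr_deriv ?_
    ring
  have hderiv : deriv (fun s : ℝ => (9 / 20) * s ^ 2 - Real.log (pol n s)) =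
      fun s : ℝ => (9 / 10) * s - (4 * s * (s ^ 2 + n - 2)) / pol n s := funext fun s => (hd s).deriv
  have hmono : Monotone (deriv (fun s : ℝ => (9 / 20) * s ^ 2 - Real.log (pol n s))) := by
    rw [hderiv]
    refine monotone_of_deriv_nonneg (fun s => (hdd s).differentiableAt) fun s => ?_
    rw [(hdd s).deriv]
    have h1 := pol_ineq hn s
    have h2 : 0 < pol n s ^ 2 := by have := hpos s; positivity
    rw [sub_nonneg, div_le_iff₀ h2]
    exact h1
  exact hmono.convexOn_univ_of_deriv fun s => (hd s).differentiableAt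

/-! ### The density of the standard Gaussian measure -/

variable {E : Type*} [NormedAddCommGroup E] [InnerProductSpace ℝ E]
  [FiniteDimensional ℝ E] [MeasurableSpace E] [BorelSpace E]

/-- the normalising factor of the Gaussian density -/
noncomputable def gc (E : Type*) [NormedAddCommGroup E] [InnerProductSpace ℝ E] : ℝ :=
  ((2 * Real.pi) ^ (finrank ℝ E / 2 : ℝ))⁻¹

omit [FiniteDimensional ℝ E] [MeasurableSpace E] [BorelSpace E] in
lemma gc_pos : 0 < gc E := by unfold gc; positivity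

lemma gauss_density : stdGaussian E =
    volume.withDensity fun x : E => ENNReal.ofReal (gc E * Real.exp (-(1 / 2) * ‖x‖ ^ 2)) := by
  have hint : Integrable (fun x : E => gc E * Real.exp (-(1 / 2) * ‖x‖ ^ 2)) := by
    have h1 := GaussianFourier.integrable_cexp_neg_mul_sq_norm_add (V := E) (b := (1 / 2 : ℂ))
      (by norm_num) 0 0
    have h2 := h1.norm
    refine (h2.congr (ae_of_all _ fun x => ?_)).const_mul (gc E)
    simp only [Complex.norm_exp]
    congr 1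
    simp only [neg_mul, zero_mul, add_zero, Complex.neg_re]
    rw [show ((1 / 2 : ℂ) * (‖x‖ : ℂ) ^ 2) = (((1 / 2) * ‖x‖ ^ 2 : ℝ) : ℂ) by push_cast; ring,
      Complex.ofReal_re]
  have hmeas : Measurable fun x : E => ENNReal.ofReal (gc E * Real.exp (-(1 / 2) * ‖x‖ ^ 2)) := by
    fun_prop
  have hfin : IsFiniteMeasure (volume.withDensity fun x : E =>
      ENNReal.ofReal (gc E * Real.exp (-(1 / 2) * ‖x‖ ^ 2))) :=
    isFiniteMeasure_withDensity_ofReal hint.2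
  apply Measure.ext_of_charFun
  ext t
  rw [charFun_stdGaussian, charFun_apply,
    integral_withDensity_eq_integral_toReal_smul hmeas (ae_of_all _ fun _ => ENNReal.ofReal_lt_top)]
  have h1 : ∀ x : E, (ENNReal.ofReal (gc E * Real.exp (-(1 / 2) * ‖x‖ ^ 2))).toReal •
      Complex.exp (⟪x, t⟫ * Complex.I) = (gc E : ℂ) *
        Complex.exp (-(1 / 2 : ℂ) * (‖x‖ : ℂ) ^ 2 + Complex.I * (⟪t, x⟫ : ℂ)) := by
    intro x
    rw [ENNReal.toReal_ofReal (mul_nonneg gc_pos.le (Real.exp_pos _).le), Complex.real_smul,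
      Complex.exp_add, real_inner_comm]
    push_cast
    ring_nf
  simp_rw [h1]
  rw [integral_const_mul, GaussianFourier.integral_cexp_neg_mul_sq_norm_add (by norm_num)]
  have h2 : ((Real.pi : ℂ) / (1 / 2 : ℂ)) ^ ((finrank ℝ E : ℂ) / 2) =
      (((2 * Real.pi) ^ (finrank ℝ E / 2 : ℝ) : ℝ) : ℂ) := by
    rw [Complex.ofReal_cpow (by positivity)]
    push_cast
    congr 1
    ring
  rw [h2, ← mul_assoc, ← Complex.ofReal_mul]
  have h3 : gc E * (2 * Real.pi) ^ (finrank ℝ E / 2 : ℝ) = 1 := by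
    unfold gc
    exact inv_mul_cancel₀ (by positivity)
  rw [h3, Complex.ofReal_one, one_mul]
  congr 1
  rw [Complex.I_sq]
  ring

/-! ### Strong log-concavity -/

/-- `μ` is a `κ`-strongly log-concave probability measure -/
def StrongLC (κ : ℝ) (μ : Measure E) : Prop :=
  ∃ V : E → EReal, (∀ x, V x ≠ ⊥) ∧ (∃ x, V x ≠ ⊤) ∧ LowerSemicontinuous V ∧
    (∀ (x y : E) (a b : ℝ), 0 < a → 0 < b → a + b = 1 →
      V (a • x + b • y) - ((κ * ‖a • x + b • y‖ ^ 2 / 2 : ℝ) : EReal) ≤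
        (a : EReal) * (V x - ((κ * ‖x‖ ^ 2 / 2 : ℝ) : EReal)) +
          (b : EReal) * (V y - ((κ * ‖y‖ ^ 2 / 2 : ℝ) : EReal))) ∧
    (∫⁻ x, EReal.exp (-V x)) ≠ 0 ∧ (∫⁻ x, EReal.exp (-V x)) ≠ ∞ ∧
    μ = (∫⁻ x, EReal.exp (-V x))⁻¹ • volume.withDensity fun x => EReal.exp (-V x)

lemma strongLC_of_real {κ : ℝ} {μ : Measure E} [IsProbabilityMeasure μ] {v : E → ℝ}
    (hv : Continuous v) (hconv : ConvexOn ℝ univ fun x => v x - κ * ‖x‖ ^ 2 / 2) {C : ℝ≥0∞}
    (hμ : μ = C • volume.withDensity fun x => ENNReal.ofReal (Real.exp (-v x))) :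
    StrongLC κ μ := by
  have e : ∀ x, EReal.exp (-((v x : ℝ) : EReal)) = ENNReal.ofReal (Real.exp (-v x)) := by
    intro x
    rw [← EReal.coe_neg, EReal.exp_coe]
  have hZ : C * ∫⁻ x, ENNReal.ofReal (Real.exp (-v x)) = 1 := by
    have h1 : μ univ = 1 := measure_univ
    rw [hμ, Measure.smul_apply, withDensity_apply _ MeasurableSet.univ, setLIntegral_univ,
      smul_eq_mul] at h1
    exact h1
  have hZ0 : ∫⁻ x, ENNReal.ofReal (Real.exp (-v x)) ≠ 0 := by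
    intro h
    rw [h, mul_zero] at hZ
    exact zero_ne_one hZ
  have hC0 : C ≠ 0 := by
    intro h
    rw [h, zero_mul] at hZ
    exact zero_ne_one hZ
  have hZt : ∫⁻ x, ENNReal.ofReal (Real.exp (-v x)) ≠ ∞ := by
    intro h
    rw [h, ENNReal.mul_top hC0] at hZ
    exact ENNReal.top_ne_one hZ
  refine ⟨fun x => ((v x : ℝ) : EReal), fun x => EReal.coe_ne_bot _, ⟨0, EReal.coe_ne_top _⟩,
    (continuous_coe_real_ereal.comp hv).lowerSemicontinuous, ?_, ?_, ?_, ?_⟩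
  · intro x y a b ha hb hab
    have h1 := hconv.2 (mem_univ x) (mem_univ y) ha.le hb.le hab
    simp only [smul_eq_mul] at h1
    beta_reduce
    exact_mod_cast h1
  · simp_rw [e]
    exact hZ0
  · simp_rw [e]
    exact hZt
  · simp_rw [e]
    rw [hμ]
    congr 1
    exact ENNReal.eq_inv_of_mul_eq_one_left hZ

/-! ### The density of the given measures -/

omit [FiniteDimensional ℝ E] [MeasurableSpace E] [BorelSpace E] in
lemma Lm_add (a c : ℝ) (θ x y : E) : Lm a c θ (x + y) = Lm a c θ x + Lm a c θ y := by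
  unfold Lm perp
  rw [inner_add_right]
  module

omit [FiniteDimensional ℝ E] [MeasurableSpace E] [BorelSpace E] in
lemma Lm_smul (a c : ℝ) (θ : E) (r : ℝ) (x : E) : Lm a c θ (r • x) = r • Lm a c θ x := by
  unfold Lm perp
  rw [inner_smul_right]
  module

/-- `Lm` as a linear map -/
noncomputable def LL (a c : ℝ) (θ : E) : E →ₗ[ℝ] E where
  toFun := Lm a c θ
  map_add' := Lm_add a c θ
  map_smul' := Lm_smul a c θ

omit [FiniteDimensional ℝ E] [MeasurableSpace E] [BorelSpace E] in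
lemma Lm_Lm {a c : ℝ} (ha : a ≠ 0) (hc : c ≠ 0) {θ : E} (hθ : ‖θ‖ = 1) (x : E) :
    Lm a⁻¹ c⁻¹ θ (Lm a c θ x) = x := by
  have h1 := inner_Lm a c hθ x
  have h2 := perp_Lm a c hθ x
  have h0 : Lm a⁻¹ c⁻¹ θ (Lm a c θ x) =
      (a⁻¹ * ⟪θ, Lm a c θ x⟫) • θ + c⁻¹ • perp θ (Lm a c θ x) := rfl
  rw [h0, h1, h2, smul_smul, inv_mul_cancel₀ hc, one_smul, ← mul_assoc, inv_mul_cancel₀ ha, one_mul]
  unfold perp
  abel

omit [FiniteDimensional ℝ E] [MeasurableSpace E] [BorelSpace E] in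
lemma det_ne {a c : ℝ} (ha : a ≠ 0) (hc : c ≠ 0) {θ : E} (hθ : ‖θ‖ = 1) :
    LinearMap.det (LL a c θ) ≠ 0 := by
  have h1 : (LL a⁻¹ c⁻¹ θ) * (LL a c θ) = 1 := by
    ext x
    exact Lm_Lm ha hc hθ x
  have h2 := congrArg LinearMap.det h1
  rw [map_mul, map_one] at h2
  intro h3
  rw [h3, mul_zero] at h2
  exact zero_ne_one h2

omit [FiniteDimensional ℝ E] [MeasurableSpace E] [BorelSpace E] in
lemma norm_Lm_sq (a c : ℝ) {θ : E} (hθ : ‖θ‖ = 1) (x : E) :
    ‖Lm a c θ x‖ ^ 2 = a ^ 2 * ⟪θ, x⟫ ^ 2 + c ^ 2 * ‖perp θ x‖ ^ 2 := by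
  rw [norm_sq_eq hθ, inner_Lm a c hθ, perp_Lm a c hθ, norm_smul, mul_pow, mul_pow,
    Real.norm_eq_abs, sq_abs]

/-- the potential of the given measures -/
noncomputable def pot (n ε : ℝ) (θ y : E) : ℝ :=
  (1 / 2) * ‖Lm n⁻¹ ε⁻¹ θ y‖ ^ 2 - Real.log (pol n ⟪θ, Lm n⁻¹ ε⁻¹ θ y⟫)

lemma mu_density {n ε : ℝ} (hn : 1 < n) (hε : 0 < ε) {θ : E} (hθ : ‖θ‖ = 1) :
    ∃ C : ℝ≥0∞, mu n ε θ =
      C • volume.withDensity fun y => ENNReal.ofReal (Real.exp (-pot n ε θ y)) := by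
  have hn0 : n ≠ 0 := by linarith
  have hmpol : Measurable (pol n) := by unfold pol; fun_prop
  have hmpot : Measurable (pot n ε θ) := by
    unfold pot
    have := meas_Lm (E := E) n⁻¹ ε⁻¹ θ
    fun_prop
  have hF : Measurable fun y : E => ENNReal.ofReal (Real.exp (-pot n ε θ y)) := by fun_prop
  have hmap := Measure.map_linearMap_addHaar_eq_smul_addHaar (volume : Measure E)
    (det_ne hn0 hε.ne' hθ)
  have hmap' : (volume : Measure E).map (Lm n ε θ) =
      ENNReal.ofReal |(LinearMap.det (LL n ε θ))⁻¹| • volume := hmap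
  refine ⟨ENNReal.ofReal (gc E / (n ^ 2 + 1)) * ENNReal.ofReal |(LinearMap.det (LL n ε θ))⁻¹|, ?_⟩
  apply Measure.ext_of_lintegral
  intro f hf
  unfold mu
  rw [lintegral_map hf (meas_Lm _ _ _)]
  unfold mT
  have hfL : Measurable fun x : E => f (Lm n ε θ x) := hf.comp (meas_Lm _ _ _)
  rw [lintegral_withDensity_eq_lintegral_mul _ (measurable_pt n θ) hfL, gauss_density,
    lintegral_withDensity_eq_lintegral_mul _ (by fun_prop) ((measurable_pt n θ).mul hfL)]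
  have h1 : ∀ x : E, ((fun x : E => ENNReal.ofReal (gc E * Real.exp (-(1 / 2) * ‖x‖ ^ 2))) *
      ((fun x : E => ENNReal.ofReal (pol n ⟪θ, x⟫ / (n ^ 2 + 1))) * fun x => f (Lm n ε θ x))) x =
      ENNReal.ofReal (gc E / (n ^ 2 + 1)) * (ENNReal.ofReal (Real.exp (-pot n ε θ (Lm n ε θ x))) *
        f (Lm n ε θ x)) := by
    intro x
    simp only [Pi.mul_apply]
    rw [← mul_assoc, ← mul_assoc, ← ENNReal.ofReal_mul (mul_nonneg gc_pos.le (Real.exp_pos _).le),
      ← ENNReal.ofReal_mul (by have := gc_pos (E := E); positivity)]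
    congr 2
    unfold pot
    rw [Lm_Lm hn0 hε.ne' hθ, neg_sub, Real.exp_sub, Real.exp_log (pol_pos hn _)]
    rw [show -(1 / 2) * ‖x‖ ^ 2 = -((1 / 2) * ‖x‖ ^ 2) by ring, Real.exp_neg]
    field_simp
  simp_rw [h1]
  have hFf : Measurable fun y : E => ENNReal.ofReal (Real.exp (-pot n ε θ y)) * f y := hF.mul hf
  have hFL : Measurable fun x : E => ENNReal.ofReal (Real.exp (-pot n ε θ (Lm n ε θ x))) *
      f (Lm n ε θ x) := hFf.comp (meas_Lm n ε θ)
  rw [lintegral_const_mul _ hFL,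
    ← lintegral_map (f := fun y => ENNReal.ofReal (Real.exp (-pot n ε θ y)) * f y) hFf
      (meas_Lm n ε θ), hmap', lintegral_smul_measure, lintegral_smul_measure,
    lintegral_withDensity_eq_lintegral_mul _ hF hf, smul_eq_mul, smul_eq_mul, mul_assoc]
  rfl

omit [FiniteDimensional ℝ E] [MeasurableSpace E] [BorelSpace E] in
lemma convex_pot {n ε : ℝ} (hn : 4 ≤ n) (hε : 0 < ε) (hε1 : ε ≤ 1) {θ : E} (hθ : ‖θ‖ = 1) :
    ConvexOn ℝ univ fun y : E => pot n ε θ y - (1 / (10 * n ^ 2)) * ‖y‖ ^ 2 / 2 := by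
  have hn0 : n ≠ 0 := by linarith
  have e : (fun y : E => pot n ε θ y - (1 / (10 * n ^ 2)) * ‖y‖ ^ 2 / 2) = fun y : E =>
      ((9 / 20) * (n⁻¹ * ⟪θ, y⟫) ^ 2 - Real.log (pol n (n⁻¹ * ⟪θ, y⟫))) +
        ((1 / 2) * (ε⁻¹ ^ 2 - 1 / (10 * n ^ 2))) * ‖perp θ y‖ ^ 2 := by
    funext y
    unfold pot
    rw [norm_Lm_sq _ _ hθ, inner_Lm _ _ hθ, norm_sq_eq hθ y]
    field_simp
    ring
  rw [e]
  apply ConvexOn.add
  · have h1 := (convex_h hn).comp_linearMap ((n⁻¹ : ℝ) • (innerₛₗ ℝ θ : E →ₗ[ℝ] ℝ))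
    rw [preimage_univ] at h1
    exact h1
  · apply ConvexOn.smul
    · have h2 : 1 ≤ ε⁻¹ ^ 2 := one_le_pow₀ ((one_le_inv₀ hε).2 hε1)
      have h3 : 1 / (10 * n ^ 2) ≤ 1 := by
        rw [div_le_one (by positivity)]
        nlinarith
      have : 0 ≤ ε⁻¹ ^ 2 - 1 / (10 * n ^ 2) := by linarith
      positivity
    · have h4 : ConvexOn ℝ univ fun y : E => ‖perp θ y‖ := by
        have h5 := (convexOn_univ_norm (E := E)).comp_linearMap (LL 0 1 θ)
        rw [preimage_univ] at h5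
        have h6 : (fun y : E => ‖perp θ y‖) = norm ∘ (LL 0 1 θ) := by
          funext y
          change ‖perp θ y‖ = ‖Lm 0 1 θ y‖
          unfold Lm
          rw [zero_mul, zero_smul, zero_add, one_smul]
        rw [h6]
        exact h5
      exact h4.pow (fun y _ => norm_nonneg _) 2

variable {ι : Type*} [Fintype ι]

/-- The given measures are strongly log-concave. -/
theorem strongLC_mu (b : OrthonormalBasis ι ℝ E) (i : ι) (hc : 4 ≤ Fintype.card ι) {ε : ℝ}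
    (hε : 0 < ε) (hε1 : ε ≤ 1) :
    StrongLC (1 / (10 * (Fintype.card ι : ℝ) ^ 2)) (mu (Fintype.card ι) ε (b i)) := by
  have hn4 : (4 : ℝ) ≤ (Fintype.card ι : ℝ) := by exact_mod_cast hc
  have hb : ‖b i‖ = 1 := b.orthonormal.1 i
  have := prob_mu b i (by omega) ε
  obtain ⟨C, hC⟩ := mu_density (n := (Fintype.card ι : ℝ)) (by linarith) hε hb
  refine strongLC_of_real ?_ (convex_pot hn4 hε hε1 hb) hC
  unfold pot
  have h1 := continuous_Lm (E := E) (Fintype.card ι : ℝ)⁻¹ ε⁻¹ (b i)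
  have h2 : Continuous (pol (Fintype.card ι : ℝ)) := by unfold pol; fun_prop
  refine (continuous_const.mul (h1.norm.pow 2)).sub (Continuous.log ?_ fun y => ?_)
  · exact h2.comp (continuous_const.inner h1)
  · exact (pol_pos (by linarith) _).ne'

end Pool.Agent.K1H99.BC
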