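import Pool.Agent.K1H99.BC.Estimate

/-!
# The barycenter of many given measures is close to the limit measure
-/

set_option autoImplicit false

namespace Pool.Agent.K1H99.BC

open MeasureTheory Filter Topology Set ProbabilityTheory
open scoped ENNReal NNReal RealInnerProductSpace

variable {E : Type*} [NormedAddCommGroup E] [InnerProductSpace ℝ E]
  [FiniteDimensional ℝ E] [MeasurableSpace E] [BorelSpace E]

/-- the second moment of the limit measure -/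
noncomputable def a0 (E : Type*) [NormedAddCommGroup E] [InnerProductSpace ℝ E]
    [FiniteDimensional ℝ E] [MeasurableSpace E] [BorelSpace E] (n : ℝ) : ℝ :=
  ∫ x, ‖x‖ ^ 2 ∂(nuS n : Measure E)

lemma a0_nonneg (n : ℝ) : 0 ≤ a0 E n := integral_nonneg fun _ => by positivity

lemma memLp_of_cost {π : Measure (E × E)} {ν μ : Measure E} (h : IsCpl π ν μ)
    (hc : cost π ≠ ∞) (hμ : MemLp (fun x : E => x) 2 μ) : MemLp (fun x : E => x) 2 ν := by
  have h1 := moment_le π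
  rw [h.2] at h1
  have h2 : ∫⁻ z, ‖z‖ₑ ^ 2 ∂π ≠ ∞ :=
    ne_top_of_le_ne_top (ENNReal.add_ne_top.2 ⟨ENNReal.mul_ne_top (by norm_num) hc,
      ENNReal.mul_ne_top (by norm_num) (lint_of_memLp hμ)⟩) h1
  rw [memLp_two_iff_integrable_sq_norm (by fun_prop)]
  refine ⟨by fun_prop, ?_⟩
  unfold HasFiniteIntegral
  simp_rw [enorm_pow, enorm_norm]
  rw [← h.1, lintegral_map (by fun_prop) measurable_fst]
  refine lt_of_le_of_lt (lintegral_mono fun z => ?_) h2.lt_top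
  apply pow_le_pow_left'
  rw [← ofReal_norm, ← ofReal_norm]
  exact ENNReal.ofReal_le_ofReal (norm_fst_le z)

variable {ι : Type*} [Fintype ι] [DecidableEq ι] {I : Type*} [Fintype I]

omit [FiniteDimensional ℝ E] [BorelSpace E] in
lemma sum_moment {n : ℝ} {θ : I → E} {w : I → ℝ}
    (tight : ∀ x : E, ∑ k, w k * ⟪θ k, x⟫ ^ 2 = ‖x‖ ^ 2 / n) {ν : Measure E}
    (hν : MemLp (fun x : E => x) 2 ν) :
    ∑ k, w k * ∫ x, ⟪θ k, x⟫ ^ 2 ∂ν = (∫ x, ‖x‖ ^ 2 ∂ν) / n := by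
  have i1 : ∀ k, Integrable (fun x : E => ⟪θ k, x⟫ ^ 2) ν := fun k =>
    (hν.const_inner (θ k)).integrable_sq
  have h1 : ∑ k, w k * ∫ x, ⟪θ k, x⟫ ^ 2 ∂ν = ∫ x, ∑ k, w k * ⟪θ k, x⟫ ^ 2 ∂ν := by
    rw [integral_finsetSum _ fun k _ => (i1 k).const_mul _]
    simp_rw [integral_const_mul]
  rw [h1]
  simp_rw [tight]
  rw [integral_div]

/-- **Main estimate.** -/
theorem main_est (B : I → OrthonormalBasis ι ℝ E) (j : I → ι) (hc : 2 ≤ Fintype.card ι)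
    (w : I → ℝ) (hw : ∀ k, 0 < w k) (hw1 : ∑ k, w k = 1)
    (tight : ∀ x : E, ∑ k, w k * ⟪B k (j k), x⟫ ^ 2 = ‖x‖ ^ 2 / (Fintype.card ι : ℝ))
    {ε : ℝ} (hε : 0 < ε) (hε2 : ε ≤ 1 / 2) {ν : Measure E} {π : I → Measure (E × E)}
    (hπ : ∀ k, IsCpl (π k) ν (mu (Fintype.card ι) ε (B k (j k))))
    (hν : MemLp (fun x : E => x) 2 ν)
    (hmin : ∑ k, ENNReal.ofReal (w k) * cost (π k) ≤
      ∑ k, ENNReal.ofReal (w k) * cost (pis (Fintype.card ι) ε (B k (j k)))) :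
    ∑ k, w k * ∫ z, (⟪B k (j k), z.1⟫ - ⟪B k (j k), z.2⟫ / (Fintype.card ι : ℝ)) ^ 2 ∂(π k) ≤
      ε * (4 * a0 E (Fintype.card ι) + 6) ∧
    ∫ x, ‖x‖ ^ 2 ∂ν ≤ 2 * (Fintype.card ι : ℝ) * (ε * (4 * a0 E (Fintype.card ι) + 6)) +
      2 * a0 E (Fintype.card ι) := by
  set n : ℝ := (Fintype.card ι : ℝ) with hn
  have hn2 : (2 : ℝ) ≤ n := by rw [hn]; exact_mod_cast hc
  have hn0 : 0 < n := by linarith
  have hb : ∀ k, ‖B k (j k)‖ = 1 := fun k => (B k).orthonormal.1 (j k)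
  have ha0 := a0_nonneg (E := E) n
  set D : I → ℝ := fun k => ∫ z, (⟪B k (j k), z.1⟫ - ⟪B k (j k), z.2⟫ / n) ^ 2 ∂(π k) with hD
  have hm1 : ∀ k, MemLp (fun z : E × E => z.1) 2 (π k) := fun k => memLp_fst (hπ k) hν
  have hm2 : ∀ k, MemLp (fun z : E × E => z.2) 2 (π k) := fun k =>
    memLp_snd (hπ k) (memLp_mu (B k) (j k) hc ε)
  have hs1 : ∀ k, MemLp (fun z : E × E => z.1) 2 (pis n ε (B k (j k))) := fun k =>
    memLp_fst (cpl_pis (B k) (j k) hc ε) (memLp_nuS _)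
  have hs2 : ∀ k, MemLp (fun z : E × E => z.2) 2 (pis n ε (B k (j k))) := fun k =>
    memLp_snd (cpl_pis (B k) (j k) hc ε) (memLp_mu (B k) (j k) hc ε)
  -- the comparison of the costs in `ℝ`
  have hcost : ∑ k, w k * ∫ z, ‖z.1 - z.2‖ ^ 2 ∂(π k) ≤
      ∑ k, w k * ∫ z, ‖z.1 - z.2‖ ^ 2 ∂(pis n ε (B k (j k))) := by
    have h1 : ∀ k, ENNReal.ofReal (w k) * cost (π k) =
        ENNReal.ofReal (w k * ∫ z, ‖z.1 - z.2‖ ^ 2 ∂(π k)) := by
      intro k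
      rw [cost_eq (hm1 k) (hm2 k), ENNReal.ofReal_mul (hw k).le]
    have h2 : ∀ k, ENNReal.ofReal (w k) * cost (pis n ε (B k (j k))) =
        ENNReal.ofReal (w k * ∫ z, ‖z.1 - z.2‖ ^ 2 ∂(pis n ε (B k (j k)))) := by
      intro k
      rw [cost_eq (hs1 k) (hs2 k), ENNReal.ofReal_mul (hw k).le]
    have hnn : ∀ m : Measure (E × E), 0 ≤ ∫ z, ‖z.1 - z.2‖ ^ 2 ∂m := fun m =>
      integral_nonneg fun z => by positivity
    simp_rw [h1, h2] at hmin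
    rw [← ENNReal.ofReal_sum_of_nonneg fun k _ => mul_nonneg (hw k).le (hnn _),
      ← ENNReal.ofReal_sum_of_nonneg fun k _ => mul_nonneg (hw k).le (hnn _)] at hmin
    exact (ENNReal.ofReal_le_ofReal_iff
      (Finset.sum_nonneg fun k _ => mul_nonneg (hw k).le (hnn _))).1 hmin
  have hlow : ∑ k, w k * ((1 - ε) * (∫ x, ‖x‖ ^ 2 ∂ν - n * ∫ x, ⟪B k (j k), x⟫ ^ 2 ∂ν +
      n * D k + (n ^ 2 - n) * sg n (B k (j k))) - ε * (n - 1)) ≤
      ∑ k, w k * ∫ z, ‖z.1 - z.2‖ ^ 2 ∂(π k) :=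
    Finset.sum_le_sum fun k _ => mul_le_mul_of_nonneg_left (lower (B k) (j k) hc hε (hπ k) hν)
      (hw k).le
  have hup : ∑ k, w k * ∫ z, ‖z.1 - z.2‖ ^ 2 ∂(pis n ε (B k (j k))) ≤
      ∑ k, w k * ((1 + ε) * (a0 E n + (n ^ 2 - 2 * n) * sg n (B k (j k))) + 2 * ε * (n - 1)) :=
    Finset.sum_le_sum fun k _ => mul_le_mul_of_nonneg_left
      (upper (B k) (j k) hc hε (by linarith)) (hw k).le
  have hS1 := sum_moment tight hν
  have hS2 : ∑ k, w k * sg n (B k (j k)) = a0 E n / n := sum_moment tight (memLp_nuS n)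
  have hDn : ∀ k, 0 ≤ D k := fun k => integral_nonneg fun z => by positivity
  have eL : ∑ k, w k * ((1 - ε) * (∫ x, ‖x‖ ^ 2 ∂ν - n * ∫ x, ⟪B k (j k), x⟫ ^ 2 ∂ν +
      n * D k + (n ^ 2 - n) * sg n (B k (j k))) - ε * (n - 1)) =
      (1 - ε) * (n * ∑ k, w k * D k + (n - 1) * a0 E n) - ε * (n - 1) := by
    have h1 : ∀ k, w k * ((1 - ε) * (∫ x, ‖x‖ ^ 2 ∂ν - n * ∫ x, ⟪B k (j k), x⟫ ^ 2 ∂ν +
        n * D k + (n ^ 2 - n) * sg n (B k (j k))) - ε * (n - 1)) =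
        ((1 - ε) * (∫ x, ‖x‖ ^ 2 ∂ν) - ε * (n - 1)) * w k -
        (1 - ε) * n * (w k * ∫ x, ⟪B k (j k), x⟫ ^ 2 ∂ν) + (1 - ε) * n * (w k * D k) +
        (1 - ε) * (n ^ 2 - n) * (w k * sg n (B k (j k))) := by
      intro k
      ring
    simp_rw [h1]
    rw [Finset.sum_add_distrib, Finset.sum_add_distrib, Finset.sum_sub_distrib, ← Finset.mul_sum,
      ← Finset.mul_sum, ← Finset.mul_sum, ← Finset.mul_sum, hS1, hS2, hw1]
    field_simp
    ring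
  have eU : ∑ k, w k * ((1 + ε) * (a0 E n + (n ^ 2 - 2 * n) * sg n (B k (j k))) +
      2 * ε * (n - 1)) = (1 + ε) * ((n - 1) * a0 E n) + 2 * ε * (n - 1) := by
    have h1 : ∀ k, w k * ((1 + ε) * (a0 E n + (n ^ 2 - 2 * n) * sg n (B k (j k))) +
        2 * ε * (n - 1)) = ((1 + ε) * a0 E n + 2 * ε * (n - 1)) * w k +
        (1 + ε) * (n ^ 2 - 2 * n) * (w k * sg n (B k (j k))) := by
      intro k
      ring
    simp_rw [h1]
    rw [Finset.sum_add_distrib, ← Finset.mul_sum, ← Finset.mul_sum, hS2, hw1]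
    field_simp
    ring
  have hmain : (1 - ε) * (n * ∑ k, w k * D k + (n - 1) * a0 E n) - ε * (n - 1) ≤
      (1 + ε) * ((n - 1) * a0 E n) + 2 * ε * (n - 1) := by
    rw [← eL, ← eU]
    exact hlow.trans (hcost.trans hup)
  have hT : 0 ≤ ∑ k, w k * D k := Finset.sum_nonneg fun k _ => mul_nonneg (hw k).le (hDn k)
  have hfin : ∑ k, w k * D k ≤ ε * (4 * a0 E n + 6) := by
    set T := ∑ k, w k * D k
    have h1 : (1 - ε) * (n * T) ≤ 2 * ε * ((n - 1) * a0 E n) + 3 * ε * (n - 1) := by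
      nlinarith
    have h2 : (1 / 2) * (n * T) ≤ (1 - ε) * (n * T) :=
      mul_le_mul_of_nonneg_right (by linarith) (by positivity)
    have h3 : 2 * ε * ((n - 1) * a0 E n) + 3 * ε * (n - 1) ≤ 2 * ε * (n * a0 E n) + 3 * ε * n := by
      have h4 : (n - 1) * a0 E n ≤ n * a0 E n := mul_le_mul_of_nonneg_right (by linarith) ha0
      nlinarith [mul_le_mul_of_nonneg_left h4 hε.le]
    have h5 : n * T ≤ n * (ε * (4 * a0 E n + 6)) := by nlinarith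
    exact le_of_mul_le_mul_left h5 hn0
  refine ⟨hfin, ?_⟩
  -- second moment
  have hk : ∀ k, ∫ x, ⟪B k (j k), x⟫ ^ 2 ∂ν ≤ 2 * D k + 2 * sg n (B k (j k)) := by
    intro k
    have m3 : MemLp (fun z : E × E => ⟪B k (j k), z.1⟫) 2 (π k) := (hm1 k).const_inner _
    have m4 : MemLp (fun z : E × E => ⟪B k (j k), z.2⟫) 2 (π k) := (hm2 k).const_inner _
    have m5 : MemLp (fun z : E × E => ⟪B k (j k), z.1⟫ - ⟪B k (j k), z.2⟫ / n) 2 (π k) := by
      have h := m3.sub (m4.const_mul n⁻¹)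
      refine h.ae_eq (ae_of_all _ fun z => ?_)
      simp only [Pi.sub_apply]
      rw [div_eq_inv_mul]
    have e1 : ∫ x, ⟪B k (j k), x⟫ ^ 2 ∂ν = ∫ z, ⟪B k (j k), z.1⟫ ^ 2 ∂(π k) := by
      rw [← (hπ k).1, integral_map (by fun_prop) (by fun_prop)]
    have e4 : ∫ z, ⟪B k (j k), z.2⟫ ^ 2 ∂(π k) = n ^ 2 * sg n (B k (j k)) := by
      rw [hn, ← int_mu_inner (B k) (j k) hc ε, ← (hπ k).2,
        integral_map (by fun_prop) (by fun_prop)]
    have i4 : Integrable (fun z : E × E => (2 / n ^ 2) * ⟪B k (j k), z.2⟫ ^ 2) (π k) :=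
      m4.integrable_sq.const_mul _
    have i5 : Integrable (fun z : E × E => 2 * (⟪B k (j k), z.1⟫ - ⟪B k (j k), z.2⟫ / n) ^ 2) (π k) :=
      m5.integrable_sq.const_mul _
    rw [e1]
    refine (integral_mono m3.integrable_sq (i5.add i4) (fun z => ?_)).trans (le_of_eq ?_)
    · simp only [Pi.add_apply]
      have h1 : 2 / n ^ 2 * ⟪B k (j k), z.2⟫ ^ 2 = 2 * (⟪B k (j k), z.2⟫ / n) ^ 2 := by
        field_simp
      rw [h1]
      nlinarith [sq_nonneg (⟪B k (j k), z.1⟫ - 2 * (⟪B k (j k), z.2⟫ / n))]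
    · simp only [Pi.add_apply]
      have h8 : 2 / n ^ 2 * (n ^ 2 * sg n (B k (j k))) = 2 * sg n (B k (j k)) := by field_simp
      rw [integral_add i5 i4, integral_const_mul, integral_const_mul, e4, h8]
  have h6 : (∫ x, ‖x‖ ^ 2 ∂ν) / n ≤ 2 * ∑ k, w k * D k + 2 * (a0 E n / n) := by
    rw [← hS1, ← hS2]
    refine (Finset.sum_le_sum fun k _ => mul_le_mul_of_nonneg_left (hk k) (hw k).le).trans
      (le_of_eq ?_)
    rw [Finset.mul_sum, Finset.mul_sum, ← Finset.sum_add_distrib]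
    exact Finset.sum_congr rfl fun k _ => by ring
  rw [div_le_iff₀ hn0] at h6
  have h7 : (2 * ∑ k, w k * D k + 2 * (a0 E n / n)) * n = 2 * n * ∑ k, w k * D k + 2 * a0 E n := by
    field_simp
  rw [h7] at h6
  refine h6.trans ?_
  have : 2 * n * ∑ k, w k * D k ≤ 2 * n * (ε * (4 * a0 E n + 6)) :=
    mul_le_mul_of_nonneg_left hfin (by positivity)
  linarith

end Pool.Agent.K1H99.BC
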