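import Pool.Agent.K1H99.BC.Gauss

/-!
# The limit measure and its projections

`nuS` is the measure with density proportional to `(‖x‖² - 1)² exp (-‖x‖²/2)`, and `mT θ` has
density proportional to `pol ⟪θ, x⟫ exp (-‖x‖²/2)`; both have the same image under `⟪θ, ·⟫`.
-/

set_option autoImplicit false

namespace Pool.Agent.K1H99.BC

open MeasureTheory Filter Topology Set ProbabilityTheory
open scoped ENNReal NNReal RealInnerProductSpace

/-- the polynomial factor of the density of the one-dimensional projections -/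
def pol (n s : ℝ) : ℝ := (s ^ 2 + n - 2) ^ 2 + 2 * (n - 1)

lemma pol_pos {n : ℝ} (hn : 1 < n) (s : ℝ) : 0 < pol n s := by
  unfold pol
  have : 0 ≤ (s ^ 2 + n - 2) ^ 2 := sq_nonneg _
  linarith

variable {E : Type*} [NormedAddCommGroup E] [InnerProductSpace ℝ E] [FiniteDimensional ℝ E]
  [MeasurableSpace E] [BorelSpace E]

/-- the limit measure -/
noncomputable def nuS (n : ℝ) : Measure E :=
  (stdGaussian E).withDensity fun x => ENNReal.ofReal ((‖x‖ ^ 2 - 1) ^ 2 / (n ^ 2 + 1))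

/-- the measure whose linear images are the given measures -/
noncomputable def mT (n : ℝ) (θ : E) : Measure E :=
  (stdGaussian E).withDensity fun x => ENNReal.ofReal (pol n ⟪θ, x⟫ / (n ^ 2 + 1))

variable {ι : Type*} [Fintype ι] [DecidableEq ι]

lemma integral_shift (b : OrthonormalBasis ι ℝ E) (i : ι) (hc : 2 ≤ Fintype.card ι) (s : ℝ) :
    ∫⁻ w, ENNReal.ofReal ((s ^ 2 + ‖perp (b i) w‖ ^ 2 - 1) ^ 2 / ((Fintype.card ι : ℝ) ^ 2 + 1))
      ∂(stdGaussian E) = ENNReal.ofReal (pol (Fintype.card ι) s / ((Fintype.card ι : ℝ) ^ 2 + 1)) := by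
  have hperp : ∀ k : ℕ, Integrable (fun w : E => ‖perp (b i) w‖ ^ k) (stdGaussian E) := by
    intro k
    refine (integrable_norm_pow (E := E) k).mono'
      ((continuous_perp (b i)).norm.pow k).aestronglyMeasurable (ae_of_all _ fun w => ?_)
    rw [norm_pow, norm_norm]
    exact pow_le_pow_left₀ (norm_nonneg _) (norm_perp_le (b.orthonormal.1 i) w) k
  have e : ∀ w : E, (s ^ 2 + ‖perp (b i) w‖ ^ 2 - 1) ^ 2 / ((Fintype.card ι : ℝ) ^ 2 + 1) =
      ((s ^ 2 - 1) ^ 2 / ((Fintype.card ι : ℝ) ^ 2 + 1) +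
        (2 * (s ^ 2 - 1) / ((Fintype.card ι : ℝ) ^ 2 + 1)) * ‖perp (b i) w‖ ^ 2) +
        (1 / ((Fintype.card ι : ℝ) ^ 2 + 1)) * ‖perp (b i) w‖ ^ 4 := by
    intro w
    ring
  have i1 : Integrable (fun w : E => (s ^ 2 - 1) ^ 2 / ((Fintype.card ι : ℝ) ^ 2 + 1) +
        (2 * (s ^ 2 - 1) / ((Fintype.card ι : ℝ) ^ 2 + 1)) * ‖perp (b i) w‖ ^ 2) (stdGaussian E) :=
    (integrable_const _).add ((hperp 2).const_mul _)
  have i2 : Integrable (fun w : E => (1 / ((Fintype.card ι : ℝ) ^ 2 + 1)) * ‖perp (b i) w‖ ^ 4)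
      (stdGaussian E) := (hperp 4).const_mul _
  rw [← ofReal_integral_eq_lintegral_ofReal]
  · congr 1
    simp_rw [e]
    rw [integral_add i1 i2, integral_add (integrable_const _) ((hperp 2).const_mul _),
      integral_const_mul, integral_const_mul, integral_const, integral_perp_sq, integral_perp_four b i hc]
    simp only [probReal_univ, smul_eq_mul, one_mul]
    unfold pol
    ring
  · have : (fun w : E => (s ^ 2 + ‖perp (b i) w‖ ^ 2 - 1) ^ 2 / ((Fintype.card ι : ℝ) ^ 2 + 1)) =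
      fun w : E => ((s ^ 2 - 1) ^ 2 / ((Fintype.card ι : ℝ) ^ 2 + 1) +
        (2 * (s ^ 2 - 1) / ((Fintype.card ι : ℝ) ^ 2 + 1)) * ‖perp (b i) w‖ ^ 2) +
        (1 / ((Fintype.card ι : ℝ) ^ 2 + 1)) * ‖perp (b i) w‖ ^ 4 := funext e
    rw [this]
    exact i1.add i2
  · exact ae_of_all _ fun w => by positivity

omit [InnerProductSpace ℝ E] [FiniteDimensional ℝ E] in
lemma measurable_wt (n : ℝ) :
    Measurable fun x : E => ENNReal.ofReal ((‖x‖ ^ 2 - 1) ^ 2 / (n ^ 2 + 1)) := by fun_prop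

lemma measurable_pt (n : ℝ) (θ : E) :
    Measurable fun x : E => ENNReal.ofReal (pol n ⟪θ, x⟫ / (n ^ 2 + 1)) := by
  unfold pol
  fun_prop

/-- The projection of `nuS` on the line of `θ` agrees with the one of `mT θ`. -/
lemma map_Phi_nuS (b : OrthonormalBasis ι ℝ E) (i : ι) (hc : 2 ≤ Fintype.card ι) :
    ((nuS (Fintype.card ι : ℝ) : Measure E).prod (stdGaussian E)).map (Phi (b i)) =
      mT (Fintype.card ι : ℝ) (b i) := by
  set n : ℝ := (Fintype.card ι : ℝ) with hn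
  have hb : ‖b i‖ = 1 := b.orthonormal.1 i
  apply Measure.ext_of_lintegral
  intro f hf
  have hfΦ : Measurable fun z : E × E => f (Phi (b i) z) := hf.comp (measurable_Phi _)
  let H : E → ℝ≥0∞ := fun x => ∫⁻ w, f (Phi (b i) (x, w)) ∂(stdGaussian E)
  have hH : Measurable H := hfΦ.lintegral_prod_right'
  have hHΦ : ∀ z : E × E, H (Phi (b i) z) = H z.1 := by
    intro z
    refine lintegral_congr fun w => ?_
    congr 1
    unfold Phi
    simp only
    congr 2
    exact inner_Phi hb z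
  rw [lintegral_map hf (measurable_Phi _), lintegral_prod _ hfΦ.aemeasurable]
  have h1 : ∫⁻ x, ∫⁻ w, f (Phi (b i) (x, w)) ∂(stdGaussian E) ∂(nuS n : Measure E) =
      ∫⁻ x, ENNReal.ofReal ((‖x‖ ^ 2 - 1) ^ 2 / (n ^ 2 + 1)) * H x ∂(stdGaussian E) := by
    unfold nuS
    rw [lintegral_withDensity_eq_lintegral_mul _ (measurable_wt n) hH]
    rfl
  rw [h1]
  have hm1 : Measurable fun x : E => ENNReal.ofReal ((‖x‖ ^ 2 - 1) ^ 2 / (n ^ 2 + 1)) * H x :=
    (measurable_wt n).mul hH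
  have hm2 : Measurable fun x : E => ENNReal.ofReal (pol n ⟪b i, x⟫ / (n ^ 2 + 1)) * f x :=
    (measurable_pt n _).mul hf
  have hm3 : Measurable fun z : E × E => ENNReal.ofReal ((‖Phi (b i) z‖ ^ 2 - 1) ^ 2 / (n ^ 2 + 1)) *
      H (Phi (b i) z) := hm1.comp (measurable_Phi _)
  have hm4 : Measurable fun z : E × E => ENNReal.ofReal (pol n ⟪b i, Phi (b i) z⟫ / (n ^ 2 + 1)) *
      f (Phi (b i) z) := hm2.comp (measurable_Phi _)
  conv_lhs => rw [← map_Phi hb]
  rw [lintegral_map hm1 (measurable_Phi _), lintegral_prod _ hm3.aemeasurable]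
  have h2 : ∀ x : E, ∫⁻ w, ENNReal.ofReal ((‖Phi (b i) (x, w)‖ ^ 2 - 1) ^ 2 / (n ^ 2 + 1)) *
      H (Phi (b i) (x, w)) ∂(stdGaussian E) = ENNReal.ofReal (pol n ⟪b i, x⟫ / (n ^ 2 + 1)) * H x := by
    intro x
    have h3 : ∀ w : E, ENNReal.ofReal ((‖Phi (b i) (x, w)‖ ^ 2 - 1) ^ 2 / (n ^ 2 + 1)) *
        H (Phi (b i) (x, w)) = ENNReal.ofReal ((⟪b i, x⟫ ^ 2 + ‖perp (b i) w‖ ^ 2 - 1) ^ 2 /
          (n ^ 2 + 1)) * H x := by
      intro w
      rw [hHΦ (x, w), norm_sq_Phi hb]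
    simp_rw [h3]
    rw [lintegral_mul_const, integral_shift b i hc]
    have := continuous_perp (E := E) (b i)
    fun_prop
  simp_rw [h2]
  have h4 : ∫⁻ x, f x ∂(mT n (b i)) =
      ∫⁻ x, ENNReal.ofReal (pol n ⟪b i, x⟫ / (n ^ 2 + 1)) * f x ∂(stdGaussian E) := by
    unfold mT
    rw [lintegral_withDensity_eq_lintegral_mul _ (measurable_pt n _) hf]
    rfl
  rw [h4]
  conv_rhs => rw [← map_Phi hb]
  rw [lintegral_map hm2 (measurable_Phi _), lintegral_prod _ hm4.aemeasurable]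
  refine lintegral_congr fun x => ?_
  have h5 : ∀ w : E, ENNReal.ofReal (pol n ⟪b i, Phi (b i) (x, w)⟫ / (n ^ 2 + 1)) *
      f (Phi (b i) (x, w)) = ENNReal.ofReal (pol n ⟪b i, x⟫ / (n ^ 2 + 1)) * f (Phi (b i) (x, w)) := by
    intro w
    rw [inner_Phi hb]
  simp_rw [h5]
  rw [lintegral_const_mul]
  exact hfΦ.comp measurable_prodMk_left

omit [DecidableEq ι] in
lemma prob_mT (b : OrthonormalBasis ι ℝ E) (i : ι) (hc : 2 ≤ Fintype.card ι) :
    IsProbabilityMeasure (mT (Fintype.card ι : ℝ) (b i)) := by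
  set n : ℝ := (Fintype.card ι : ℝ) with hn
  have hn2 : (2 : ℝ) ≤ n := by rw [hn]; exact_mod_cast hc
  have hb : ‖b i‖ = 1 := b.orthonormal.1 i
  obtain ⟨l, hl⟩ : ∃ l, l ≠ i := by
    have : Nontrivial ι := Fintype.one_lt_card_iff_nontrivial.1 hc
    exact exists_ne i
  constructor
  unfold mT
  rw [withDensity_apply _ MeasurableSet.univ, setLIntegral_univ,
    ← ofReal_integral_eq_lintegral_ofReal]
  · have e : ∀ x : E, pol n ⟪b i, x⟫ / (n ^ 2 + 1) = ((1 / (n ^ 2 + 1)) * ⟪b i, x⟫ ^ 4 +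
        (2 * (n - 2) / (n ^ 2 + 1)) * ⟪b i, x⟫ ^ 2) + ((n - 2) ^ 2 + 2 * (n - 1)) / (n ^ 2 + 1) := by
      intro x
      unfold pol
      ring
    simp_rw [e]
    have i1 : Integrable (fun x : E => (1 / (n ^ 2 + 1)) * ⟪b i, x⟫ ^ 4 +
        (2 * (n - 2) / (n ^ 2 + 1)) * ⟪b i, x⟫ ^ 2) (stdGaussian E) :=
      ((integrable_inner_pow _ 4).const_mul _).add ((integrable_inner_pow _ 2).const_mul _)
    rw [integral_add i1 (integrable_const _), integral_add ((integrable_inner_pow _ 4).const_mul _)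
      ((integrable_inner_pow _ 2).const_mul _), integral_const_mul, integral_const_mul,
      integral_const, integral_inner_sq hb,
      integral_inner_four hb (b.orthonormal.1 l) (b.orthonormal.2 (Ne.symm hl))]
    simp only [probReal_univ, smul_eq_mul, one_mul]
    have h0 : n ^ 2 + 1 ≠ 0 := by positivity
    rw [ENNReal.ofReal_eq_one]
    field_simp
    ring
  · unfold pol
    have e : ∀ x : E, ((⟪b i, x⟫ ^ 2 + n - 2) ^ 2 + 2 * (n - 1)) / (n ^ 2 + 1) =
        ((1 / (n ^ 2 + 1)) * ⟪b i, x⟫ ^ 4 +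
        (2 * (n - 2) / (n ^ 2 + 1)) * ⟪b i, x⟫ ^ 2) + ((n - 2) ^ 2 + 2 * (n - 1)) / (n ^ 2 + 1) := by
      intro x
      ring
    simp_rw [e]
    exact (((integrable_inner_pow _ 4).const_mul _).add
      ((integrable_inner_pow _ 2).const_mul _)).add (integrable_const _)
  · refine ae_of_all _ fun x => ?_
    have := pol_pos (by linarith : 1 < n) ⟪b i, x⟫
    simp only [Pi.zero_apply]
    positivity

lemma prob_nuS (b : OrthonormalBasis ι ℝ E) (i : ι) (hc : 2 ≤ Fintype.card ι) :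
    IsProbabilityMeasure (nuS (Fintype.card ι : ℝ) : Measure E) := by
  have h1 := prob_mT b i hc
  rw [← map_Phi_nuS b i hc] at h1
  have h2 := h1.measure_univ
  rw [Measure.map_apply (measurable_Phi _) MeasurableSet.univ, preimage_univ,
    ← univ_prod_univ, Measure.prod_prod, measure_univ (μ := stdGaussian E), mul_one] at h2
  exact ⟨h2⟩

end Pool.Agent.K1H99.BC
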