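import Pool.Agent.K1H99.BC.LogConc
import Pool.Agent.K1H99.BC.Limit

/-!
# The Poincaré constants of the barycenters tend to infinity
-/

set_option autoImplicit false

namespace Pool.Agent.K1H99.BC

open MeasureTheory Filter Topology Set ProbabilityTheory Module
open scoped ENNReal NNReal RealInnerProductSpace ContDiff

/-! ### A cutoff function -/

lemma st_deriv_bound : ∃ S : ℝ, 0 < S ∧ (∀ u, |deriv Real.smoothTransition u| ≤ S) ∧
    ∀ u, (u < 0 ∨ 1 < u) → deriv Real.smoothTransition u = 0 := by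
  have hz : ∀ u : ℝ, (u < 0 ∨ 1 < u) → deriv Real.smoothTransition u = 0 := by
    intro u hu
    rcases hu with hu | hu
    · have h1 : Real.smoothTransition =ᶠ[𝓝 u] fun _ => 0 := by
        filter_upwards [Iio_mem_nhds hu] with v hv
        exact Real.smoothTransition.zero_of_nonpos (le_of_lt hv)
      rw [h1.deriv_eq]
      simp
    · have h1 : Real.smoothTransition =ᶠ[𝓝 u] fun _ => 1 := by
        filter_upwards [Ioi_mem_nhds hu] with v hv
        exact Real.smoothTransition.one_of_one_le (le_of_lt hv)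
      rw [h1.deriv_eq]
      simp
  have hc : Continuous (deriv Real.smoothTransition) :=
    (Real.smoothTransition.contDiff (n := 1)).continuous_deriv le_rfl
  obtain ⟨S, hS⟩ := (isCompact_Icc (a := (0 : ℝ)) (b := 1)).exists_bound_of_continuousOn
    hc.continuousOn
  refine ⟨|S| + 1, by positivity, fun u => ?_, hz⟩
  by_cases hu : u ∈ Icc (0 : ℝ) 1
  · have h1 := hS u hu
    rw [Real.norm_eq_abs] at h1
    linarith [le_abs_self S]
  · rw [hz u (by
      rw [mem_Icc, not_and_or, not_le, not_le] at hu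
      exact hu)]
    rw [abs_zero]
    positivity

variable {E : Type*} [NormedAddCommGroup E] [InnerProductSpace ℝ E]

/-- the test functions -/
noncomputable def tf (m : ℕ) (x : E) : ℝ := 1 - Real.smoothTransition ((‖x‖ ^ 2 - 1) * ((m : ℝ) + 1))

lemma tf_smooth (m : ℕ) : ContDiff ℝ ∞ (tf m : E → ℝ) := by
  unfold tf
  exact contDiff_const.sub (Real.smoothTransition.contDiff.comp
    (((contDiff_norm_sq ℝ).sub contDiff_const).mul contDiff_const))

omit [InnerProductSpace ℝ E] in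
lemma tf_one (m : ℕ) {x : E} (hx : ‖x‖ < 1) : tf m x = 1 := by
  unfold tf
  rw [Real.smoothTransition.zero_of_nonpos, sub_zero]
  have h1 : ‖x‖ ^ 2 - 1 ≤ 0 := by nlinarith [norm_nonneg x]
  exact mul_nonpos_of_nonpos_of_nonneg h1 (by positivity)

omit [InnerProductSpace ℝ E] in
lemma tf_zero (m : ℕ) {x : E} (hx : 2 < ‖x‖) : tf m x = 0 := by
  unfold tf
  rw [Real.smoothTransition.one_of_one_le, sub_self]
  have h1 : 1 ≤ ‖x‖ ^ 2 - 1 := by nlinarith
  have h2 : (1 : ℝ) ≤ (m : ℝ) + 1 := by linarith [Nat.cast_nonneg (α := ℝ) m]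
  nlinarith

omit [InnerProductSpace ℝ E] in
lemma tf_nonneg (m : ℕ) (x : E) : 0 ≤ tf m x := by
  unfold tf
  linarith [Real.smoothTransition.le_one ((‖x‖ ^ 2 - 1) * ((m : ℝ) + 1))]

omit [InnerProductSpace ℝ E] in
lemma tf_le (m : ℕ) (x : E) : tf m x ≤ 1 := by
  unfold tf
  linarith [Real.smoothTransition.nonneg ((‖x‖ ^ 2 - 1) * ((m : ℝ) + 1))]

lemma tf_fderiv (m : ℕ) (x : E) : ‖fderiv ℝ (tf m) x‖ ≤
    |deriv Real.smoothTransition ((‖x‖ ^ 2 - 1) * ((m : ℝ) + 1))| * (((m : ℝ) + 1) * (2 * ‖x‖)) := by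
  have h1 : HasFDerivAt (fun x : E => ‖x‖ ^ 2) ((2 : ℝ) • innerSL ℝ x) x := by
    have h0 := (hasStrictFDerivAt_norm_sq x).hasFDerivAt
    rw [two_nsmul] at h0
    rw [two_smul]
    exact h0
  have h2 : HasFDerivAt (fun x : E => (‖x‖ ^ 2 - 1) * ((m : ℝ) + 1))
      (((m : ℝ) + 1) • ((2 : ℝ) • innerSL ℝ x)) x := by
    have := (h1.sub_const 1).mul_const ((m : ℝ) + 1)
    exact this
  have h3 : HasDerivAt Real.smoothTransition
      (deriv Real.smoothTransition ((‖x‖ ^ 2 - 1) * ((m : ℝ) + 1)))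
      ((‖x‖ ^ 2 - 1) * ((m : ℝ) + 1)) :=
    ((Real.smoothTransition.contDiff (n := 1)).differentiable (by norm_num) _).hasDerivAt
  have h4 := (h3.comp_hasFDerivAt x h2).const_sub 1
  have h5 : fderiv ℝ (tf m) x = -(deriv Real.smoothTransition ((‖x‖ ^ 2 - 1) * ((m : ℝ) + 1)) •
      (((m : ℝ) + 1) • ((2 : ℝ) • innerSL ℝ x))) := h4.fderiv
  rw [h5, norm_neg, norm_smul, norm_smul, norm_smul, innerSL_apply_norm, Real.norm_eq_abs,
    Real.norm_eq_abs, Real.norm_eq_abs, abs_of_nonneg (by positivity : (0 : ℝ) ≤ (m : ℝ) + 1),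
    abs_of_nonneg (by norm_num : (0 : ℝ) ≤ 2)]

variable [FiniteDimensional ℝ E]

lemma tf_compact (m : ℕ) : HasCompactSupport (tf m : E → ℝ) := by
  refine HasCompactSupport.intro (isCompact_closedBall (0 : E) 2) fun x hx => ?_
  rw [mem_closedBall_zero_iff, not_le] at hx
  exact tf_zero m hx

variable [MeasurableSpace E] [BorelSpace E]

/-- the thin shells where the gradient of the test function does not vanish -/
def shell (E : Type*) [NormedAddCommGroup E] (m : ℕ) : Set E :=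
  {x | 1 < ‖x‖ ^ 2 ∧ (‖x‖ ^ 2 - 1) * ((m : ℝ) + 1) ≤ 1}

omit [InnerProductSpace ℝ E] [FiniteDimensional ℝ E] in
lemma shell_meas (m : ℕ) : MeasurableSet (shell E m) := by
  have h1 : Measurable fun x : E => ‖x‖ ^ 2 := by fun_prop
  have h2 : Measurable fun x : E => (‖x‖ ^ 2 - 1) * ((m : ℝ) + 1) := by fun_prop
  exact (measurableSet_lt measurable_const h1).inter (measurableSet_le h2 measurable_const)

lemma shell_tendsto : Tendsto (fun m : ℕ => (stdGaussian E).real (shell E m)) atTop (𝓝 0) := by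
  have h1 : Tendsto (fun m : ℕ => (stdGaussian E) (shell E m)) atTop
      (𝓝 ((stdGaussian E) (⋂ m, shell E m))) := by
    apply tendsto_measure_iInter_atTop
    · exact fun m => (shell_meas m).nullMeasurableSet
    · intro k m hkm x hx
      refine ⟨hx.1, le_trans ?_ hx.2⟩
      have h2 : 0 ≤ ‖x‖ ^ 2 - 1 := by linarith [hx.1]
      apply mul_le_mul_of_nonneg_left _ h2
      have : (k : ℝ) ≤ m := by exact_mod_cast hkm
      linarith
    · exact ⟨0, measure_ne_top _ _⟩
  have h2 : (⋂ m, shell E m) = ∅ := by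
    rw [eq_empty_iff_forall_notMem]
    intro x hx
    rw [mem_iInter] at hx
    have h3 : 0 < ‖x‖ ^ 2 - 1 := by linarith [(hx 0).1]
    obtain ⟨m, hm⟩ := exists_nat_ge (1 / (‖x‖ ^ 2 - 1))
    have h4 := (hx m).2
    rw [div_le_iff₀ h3] at hm
    nlinarith
  rw [h2, measure_empty] at h1
  have h3 := (ENNReal.tendsto_toReal ENNReal.zero_ne_top).comp h1
  rw [ENNReal.toReal_zero] at h3
  exact h3

lemma energy_le (n : ℝ) : ∃ S : ℝ, 0 < S ∧ ∀ m : ℕ, ∫ x, ‖fderiv ℝ (tf m) x‖ ^ 2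
    ∂(nuS n : Measure E) ≤ S * (stdGaussian E).real (shell E m) := by
  obtain ⟨S, hS0, hS, hz⟩ := st_deriv_bound
  refine ⟨8 * S ^ 2, by positivity, fun m => ?_⟩
  have hcont : Continuous (fun x : E => ‖fderiv ℝ (tf m) x‖ ^ 2) :=
    (((tf_smooth (E := E) m).continuous_fderiv (by simp)).norm).pow 2
  have e1 : ∫ x, ‖fderiv ℝ (tf m) x‖ ^ 2 ∂(nuS n : Measure E) =
      ∫ x, ((‖x‖ ^ 2 - 1) ^ 2 / (n ^ 2 + 1)) * ‖fderiv ℝ (tf m) x‖ ^ 2 ∂(stdGaussian E) := by
    unfold nuS
    rw [integral_withDensity_eq_integral_toReal_smul (measurable_wt n)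
      (ae_of_all _ fun _ => ENNReal.ofReal_lt_top)]
    refine integral_congr_ae (ae_of_all _ fun x => ?_)
    simp only
    rw [ENNReal.toReal_ofReal (by positivity), smul_eq_mul]
  rw [e1]
  have hm1 : (0 : ℝ) < (m : ℝ) + 1 := by positivity
  have key : ∀ x : E, ((‖x‖ ^ 2 - 1) ^ 2 / (n ^ 2 + 1)) * ‖fderiv ℝ (tf m) x‖ ^ 2 ≤
      (shell E m).indicator (fun _ => 8 * S ^ 2) x := by
    intro x
    have hnn : 0 ≤ ‖x‖ := norm_nonneg x
    by_cases hx : x ∈ shell E m
    · rw [indicator_of_mem hx]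
      obtain ⟨h1, h2⟩ := hx
      have h3 : 0 ≤ ‖x‖ ^ 2 - 1 := by linarith
      have h4 := tf_fderiv m x
      have h5 : ‖fderiv ℝ (tf m) x‖ ≤ S * (((m : ℝ) + 1) * (2 * ‖x‖)) :=
        h4.trans (mul_le_mul_of_nonneg_right (hS _) (by positivity))
      have h6 : ‖fderiv ℝ (tf m) x‖ ^ 2 ≤ (S * (((m : ℝ) + 1) * (2 * ‖x‖))) ^ 2 :=
        pow_le_pow_left₀ (norm_nonneg _) h5 2
      have h7 : (‖x‖ ^ 2 - 1) ^ 2 / (n ^ 2 + 1) ≤ (‖x‖ ^ 2 - 1) ^ 2 :=
        div_le_self (sq_nonneg _) (by nlinarith [sq_nonneg n])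
      have h8 : ((‖x‖ ^ 2 - 1) * ((m : ℝ) + 1)) ^ 2 ≤ 1 :=
        pow_le_one₀ (mul_nonneg h3 hm1.le) h2
      have h9 : ‖x‖ ^ 2 ≤ 2 := by
        have : ‖x‖ ^ 2 - 1 ≤ (‖x‖ ^ 2 - 1) * ((m : ℝ) + 1) := by
          nlinarith [Nat.cast_nonneg (α := ℝ) m]
        linarith
      calc ((‖x‖ ^ 2 - 1) ^ 2 / (n ^ 2 + 1)) * ‖fderiv ℝ (tf m) x‖ ^ 2
          ≤ (‖x‖ ^ 2 - 1) ^ 2 * (S * (((m : ℝ) + 1) * (2 * ‖x‖))) ^ 2 :=
            mul_le_mul h7 h6 (sq_nonneg _) (sq_nonneg _)
        _ = 4 * S ^ 2 * (((‖x‖ ^ 2 - 1) * ((m : ℝ) + 1)) ^ 2 * ‖x‖ ^ 2) := by ring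
        _ ≤ 4 * S ^ 2 * (1 * 2) := by
            apply mul_le_mul_of_nonneg_left _ (by positivity)
            exact mul_le_mul h8 h9 (by positivity) (by norm_num)
        _ = 8 * S ^ 2 := by ring
    · rw [indicator_of_notMem hx]
      have h4 := tf_fderiv m x
      rcases lt_trichotomy (‖x‖ ^ 2) 1 with h | h | h
      · have h5 : (‖x‖ ^ 2 - 1) * ((m : ℝ) + 1) < 0 := by nlinarith
        rw [hz _ (Or.inl h5), abs_zero, zero_mul] at h4
        have h6 : ‖fderiv ℝ (tf m) x‖ = 0 := le_antisymm h4 (norm_nonneg _)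
        rw [h6]
        simp
      · rw [h]
        simp
      · have h5 : 1 < (‖x‖ ^ 2 - 1) * ((m : ℝ) + 1) := by
          by_contra h6
          exact hx ⟨h, not_lt.1 h6⟩
        rw [hz _ (Or.inr h5), abs_zero, zero_mul] at h4
        have h6 : ‖fderiv ℝ (tf m) x‖ = 0 := le_antisymm h4 (norm_nonneg _)
        rw [h6]
        simp
  have h1 : ∫ x, ((‖x‖ ^ 2 - 1) ^ 2 / (n ^ 2 + 1)) * ‖fderiv ℝ (tf m) x‖ ^ 2 ∂(stdGaussian E) ≤
      ∫ x, (shell E m).indicator (fun _ => 8 * S ^ 2) x ∂(stdGaussian E) := by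
    refine integral_mono_of_nonneg (ae_of_all _ fun x => by positivity) ?_ (ae_of_all _ key)
    exact (integrable_const _).indicator (shell_meas m)
  refine h1.trans (le_of_eq ?_)
  rw [integral_indicator_const _ (shell_meas m), smul_eq_mul, mul_comm]

/-! ### The variance of the test functions -/

lemma gauss_open_pos {U : Set E} (hU : IsOpen U) (hne : U.Nonempty) : (stdGaussian E) U ≠ 0 := by
  intro h
  have h1 : (volume : Measure E) ≪ stdGaussian E := by
    rw [gauss_density]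
    apply withDensity_absolutelyContinuous' (by fun_prop)
    refine ae_of_all _ fun x => ?_
    have : 0 < gc E * Real.exp (-(1 / 2) * ‖x‖ ^ 2) := mul_pos gc_pos (Real.exp_pos _)
    simpa using this
  exact (hU.measure_pos volume hne).ne' (h1 h)

lemma nuS_open_pos (n : ℝ) {U : Set E} (hU : IsOpen U) (hne : U.Nonempty)
    (hU1 : ∀ x ∈ U, ‖x‖ ≠ 1) : (nuS n : Measure E) U ≠ 0 := by
  intro h
  unfold nuS at h
  rw [withDensity_apply_eq_zero' (measurable_wt n).aemeasurable] at h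
  have h1 : {x : E | ENNReal.ofReal ((‖x‖ ^ 2 - 1) ^ 2 / (n ^ 2 + 1)) ≠ 0} ∩ U = U := by
    rw [inter_eq_right]
    intro x hx
    have h2 : ‖x‖ ^ 2 - 1 ≠ 0 := by
      intro h3
      have h4 : ‖x‖ ^ 2 = 1 ^ 2 := by linarith
      have h5 : ‖x‖ = 1 := (pow_left_inj₀ (norm_nonneg _) zero_le_one (by norm_num)).1 h4
      exact hU1 x hx h5
    have h3 : 0 < (‖x‖ ^ 2 - 1) ^ 2 / (n ^ 2 + 1) := by positivity
    simpa using h3
  rw [h1] at h
  exact gauss_open_pos hU hne h

lemma var_lower (n : ℝ) [IsProbabilityMeasure (nuS n : Measure E)] (m : ℕ) (a : ℝ) :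
    (nuS n : Measure E).real (Metric.ball 0 1) * (nuS n : Measure E).real (Metric.closedBall 0 2)ᶜ ≤
      ∫ x, (tf m x - a) ^ 2 ∂(nuS n : Measure E) := by
  set P := (nuS n : Measure E).real (Metric.ball 0 1)
  set Q := (nuS n : Measure E).real (Metric.closedBall 0 2)ᶜ
  have hPQ : P + Q ≤ 1 := by
    have h1 : Disjoint (Metric.ball (0 : E) 1) (Metric.closedBall 0 2)ᶜ := by
      rw [disjoint_compl_right_iff_subset]
      exact Metric.ball_subset_closedBall.trans (Metric.closedBall_subset_closedBall (by norm_num))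
    have h2 := measureReal_union (μ := (nuS n : Measure E)) h1
      (Metric.isClosed_closedBall.measurableSet.compl)
    have h3 : (nuS n : Measure E).real (Metric.ball (0 : E) 1 ∪ (Metric.closedBall 0 2)ᶜ) ≤ 1 :=
      measureReal_le_one
    linarith
  have hP : 0 ≤ P := measureReal_nonneg
  have hQ : 0 ≤ Q := measureReal_nonneg
  have key : ∀ x : E, (Metric.ball (0 : E) 1).indicator (fun _ => (1 - a) ^ 2) x +
      ((Metric.closedBall (0 : E) 2)ᶜ).indicator (fun _ => a ^ 2) x ≤ (tf m x - a) ^ 2 := by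
    intro x
    by_cases h1 : x ∈ Metric.ball (0 : E) 1
    · have h2 : x ∉ (Metric.closedBall (0 : E) 2)ᶜ := by
        rw [mem_compl_iff, not_not]
        rw [mem_ball_zero_iff] at h1
        rw [mem_closedBall_zero_iff]
        linarith
      rw [indicator_of_mem h1, indicator_of_notMem h2, tf_one m (mem_ball_zero_iff.1 h1), add_zero]
    · rw [indicator_of_notMem h1, zero_add]
      by_cases h2 : x ∈ (Metric.closedBall (0 : E) 2)ᶜ
      · rw [indicator_of_mem h2]
        rw [mem_compl_iff, mem_closedBall_zero_iff, not_le] at h2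
        rw [tf_zero m h2]
        apply le_of_eq
        ring
      · rw [indicator_of_notMem h2]
        positivity
  have i1 : Integrable ((Metric.ball (0 : E) 1).indicator fun _ => (1 - a) ^ 2)
      (nuS n : Measure E) := (integrable_const _).indicator measurableSet_ball
  have i2 : Integrable (((Metric.closedBall (0 : E) 2)ᶜ).indicator fun _ => a ^ 2)
      (nuS n : Measure E) := (integrable_const _).indicator measurableSet_closedBall.compl
  have i3 : Integrable (fun x : E => (tf m x - a) ^ 2) (nuS n : Measure E) := by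
    refine (integrable_const ((1 + |a|) ^ 2)).mono'
      (((tf_smooth m).continuous.sub continuous_const).pow 2).aestronglyMeasurable
      (ae_of_all _ fun x => ?_)
    rw [Real.norm_of_nonneg (sq_nonneg _), ← sq_abs (tf m x - a)]
    apply pow_le_pow_left₀ (abs_nonneg _)
    refine (abs_sub _ _).trans ?_
    rw [abs_of_nonneg (tf_nonneg m x)]
    linarith [tf_le m x]
  have h1 := integral_mono (i1.add i2) i3 key
  simp only [Pi.add_apply] at h1
  rw [integral_add i1 i2, integral_indicator_const _ measurableSet_ball,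
    integral_indicator_const _ measurableSet_closedBall.compl, smul_eq_mul, smul_eq_mul] at h1
  refine le_trans ?_ h1
  change P * Q ≤ P * (1 - a) ^ 2 + Q * a ^ 2
  have hX : 0 ≤ P * (1 - a) ^ 2 + Q * a ^ 2 := by positivity
  have h2 : (P + Q) * (P * (1 - a) ^ 2 + Q * a ^ 2) = P * Q + ((P + Q) * a - P) ^ 2 := by ring
  nlinarith [sq_nonneg ((P + Q) * a - P), mul_nonneg (sub_nonneg.2 hPQ) hX]

/-! ### The Poincaré constant -/

/-- the Poincaré constant -/
noncomputable def cP (μ : Measure E) : ℝ≥0∞ :=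
  sInf {C : ℝ≥0∞ | ∀ f : E → ℝ, ContDiff ℝ ∞ f → HasCompactSupport f →
    ENNReal.ofReal (∫ x, (f x - ∫ y, f y ∂μ) ^ 2 ∂μ) ≤ C * ∫⁻ x, ‖fderiv ℝ f x‖ₑ ^ 2 ∂μ}

omit [FiniteDimensional ℝ E] in
lemma lint_fderiv {μ : Measure E} [IsProbabilityMeasure μ] {f : E → ℝ} (hf : ContDiff ℝ ∞ f)
    (hc : HasCompactSupport f) :
    ∫⁻ x, ‖fderiv ℝ f x‖ₑ ^ 2 ∂μ = ENNReal.ofReal (∫ x, ‖fderiv ℝ f x‖ ^ 2 ∂μ) := by
  have hcont : Continuous (fderiv ℝ f) := hf.continuous_fderiv (by simp)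
  obtain ⟨B, hB⟩ := hcont.bounded_above_of_compact_support (hc.fderiv ℝ)
  have hi : Integrable (fun x => ‖fderiv ℝ f x‖ ^ 2) μ := by
    refine (integrable_const (B ^ 2)).mono' (hcont.norm.pow 2).aestronglyMeasurable
      (ae_of_all _ fun x => ?_)
    rw [Real.norm_of_nonneg (sq_nonneg _)]
    exact pow_le_pow_left₀ (norm_nonneg _) (hB x) 2
  rw [ofReal_integral_eq_lintegral_ofReal hi (ae_of_all _ fun x => sq_nonneg _)]
  refine lintegral_congr fun x => ?_
  rw [← ofReal_norm, ENNReal.ofReal_pow (norm_nonneg _)]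

omit [FiniteDimensional ℝ E] in
/-- An upper bound for the Poincaré constant gives Poincaré inequalities. -/
lemma poinc_of_le {μ : Measure E} [IsProbabilityMeasure μ] {C : ℝ} (hC : 0 ≤ C)
    (h : cP μ ≤ ENNReal.ofReal C) {f : E → ℝ} (hf : ContDiff ℝ ∞ f) (hc : HasCompactSupport f) :
    ∫ x, (f x - ∫ y, f y ∂μ) ^ 2 ∂μ ≤ (C + 1) * ∫ x, ‖fderiv ℝ f x‖ ^ 2 ∂μ := by
  have h1 : cP μ < ENNReal.ofReal (C + 1) :=
    lt_of_le_of_lt h ((ENNReal.ofReal_lt_ofReal_iff (by linarith)).2 (by linarith))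
  obtain ⟨D, hD, hlt⟩ := sInf_lt_iff.1 h1
  have h2 := hD f hf hc
  rw [lint_fderiv hf hc] at h2
  have h3 : ENNReal.ofReal (∫ x, (f x - ∫ y, f y ∂μ) ^ 2 ∂μ) ≤
      ENNReal.ofReal ((C + 1) * ∫ x, ‖fderiv ℝ f x‖ ^ 2 ∂μ) := by
    rw [ENNReal.ofReal_mul (by linarith)]
    exact h2.trans (mul_le_mul_left hlt.le _)
  exact (ENNReal.ofReal_le_ofReal_iff
    (mul_nonneg (by linarith) (integral_nonneg fun _ => sq_nonneg _))).1 h3

omit [InnerProductSpace ℝ E] [FiniteDimensional ℝ E] in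
lemma tendsto_integral_of_cs {ν : ℕ → ProbabilityMeasure E} {νs : ProbabilityMeasure E}
    (hν : Tendsto ν atTop (𝓝 νs)) {g : E → ℝ} (hg : Continuous g) {B : ℝ} (hB : ∀ x, ‖g x‖ ≤ B) :
    Tendsto (fun k => ∫ x, g x ∂(ν k : Measure E)) atTop (𝓝 (∫ x, g x ∂(νs : Measure E))) := by
  have h := (ProbabilityMeasure.tendsto_iff_forall_integral_tendsto.1 hν)
    (BoundedContinuousFunction.ofNormedAddCommGroup g hg B hB)
  simpa using h

/-- **The Poincaré constants of measures converging weakly to the limit measure are unbounded.** -/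
theorem cP_unbounded {n : ℝ} {ν : ℕ → ProbabilityMeasure E} {νs : ProbabilityMeasure E}
    (hs : (νs : Measure E) = nuS n) (hν : Tendsto ν atTop (𝓝 νs)) [Nontrivial E] (C : ℝ)
    (hC : 0 ≤ C) : ∃ k, ENNReal.ofReal C < cP (ν k : Measure E) := by
  by_contra hcon
  push Not at hcon
  have hprob : IsProbabilityMeasure (nuS n : Measure E) := by rw [← hs]; infer_instance
  obtain ⟨S, hS0, hS⟩ := energy_le (E := E) n
  set P := (nuS n : Measure E).real (Metric.ball 0 1)
  set Q := (nuS n : Measure E).real (Metric.closedBall 0 2)ᶜ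
  have hP : 0 < P := by
    have := nuS_open_pos n (E := E) (U := Metric.ball 0 1) Metric.isOpen_ball
      ⟨0, Metric.mem_ball_self one_pos⟩ (fun x hx => (mem_ball_zero_iff.1 hx).ne)
    exact ENNReal.toReal_pos this (measure_ne_top _ _)
  have hQ : 0 < Q := by
    obtain ⟨v, hv⟩ := exists_ne (0 : E)
    have := nuS_open_pos n (E := E) (U := (Metric.closedBall 0 2)ᶜ) Metric.isClosed_closedBall.isOpen_compl
      ⟨(3 / ‖v‖) • v, by
        rw [mem_compl_iff, mem_closedBall_zero_iff, norm_smul, norm_div, norm_norm,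
          div_mul_cancel₀ _ (norm_ne_zero_iff.2 hv)]
        norm_num⟩ (fun x hx => by
        rw [mem_compl_iff, mem_closedBall_zero_iff, not_le] at hx
        intro h1
        linarith)
    exact ENNReal.toReal_pos this (measure_ne_top _ _)
  -- choose the test function
  have hlim : Tendsto (fun m : ℕ => (C + 1) * (S * (stdGaussian E).real (shell E m))) atTop (𝓝 0) := by
    have h1 := ((shell_tendsto (E := E)).const_mul S).const_mul (C + 1)
    simpa using h1
  obtain ⟨m, hm⟩ := (hlim.eventually (gt_mem_nhds (mul_pos hP hQ))).exists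
  have hsm := tf_smooth (E := E) m
  have hcs := tf_compact (E := E) m
  -- the inequality passes to the limit
  have hcf : Continuous (fderiv ℝ (tf m : E → ℝ)) := hsm.continuous_fderiv (by simp)
  obtain ⟨B, hB⟩ := hcf.bounded_above_of_compact_support (hcs.fderiv ℝ)
  have t1 : Tendsto (fun k => ∫ x, tf m x ∂(ν k : Measure E)) atTop
      (𝓝 (∫ x, tf m x ∂(νs : Measure E))) := by
    refine tendsto_integral_of_cs hν hsm.continuous (B := 1) fun x => ?_
    rw [Real.norm_of_nonneg (tf_nonneg m x)]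
    exact tf_le m x
  have t2 : Tendsto (fun k => ∫ x, (tf m x) ^ 2 ∂(ν k : Measure E)) atTop
      (𝓝 (∫ x, (tf m x) ^ 2 ∂(νs : Measure E))) := by
    refine tendsto_integral_of_cs hν (hsm.continuous.pow 2) (B := 1) fun x => ?_
    rw [Real.norm_of_nonneg (sq_nonneg _)]
    exact pow_le_one₀ (tf_nonneg m x) (tf_le m x)
  have t3 : Tendsto (fun k => ∫ x, ‖fderiv ℝ (tf m) x‖ ^ 2 ∂(ν k : Measure E)) atTop
      (𝓝 (∫ x, ‖fderiv ℝ (tf m) x‖ ^ 2 ∂(νs : Measure E))) := by
    refine tendsto_integral_of_cs hν (hcf.norm.pow 2) (B := B ^ 2) fun x => ?_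
    rw [Real.norm_of_nonneg (sq_nonneg _)]
    exact pow_le_pow_left₀ (norm_nonneg _) (hB x) 2
  have hvar : ∀ μ : Measure E, IsProbabilityMeasure μ →
      ∫ x, (tf m x - ∫ y, tf m y ∂μ) ^ 2 ∂μ = ∫ x, (tf m x) ^ 2 ∂μ - (∫ x, tf m x ∂μ) ^ 2 := by
    intro μ hμ
    have i1 : Integrable (tf m : E → ℝ) μ := by
      refine (integrable_const (1 : ℝ)).mono' hsm.continuous.aestronglyMeasurable
        (ae_of_all _ fun x => ?_)
      rw [Real.norm_of_nonneg (tf_nonneg m x)]
      exact tf_le m x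
    have i2 : Integrable (fun x : E => (tf m x) ^ 2) μ := by
      refine (integrable_const (1 : ℝ)).mono' (hsm.continuous.pow 2).aestronglyMeasurable
        (ae_of_all _ fun x => ?_)
      rw [Real.norm_of_nonneg (sq_nonneg _)]
      exact pow_le_one₀ (tf_nonneg m x) (tf_le m x)
    set a := ∫ y, tf m y ∂μ
    have e : ∀ x : E, (tf m x - a) ^ 2 = ((tf m x) ^ 2 - (2 * a) * tf m x) + a ^ 2 := fun x => by ring
    simp_rw [e]
    have i3 : Integrable (fun x : E => (tf m x) ^ 2 - (2 * a) * tf m x) μ := i2.sub (i1.const_mul _)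
    rw [integral_add i3 (integrable_const _), integral_sub i2 (i1.const_mul _),
      integral_const_mul, integral_const]
    simp only [probReal_univ, smul_eq_mul, one_mul]
    change _ - 2 * a * a + a ^ 2 = _ - a ^ 2
    ring
  have hineq : ∀ k, ∫ x, (tf m x) ^ 2 ∂(ν k : Measure E) - (∫ x, tf m x ∂(ν k : Measure E)) ^ 2 ≤
      (C + 1) * ∫ x, ‖fderiv ℝ (tf m) x‖ ^ 2 ∂(ν k : Measure E) := by
    intro k
    rw [← hvar _ inferInstance]
    exact poinc_of_le hC (hcon k) hsm hcs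
  have hfin := le_of_tendsto_of_tendsto' (t2.sub (t1.pow 2)) (t3.const_mul (C + 1)) hineq
  rw [← hvar _ inferInstance, hs] at hfin
  have h1 := var_lower (E := E) n m (∫ y, tf m y ∂(nuS n : Measure E))
  have h2 := mul_le_mul_of_nonneg_left (hS m) (by linarith : 0 ≤ C + 1)
  have h3 : P * Q ≤ (C + 1) * (S * (stdGaussian E).real (shell E m)) := h1.trans (hfin.trans h2)
  linarith

end Pool.Agent.K1H99.BC
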