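import Pool.Agent.K1H99.BC.LiftP

/-!
# The orthogonal decomposition of `ℝ^(m+1)` and the Gaussian factor
-/

set_option autoImplicit false

namespace Pool.Agent.K1H99.BC

open MeasureTheory Filter Topology Set ProbabilityTheory Module
open scoped ENNReal NNReal RealInnerProductSpace

section general

variable {E E' : Type*} [NormedAddCommGroup E] [InnerProductSpace ℝ E] [NormedAddCommGroup E']
  [InnerProductSpace ℝ E'] {e : E'} {J : E →L[ℝ] E'} {R : E' →L[ℝ] E}
  [FiniteDimensional ℝ E] [MeasurableSpace E] [BorelSpace E]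
  [FiniteDimensional ℝ E'] [MeasurableSpace E'] [BorelSpace E']

lemma strongLC_lift_mu (h : IsSpl e J R) {ι : Type*} [Fintype ι] (b : OrthonormalBasis ι ℝ E) (i : ι)
    (hc : 4 ≤ Fintype.card ι) {ε : ℝ} (hε : 0 < ε) (hε1 : ε ≤ 1) :
    StrongLC (1 / (10 * (Fintype.card ι : ℝ) ^ 2)) (lift (1 / (10 * (Fintype.card ι : ℝ) ^ 2)) e J
      (mu (Fintype.card ι) ε (b i))) := by
  have hn4 : (4 : ℝ) ≤ (Fintype.card ι : ℝ) := by exact_mod_cast hc
  have hb : ‖b i‖ = 1 := b.orthonormal.1 i
  have := prob_mu b i (by omega) ε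
  obtain ⟨C, hC⟩ := mu_density (n := (Fintype.card ι : ℝ)) (by linarith) hε hb
  refine strongLC_lift h (by positivity) ?_ (convex_pot hn4 hε hε1 hb) hC
  unfold pot
  have h1 := continuous_Lm (E := E) (Fintype.card ι : ℝ)⁻¹ ε⁻¹ (b i)
  have h2 : Continuous (pol (Fintype.card ι : ℝ)) := by unfold pol; fun_prop
  refine (continuous_const.mul (h1.norm.pow 2)).sub (Continuous.log ?_ fun y => ?_)
  · exact h2.comp (continuous_const.inner h1)
  · exact (pol_pos (by linarith) _).ne'

lemma lift_mean (h : IsSpl e J R) (κ : ℝ) (μ : Measure E) [IsProbabilityMeasure μ] :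
    ⟪e, ∫ x, x ∂(lift κ e J μ)⟫ = 0 := by
  by_cases hi : Integrable (fun x : E' => x) (lift κ e J μ)
  · rw [← integral_inner hi e]
    unfold lift
    rw [integral_map (measurable_T e J).aemeasurable (by fun_prop)]
    simp_rw [h.inner_T]
    rw [integral_fun_fst (fun t : ℝ => t), integral_id_gaussianReal]
    simp
  · rw [integral_undef hi, inner_zero_right]

lemma lift_split (h : IsSpl e J R) (κ : ℝ) (μ : Measure E) [IsProbabilityMeasure μ] :
    ∃ ν' : Measure E', IsProbabilityMeasure ν' ∧ (∀ᵐ x ∂ν', ⟪e, x⟫ = 0) ∧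
      lift κ e J μ = ((gaussianReal ⟪e, ∫ x, x ∂(lift κ e J μ)⟫ (κ⁻¹).toNNReal).prod ν').map
        (fun p : ℝ × E' => p.1 • e + p.2) := by
  refine ⟨μ.map J, Measure.isProbabilityMeasure_map J.continuous.measurable.aemeasurable, ?_, ?_⟩
  · rw [ae_map_iff J.continuous.measurable.aemeasurable
      (measurableSet_eq_fun (by fun_prop) measurable_const)]
    exact ae_of_all _ h.inner_J
  · rw [lift_mean h]
    have h1 : (gaussianReal 0 (κ⁻¹).toNNReal).prod (μ.map J) =
        ((gaussianReal 0 (κ⁻¹).toNNReal).prod μ).map (Prod.map id J) := by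
      rw [← Measure.map_prod_map _ _ measurable_id J.continuous.measurable, Measure.map_id]
    rw [h1, Measure.map_map (by fun_prop) (measurable_id.prodMap J.continuous.measurable)]
    rfl

end general

/-- the embedding of `ℝ^m` as the last coordinates of `ℝ^(m+1)` -/
noncomputable def Je (m : ℕ) : EuclideanSpace ℝ (Fin m) →L[ℝ] EuclideanSpace ℝ (Fin (m + 1)) :=
  LinearMap.toContinuousLinearMap
    { toFun := fun x => WithLp.toLp 2 (Fin.cons 0 (fun i => x i) : Fin (m + 1) → ℝ)
      map_add' := by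
        intro x y
        ext i
        refine Fin.cases ?_ (fun i => ?_) i
        · simp
        · simp
      map_smul' := by
        intro r x
        ext i
        refine Fin.cases ?_ (fun i => ?_) i
        · simp
        · simp }

/-- the projection of `ℝ^(m+1)` to the last coordinates -/
noncomputable def Re (m : ℕ) : EuclideanSpace ℝ (Fin (m + 1)) →L[ℝ] EuclideanSpace ℝ (Fin m) :=
  LinearMap.toContinuousLinearMap
    { toFun := fun y => WithLp.toLp 2 (fun i : Fin m => y i.succ)
      map_add' := by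
        intro x y
        ext i
        simp
      map_smul' := by
        intro r x
        ext i
        simp }

lemma Je_zero (m : ℕ) (x : EuclideanSpace ℝ (Fin m)) : Je m x 0 = 0 := by
  unfold Je
  simp

lemma Je_succ (m : ℕ) (x : EuclideanSpace ℝ (Fin m)) (i : Fin m) : Je m x i.succ = x i := by
  unfold Je
  simp

lemma Re_apply (m : ℕ) (y : EuclideanSpace ℝ (Fin (m + 1))) (i : Fin m) : Re m y i = y i.succ := by
  unfold Re
  simp

lemma isSpl_euclidean (m : ℕ) :
    IsSpl (EuclideanSpace.single (0 : Fin (m + 1)) (1 : ℝ)) (Je m) (Re m) := by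
  have hin : ∀ y : EuclideanSpace ℝ (Fin (m + 1)),
      ⟪EuclideanSpace.single (0 : Fin (m + 1)) (1 : ℝ), y⟫ = y 0 := by
    intro y
    rw [EuclideanSpace.inner_single_left]
    simp
  refine ⟨?_, ?_, ?_, ?_, ?_, ?_⟩
  · rw [PiLp.norm_single, norm_one]
  · intro x
    rw [hin, Je_zero]
  · intro x
    have h1 : ‖Je m x‖ ^ 2 = ‖x‖ ^ 2 := by
      rw [EuclideanSpace.real_norm_sq_eq, EuclideanSpace.real_norm_sq_eq, Fin.sum_univ_succ,
        Je_zero]
      simp_rw [Je_succ]
      simp
    exact (pow_left_inj₀ (norm_nonneg _) (norm_nonneg _) (by norm_num)).1 h1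
  · intro x
    ext i
    rw [Re_apply, Je_succ]
  · ext i
    rw [Re_apply]
    simp
  · intro y
    rw [hin]
    ext i
    refine Fin.cases ?_ (fun i => ?_) i
    · simp [Je_zero]
    · simp [Je_succ, Re_apply]

end Pool.Agent.K1H99.BC
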